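import Pool.Agent.W_bbc525_h89.Fun

/-!
# The maximizing law is concentrated at `q`
-/

set_option autoImplicit false
set_option linter.unusedSectionVars false

namespace Pool.Agent.W_bbc525_h89

open Finset Filter Topology MeasureTheory Pool.Agent.W_MP_bbc525_pr

/-- moments of a finite law -/
noncomputable def fm {ι : Type*} [Fintype ι] (w y : ι → ℝ) (k : ℕ) : ℝ := ∑ i, w i * y i ^ k

theorem fm_nonneg {ι : Type*} [Fintype ι] {w y : ι → ℝ} (hw : ∀ i, 0 ≤ w i) (hy : ∀ i, 0 ≤ y i)
    (k : ℕ) : 0 ≤ fm w y k :=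
  Finset.sum_nonneg fun i _ => mul_nonneg (hw i) (pow_nonneg (hy i) k)

/-- energy of a finite law -/
noncomputable def fe {ι : Type*} [Fintype ι] (p : ℝ) (w y : ι → ℝ) : ℝ :=
  ∑ i, w i * relEnt p (y i)

section update

variable {ι : Type*} [Fintype ι] [DecidableEq ι]

theorem sum_update (w y : ι → ℝ) (j : ι) (c : ℝ) (f : ℝ → ℝ) :
    ∑ i, w i * f (Function.update y j c i) = ∑ i, w i * f (y i) + w j * (f c - f (y j)) := by
  rw [← Finset.add_sum_erase _ _ (Finset.mem_univ j), ← Finset.add_sum_erase _ _ (Finset.mem_univ j),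
    Function.update_self]
  have h : ∑ i ∈ univ.erase j, w i * f (Function.update y j c i) =
      ∑ i ∈ univ.erase j, w i * f (y i) := by
    refine Finset.sum_congr rfl fun i hi => ?_
    rw [Function.update_of_ne (Finset.ne_of_mem_erase hi)]
  rw [h]
  ring

/-- the law of the perturbation -/
noncomputable def pw' (w : ι → ℝ) (j : ι) (ε : ℝ) : Option ι → ℝ
  | none => w j
  | some i => (1 - ε) * w i - if i = j then w j - ε else 0

/-- the atoms of the perturbation -/
noncomputable def py' (y : ι → ℝ) (c : ℝ) : Option ι → ℝ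
  | none => c
  | some i => y i

theorem sum_pert (w y : ι → ℝ) (j : ι) (ε c : ℝ) (f : ℝ → ℝ) :
    ∑ i, pw' w j ε i * f (py' y c i) = ∑ i, w i * f (y i) +
      ε * (f (y j) - ∑ i, w i * f (y i)) + w j * (f c - f (y j)) := by
  rw [Fintype.sum_option]
  simp only [pw', py', sub_mul, Finset.sum_sub_distrib, ite_mul, zero_mul,
    Finset.sum_ite_eq', Finset.mem_univ, if_true, mul_assoc, ← Finset.mul_sum]
  ring

theorem pw'_nonneg {w : ι → ℝ} (hw : ∀ i, 0 ≤ w i) {j : ι} (hj : w j ≤ 1) {ε : ℝ} (h0 : 0 ≤ ε)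
    (h1 : ε ≤ 1) : ∀ i, 0 ≤ pw' w j ε i := by
  rintro (_ | i)
  · exact hw j
  · unfold pw'
    simp only
    split_ifs with h
    · subst h
      nlinarith
    · nlinarith [hw i]

theorem sum_pw' {w : ι → ℝ} (hw1 : ∑ i, w i = 1) (j : ι) (ε : ℝ) : ∑ i, pw' w j ε i = 1 := by
  have h := sum_pert w (fun _ => 0) j ε 0 (fun _ => 1)
  simp only [mul_one, hw1, sub_self, mul_zero, add_zero] at h
  exact h

theorem fm_pert (w y : ι → ℝ) (j : ι) (ε c : ℝ) (k : ℕ) :
    fm (pw' w j ε) (py' y c) k = fm w y k + ε * (y j ^ k - fm w y k) +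
      w j * (c ^ k - y j ^ k) := sum_pert w y j ε c (fun x => x ^ k)

theorem fe_pert (p : ℝ) (w y : ι → ℝ) (j : ι) (ε c : ℝ) :
    fe p (pw' w j ε) (py' y c) = fe p w y + ε * (relEnt p (y j) - fe p w y) +
      w j * (relEnt p c - relEnt p (y j)) := sum_pert w y j ε c (relEnt p)

theorem fm_pos {w y : ι → ℝ} (hw : ∀ i, 0 ≤ w i) (hy : ∀ i, 0 ≤ y i) {j : ι} (hj : 0 < w j)
    (hyj : 0 < y j) (k : ℕ) : 0 < fm w y k :=
  Finset.sum_pos' (fun i _ => mul_nonneg (hw i) (pow_nonneg (hy i) k))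
    ⟨j, Finset.mem_univ j, mul_pos hj (pow_pos hyj k)⟩

end update

section graph

variable {V : Type*} [Fintype V] [DecidableEq V] (H : SimpleGraph V) [DecidableRel H.Adj]

/-- A degree strictly between the degrees of two adjacent vertices is at most their mean. -/
def HalfCond : Prop := ∀ i j, H.Adj i j → ∀ v, Half (H.degree v) (H.degree i) (H.degree j)

/-- two different positive degrees occur -/
def TwoDeg : Prop := ∃ u v, 0 < H.degree u ∧ 0 < H.degree v ∧ H.degree u ≠ H.degree v

/-- The vertex condition at `(p, q)`. -/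
def Ncond (p q : ℝ) : Prop := ∀ r : ℝ, 0 ≤ r → r ≤ 1 →
  (q * (logit q - logit p) / (2 * H.edgeFinset.card)) * ∑ v, ((r / q) ^ H.degree v - 1) ≤
    relEnt p r - relEnt p q

variable {H}

theorem HalfCond.edge (h : HalfCond H) {e : Sym2 V} (he : e ∈ H.edgeFinset) (v : V) :
    Half (H.degree v) (ndeg H e) (mdeg H e) := by
  induction e using Sym2.ind with
  | _ i j =>
    have hadj : H.Adj i j := by simpa using he
    rw [ndeg_mk, mdeg_mk]
    rcases le_total (H.degree i) (H.degree j) with hij | hij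
    · rw [min_eq_left hij, max_eq_right hij]
      exact h i j hadj v
    · rw [min_eq_right hij, max_eq_left hij]
      exact h j i hadj.symm v

theorem exists_mdeg (e : Sym2 V) : ∃ v, mdeg H e = H.degree v := by
  induction e using Sym2.ind with
  | _ i j =>
    rw [mdeg_mk]
    rcases max_choice (H.degree i) (H.degree j) with h | h
    · exact ⟨i, h⟩
    · exact ⟨j, h⟩

theorem exists_ndeg (e : Sym2 V) : ∃ v, ndeg H e = H.degree v := by
  induction e using Sym2.ind with
  | _ i j =>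
    rw [ndeg_mk]
    rcases min_choice (H.degree i) (H.degree j) with h | h
    · exact ⟨i, h⟩
    · exact ⟨j, h⟩

theorem HalfCond.edges (h : HalfCond H) {e e' : Sym2 V} (he : e ∈ H.edgeFinset) :
    Half (mdeg H e') (ndeg H e) (mdeg H e) ∧ Half (ndeg H e') (ndeg H e) (mdeg H e) := by
  obtain ⟨u, hu⟩ := exists_mdeg (H := H) e'
  obtain ⟨v, hv⟩ := exists_ndeg (H := H) e'
  rw [hu, hv]
  exact ⟨h.edge he u, h.edge he v⟩

theorem exists_edge {v : V} (hv : 0 < H.degree v) : ∃ e ∈ H.edgeFinset, v ∈ e := by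
  obtain ⟨u, hu⟩ := (H.degree_pos_iff_exists_adj v).1 hv
  exact ⟨s(v, u), by simpa using hu, Sym2.mem_mk_left v u⟩

theorem ndeg_le_degree {e : Sym2 V} {v : V} (hv : v ∈ e) : ndeg H e ≤ H.degree v := by
  induction e using Sym2.ind with
  | _ i j =>
    rcases Sym2.mem_iff.1 hv with rfl | rfl
    · exact min_le_left _ _
    · exact min_le_right _ _

theorem TwoDeg.edges (h : TwoDeg H) :
    ∃ e ∈ H.edgeFinset, ∃ e' ∈ H.edgeFinset, ndeg H e ≠ mdeg H e' := by
  obtain ⟨u, v, hu, hv, huv⟩ := h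
  obtain ⟨e, he, hue⟩ := exists_edge hu
  obtain ⟨e', he', hve⟩ := exists_edge hv
  by_contra hcon
  push Not at hcon
  have h1 := hcon e he e he
  have h2 := hcon e' he' e' he'
  have h3 := hcon e he e' he'
  have a1 := ndeg_le_degree (H := H) hue
  have a2 := degree_le_mdeg H hue
  have a3 := ndeg_le_degree (H := H) hve
  have a4 := degree_le_mdeg H hve
  omega

theorem sum_psi {m : ℕ → ℝ} (hm0 : m 0 = 1) :
    ∑ e ∈ H.edgeFinset, (psi m (mdeg H e) + psi m (ndeg H e)) =
      ∑ v, (m (H.degree v) - 1) := by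
  have h := sum_edge_sum H (fun v => psi m (H.degree v))
  have h1 : ∀ v, (H.degree v : ℝ) * psi m (H.degree v) = m (H.degree v) - 1 := by
    intro v
    unfold psi
    by_cases h0 : H.degree v = 0
    · rw [h0, hm0]
      simp
    · rw [mul_div_cancel₀]
      exact_mod_cast h0
  rw [Finset.sum_congr rfl fun v _ => h1 v] at h
  rw [← h]
  refine Finset.sum_congr rfl fun e => ?_
  induction e using Sym2.ind with
  | _ i j =>
    intro he
    have hadj : H.Adj i j := by simpa using he
    rw [sum_mem_mk hadj.ne, ndeg_mk, mdeg_mk]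
    rcases le_total (H.degree i) (H.degree j) with hij | hij
    · rw [min_eq_left hij, max_eq_right hij, add_comm]
    · rw [min_eq_right hij, max_eq_left hij]

/-- averaging the vertex condition -/
theorem Ncond.avg {p y : ℝ} (h : Ncond H p y) {ι : Type*} [Fintype ι] {w x : ι → ℝ}
    (hw : ∀ i, 0 ≤ w i) (hw1 : ∑ i, w i = 1) (hx0 : ∀ i, 0 ≤ x i) (hx1 : ∀ i, x i ≤ 1) :
    (y * (logit y - logit p) / (2 * H.edgeFinset.card)) *
      ∑ v, ((∑ i, w i * (x i / y) ^ H.degree v) - 1) ≤ fe p w x - relEnt p y := by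
  have h1 : ∀ i, w i * ((y * (logit y - logit p) / (2 * H.edgeFinset.card)) *
      ∑ v, ((x i / y) ^ H.degree v - 1)) ≤ w i * (relEnt p (x i) - relEnt p y) := fun i =>
    mul_le_mul_of_nonneg_left (h (x i) (hx0 i) (hx1 i)) (hw i)
  have h2 := Finset.sum_le_sum fun i (_ : i ∈ Finset.univ) => h1 i
  have h3 : ∑ i, w i * (relEnt p (x i) - relEnt p y) = fe p w x - relEnt p y := by
    simp only [mul_sub, Finset.sum_sub_distrib, ← Finset.sum_mul, hw1, one_mul, fe]
  have h4 : ∑ i, w i * ((y * (logit y - logit p) / (2 * H.edgeFinset.card)) *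
      ∑ v, ((x i / y) ^ H.degree v - 1)) = (y * (logit y - logit p) / (2 * H.edgeFinset.card)) *
      ∑ v, ((∑ i, w i * (x i / y) ^ H.degree v) - 1) := by
    have h5 : ∀ v, (∑ i, w i * (x i / y) ^ H.degree v) - 1 =
        ∑ i, w i * ((x i / y) ^ H.degree v - 1) := by
      intro v
      simp only [mul_sub, mul_one, Finset.sum_sub_distrib, hw1]
    simp only [h5, Finset.mul_sum]
    rw [Finset.sum_comm]
    refine Finset.sum_congr rfl fun v _ => Finset.sum_congr rfl fun i _ => ?_
    ring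
  rw [h4, h3] at h2
  exact h2

end graph

end Pool.Agent.W_bbc525_h89
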