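import Pool.Agent.W_bbc525_h89.Atoms

/-!
# The edge inequality with charges

For `x, z > 0` with `x ^ θ ≤ z` the excess `log ((z + x ^ θ) / 2) - (z - 1) / 2 - θ (x - 1) / 2` is
bounded by `s θ (x - 1 - log x) + t (z - 1 - log z)`, if `2 s ≥ θ - 1` or
`4 θ s t ≥ (θ - 1) ^ 2 (1 + t)`.
-/

set_option autoImplicit false
set_option linter.unusedSectionVars false

namespace Pool.Agent.W_bbc525_h89

open Set

/-- two antiderivatives -/
theorem nonneg_of_second {g g' g'' : ℝ → ℝ} (h1 : ∀ t ∈ Icc (0 : ℝ) 1, HasDerivAt g (g' t) t)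
    (h2 : ∀ t ∈ Icc (0 : ℝ) 1, HasDerivAt g' (g'' t) t) (h0 : g 0 = 0) (h0' : g' 0 = 0)
    (h : ∀ t ∈ Ioo (0 : ℝ) 1, 0 ≤ g'' t) : 0 ≤ g 1 := by
  have m1 : MonotoneOn g' (Icc 0 1) := by
    apply monotoneOn_of_deriv_nonneg (convex_Icc 0 1)
    · exact fun t ht => (h2 t ht).continuousAt.continuousWithinAt
    · intro t ht
      exact (h2 t (interior_subset ht)).differentiableAt.differentiableWithinAt
    · intro t ht
      rw [(h2 t (interior_subset ht)).deriv]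
      rw [interior_Icc] at ht
      exact h t ht
  have m2 : MonotoneOn g (Icc 0 1) := by
    apply monotoneOn_of_deriv_nonneg (convex_Icc 0 1)
    · exact fun t ht => (h1 t ht).continuousAt.continuousWithinAt
    · intro t ht
      exact (h1 t (interior_subset ht)).differentiableAt.differentiableWithinAt
    · intro t ht
      have ht' := interior_subset ht
      rw [(h1 t ht').deriv, ← h0']
      exact m1 (left_mem_Icc.2 zero_le_one) ht' ht'.1
  rw [← h0]
  exact m2 (left_mem_Icc.2 zero_le_one) (right_mem_Icc.2 zero_le_one) zero_le_one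

theorem pos_of_second {g g' g'' : ℝ → ℝ} (h1 : ∀ t ∈ Icc (0 : ℝ) 1, HasDerivAt g (g' t) t)
    (h2 : ∀ t ∈ Icc (0 : ℝ) 1, HasDerivAt g' (g'' t) t) (h0 : g 0 = 0) (h0' : g' 0 = 0)
    (h : ∀ t ∈ Ioo (0 : ℝ) 1, 0 < g'' t) : 0 < g 1 := by
  have m1 : StrictMonoOn g' (Icc 0 1) := by
    apply strictMonoOn_of_deriv_pos (convex_Icc 0 1)
    · exact fun t ht => (h2 t ht).continuousAt.continuousWithinAt
    · intro t ht
      rw [(h2 t (interior_subset ht)).deriv]
      rw [interior_Icc] at ht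
      exact h t ht
  have m2 : StrictMonoOn g (Icc 0 1) := by
    apply strictMonoOn_of_deriv_pos (convex_Icc 0 1)
    · exact fun t ht => (h1 t ht).continuousAt.continuousWithinAt
    · intro t ht
      have ht' := interior_subset ht
      rw [(h1 t ht').deriv, ← h0']
      rw [interior_Icc] at ht
      exact m1 (left_mem_Icc.2 zero_le_one) ht' ht.1
  rw [← h0]
  exact m2 (left_mem_Icc.2 zero_le_one) (right_mem_Icc.2 zero_le_one) zero_lt_one

/-- the charges are sufficient -/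
def Chg (θ s t : ℝ) : Prop := θ - 1 ≤ 2 * s ∨ (θ - 1) ^ 2 * (1 + t) ≤ 4 * θ * s * t

/-- the quadratic form -/
theorem Charge_form {θ s t u A B : ℝ} (hθ : 1 < θ) (ht : 0 ≤ t)
    (hc : Chg θ s t) (hu0 : 0 < u) (hu : u ≤ 1 / 2) :
    0 ≤ s * A ^ 2 / θ + t * B ^ 2 - (θ - 1) / θ * u * A ^ 2 + ((1 - u) * B + u * A) ^ 2 := by
  have hθ0 : 0 < θ := by linarith
  rcases hc with hc | hc
  · have h1 : 0 ≤ (s - (θ - 1) * u) * A ^ 2 / θ := by
      have : 0 ≤ s - (θ - 1) * u := by nlinarith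
      positivity
    have h2 : s * A ^ 2 / θ - (θ - 1) / θ * u * A ^ 2 = (s - (θ - 1) * u) * A ^ 2 / θ := by
      ring
    have h3 : 0 ≤ t * B ^ 2 := by positivity
    have h4 : 0 ≤ ((1 - u) * B + u * A) ^ 2 := sq_nonneg _
    linarith
  · have hT : 0 < t + 1 := by linarith
    have h1 : t * u ^ 2 / (t + 1) * A ^ 2 ≤ t * B ^ 2 + ((1 - u) * B + u * A) ^ 2 := by
      have hD : 0 < t + (1 - u) ^ 2 := by nlinarith
      have h2 : t * u ^ 2 / (t + (1 - u) ^ 2) * A ^ 2 ≤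
          t * B ^ 2 + ((1 - u) * B + u * A) ^ 2 := by
        rw [div_mul_eq_mul_div, div_le_iff₀ hD]
        nlinarith [sq_nonneg ((t + (1 - u) ^ 2) * B + u * (1 - u) * A)]
      refine le_trans ?_ h2
      apply mul_le_mul_of_nonneg_right _ (sq_nonneg A)
      apply div_le_div_of_nonneg_left (by positivity) hD
      nlinarith
    have h2 : 0 ≤ (s / θ - (θ - 1) / θ * u + t * u ^ 2 / (t + 1)) * A ^ 2 := by
      apply mul_nonneg _ (sq_nonneg A)
      have h3 : s / θ - (θ - 1) / θ * u + t * u ^ 2 / (t + 1) =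
          (s * (t + 1) - (θ - 1) * u * (t + 1) + θ * t * u ^ 2) / (θ * (t + 1)) := by
        field_simp
      rw [h3]
      apply div_nonneg _ (by positivity)
      rcases ht.eq_or_lt with rfl | ht'
      · exfalso
        have : 0 < (θ - 1) ^ 2 := by
          have : θ - 1 ≠ 0 := by linarith
          positivity
        nlinarith
      · -- quadratic in `u` with non-positive discriminant
        have h4 : 0 ≤ (2 * θ * t * u - (θ - 1) * (t + 1)) ^ 2 := sq_nonneg _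
        have h5 : (θ - 1) ^ 2 * (1 + t) * (t + 1) ≤ 4 * θ * s * t * (t + 1) :=
          mul_le_mul_of_nonneg_right hc hT.le
        have h6 : 0 ≤ 4 * θ * t * (s * (t + 1) - (θ - 1) * u * (t + 1) + θ * t * u ^ 2) := by
          nlinarith
        have h7 : 0 < 4 * θ * t := by positivity
        exact nonneg_of_mul_nonneg_right h6 h7
    have h3 : s * A ^ 2 / θ + t * B ^ 2 - (θ - 1) / θ * u * A ^ 2 + ((1 - u) * B + u * A) ^ 2 =
        (s / θ - (θ - 1) / θ * u + t * u ^ 2 / (t + 1)) * A ^ 2 +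
          (t * B ^ 2 + ((1 - u) * B + u * A) ^ 2 - t * u ^ 2 / (t + 1) * A ^ 2) := by ring
    rw [h3]
    linarith

/-- strict version -/
theorem Charge_form_pos {θ s t u A B : ℝ} (hθ : 1 < θ) (ht : 0 ≤ t)
    (hc : Chg θ s t) (hu0 : 0 < u) (hu : u < 1 / 2) (hAB : A ≠ 0 ∨ B ≠ 0) :
    0 < s * A ^ 2 / θ + t * B ^ 2 - (θ - 1) / θ * u * A ^ 2 + ((1 - u) * B + u * A) ^ 2 := by
  have hθ0 : 0 < θ := by linarith
  by_cases hA : A = 0
  · subst hA
    have hB : B ≠ 0 := by tauto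
    have h1 : 0 < ((1 - u) * B) ^ 2 := by
      have : 1 - u ≠ 0 := by linarith
      positivity
    have h2 : 0 ≤ t * B ^ 2 := by positivity
    have h3 : s * (0 : ℝ) ^ 2 / θ + t * B ^ 2 - (θ - 1) / θ * u * (0 : ℝ) ^ 2 +
        ((1 - u) * B + u * 0) ^ 2 = t * B ^ 2 + ((1 - u) * B) ^ 2 := by ring
    rw [h3]
    linarith
  have hA2 : 0 < A ^ 2 := by positivity
  rcases hc with hc | hc
  · have h1 : 0 < (s - (θ - 1) * u) * A ^ 2 / θ := by
      have : 0 < s - (θ - 1) * u := by nlinarith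
      positivity
    have h2 : s * A ^ 2 / θ - (θ - 1) / θ * u * A ^ 2 = (s - (θ - 1) * u) * A ^ 2 / θ := by
      ring
    have h3 : 0 ≤ t * B ^ 2 := by positivity
    have h4 : 0 ≤ ((1 - u) * B + u * A) ^ 2 := sq_nonneg _
    linarith
  · have hT : 0 < t + 1 := by linarith
    have ht' : 0 < t := by
      rcases ht.eq_or_lt with rfl | ht'
      · exfalso
        have : 0 < (θ - 1) ^ 2 := by
          have : θ - 1 ≠ 0 := by linarith
          positivity
        nlinarith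
      · exact ht'
    have h1 : t * u ^ 2 / (t + 1) * A ^ 2 < t * B ^ 2 + ((1 - u) * B + u * A) ^ 2 := by
      have hD : 0 < t + (1 - u) ^ 2 := by nlinarith
      have h2 : t * u ^ 2 / (t + (1 - u) ^ 2) * A ^ 2 ≤
          t * B ^ 2 + ((1 - u) * B + u * A) ^ 2 := by
        rw [div_mul_eq_mul_div, div_le_iff₀ hD]
        nlinarith [sq_nonneg ((t + (1 - u) ^ 2) * B + u * (1 - u) * A)]
      refine lt_of_lt_of_le ?_ h2
      apply mul_lt_mul_of_pos_right _ hA2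
      apply div_lt_div_of_pos_left (by positivity) hD
      nlinarith
    have h2 : 0 ≤ (s / θ - (θ - 1) / θ * u + t * u ^ 2 / (t + 1)) * A ^ 2 := by
      apply mul_nonneg _ (sq_nonneg A)
      have h3 : s / θ - (θ - 1) / θ * u + t * u ^ 2 / (t + 1) =
          (s * (t + 1) - (θ - 1) * u * (t + 1) + θ * t * u ^ 2) / (θ * (t + 1)) := by
        field_simp
      rw [h3]
      apply div_nonneg _ (by positivity)
      have h4 : 0 ≤ (2 * θ * t * u - (θ - 1) * (t + 1)) ^ 2 := sq_nonneg _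
      have h5 : (θ - 1) ^ 2 * (1 + t) * (t + 1) ≤ 4 * θ * s * t * (t + 1) :=
        mul_le_mul_of_nonneg_right hc hT.le
      have h6 : 0 ≤ 4 * θ * t * (s * (t + 1) - (θ - 1) * u * (t + 1) + θ * t * u ^ 2) := by
        nlinarith
      have h7 : 0 < 4 * θ * t := by positivity
      exact nonneg_of_mul_nonneg_right h6 h7
    have h3 : s * A ^ 2 / θ + t * B ^ 2 - (θ - 1) / θ * u * A ^ 2 + ((1 - u) * B + u * A) ^ 2 =
        (s / θ - (θ - 1) / θ * u + t * u ^ 2 / (t + 1)) * A ^ 2 +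
          (t * B ^ 2 + ((1 - u) * B + u * A) ^ 2 - t * u ^ 2 / (t + 1) * A ^ 2) := by ring
    rw [h3]
    linarith

section curve

/-- the excess along the segment -/
noncomputable def cg (θ s t x z τ : ℝ) : ℝ :=
  s * θ * (τ * (x - 1) - Real.log (1 + τ * (x - 1))) +
    t * (τ * (z - 1) - Real.log (1 + τ * (z - 1))) + (τ * (z - 1) / 2 + θ * (τ * (x - 1)) / 2) -
    Real.log ((1 + τ * (z - 1) + (1 + τ * (x - 1)) ^ θ) / 2)

/-- its derivative -/
noncomputable def cg' (θ s t x z τ : ℝ) : ℝ :=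
  s * θ * ((x - 1) - (x - 1) / (1 + τ * (x - 1))) +
    t * ((z - 1) - (z - 1) / (1 + τ * (z - 1))) + ((z - 1) / 2 + θ * (x - 1) / 2) -
    ((z - 1) + (x - 1) * θ * (1 + τ * (x - 1)) ^ (θ - 1)) /
      (1 + τ * (z - 1) + (1 + τ * (x - 1)) ^ θ)

/-- its second derivative -/
noncomputable def cg'' (θ s t x z τ : ℝ) : ℝ :=
  s * θ * ((x - 1) ^ 2 / (1 + τ * (x - 1)) ^ 2) +
    t * ((z - 1) ^ 2 / (1 + τ * (z - 1)) ^ 2) -
    (((x - 1) * θ * ((x - 1) * (θ - 1) * (1 + τ * (x - 1)) ^ (θ - 1 - 1))) *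
        (1 + τ * (z - 1) + (1 + τ * (x - 1)) ^ θ) -
      ((z - 1) + (x - 1) * θ * (1 + τ * (x - 1)) ^ (θ - 1)) *
        ((z - 1) + (x - 1) * θ * (1 + τ * (x - 1)) ^ (θ - 1))) /
      (1 + τ * (z - 1) + (1 + τ * (x - 1)) ^ θ) ^ 2

theorem hasDerivAt_lin (x τ : ℝ) : HasDerivAt (fun τ : ℝ => 1 + τ * (x - 1)) (x - 1) τ := by
  have := ((hasDerivAt_id τ).mul_const (x - 1)).const_add 1
  simpa using this

theorem seg_pos {x τ : ℝ} (hx : 0 < x) (h0 : 0 ≤ τ) (h1 : τ ≤ 1) : 0 < 1 + τ * (x - 1) := by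
  rcases h1.eq_or_lt with rfl | h
  · linarith
  · nlinarith

theorem hasDerivAt_seg_rpow {x τ : ℝ} (r : ℝ) (h : 0 < 1 + τ * (x - 1)) :
    HasDerivAt (fun τ : ℝ => (1 + τ * (x - 1)) ^ r) ((x - 1) * r * (1 + τ * (x - 1)) ^ (r - 1)) τ :=
  (hasDerivAt_lin x τ).rpow_const (Or.inl h.ne')

theorem hasDerivAt_cg (θ s t : ℝ) {x z τ : ℝ} (hX : 0 < 1 + τ * (x - 1))
    (hZ : 0 < 1 + τ * (z - 1)) : HasDerivAt (cg θ s t x z) (cg' θ s t x z τ) τ := by
  have hP : 0 < (1 + τ * (x - 1)) ^ θ := Real.rpow_pos_of_pos hX θ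
  have l1 : HasDerivAt (fun τ : ℝ => τ * (x - 1)) (x - 1) τ := by
    simpa using (hasDerivAt_id τ).mul_const (x - 1)
  have l2 : HasDerivAt (fun τ : ℝ => τ * (z - 1)) (z - 1) τ := by
    simpa using (hasDerivAt_id τ).mul_const (z - 1)
  have a1 := (l1.sub ((hasDerivAt_lin x τ).log hX.ne')).const_mul (s * θ)
  have a2 := (l2.sub ((hasDerivAt_lin z τ).log hZ.ne')).const_mul t
  have a3 := (l2.div_const 2).add ((l1.const_mul θ).div_const 2)
  have a4 := (((hasDerivAt_lin z τ).add (hasDerivAt_seg_rpow θ hX)).div_const 2).log (by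
    simp only [Pi.add_apply]
    positivity)
  have h := ((a1.add a2).add a3).sub a4
  refine h.congr_deriv ?_
  unfold cg'
  simp only [Pi.add_apply]
  rw [div_div_div_cancel_right₀ two_ne_zero]

theorem hasDerivAt_cg' (θ s t : ℝ) {x z τ : ℝ} (hX : 0 < 1 + τ * (x - 1))
    (hZ : 0 < 1 + τ * (z - 1)) : HasDerivAt (cg' θ s t x z) (cg'' θ s t x z τ) τ := by
  have hP : 0 < (1 + τ * (x - 1)) ^ θ := Real.rpow_pos_of_pos hX θ
  have b1 : HasDerivAt (fun τ : ℝ => (x - 1) - (x - 1) / (1 + τ * (x - 1)))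
      ((x - 1) ^ 2 / (1 + τ * (x - 1)) ^ 2) τ := by
    have := (((hasDerivAt_const τ (x - 1)).div (hasDerivAt_lin x τ) hX.ne').const_sub (x - 1))
    refine this.congr_deriv ?_
    ring
  have b2 : HasDerivAt (fun τ : ℝ => (z - 1) - (z - 1) / (1 + τ * (z - 1)))
      ((z - 1) ^ 2 / (1 + τ * (z - 1)) ^ 2) τ := by
    have := (((hasDerivAt_const τ (z - 1)).div (hasDerivAt_lin z τ) hZ.ne').const_sub (z - 1))
    refine this.congr_deriv ?_
    ring
  have b3 := ((hasDerivAt_seg_rpow (θ - 1) hX).const_mul ((x - 1) * θ)).const_add (z - 1)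
  have b4 := (hasDerivAt_lin z τ).add (hasDerivAt_seg_rpow θ hX)
  have b5 := b3.div b4 (by
    simp only [Pi.add_apply]
    positivity)
  have h := (((b1.const_mul (s * θ)).add (b2.const_mul t)).add_const
    ((z - 1) / 2 + θ * (x - 1) / 2)).sub b5
  exact h

theorem cg''_eq {θ s t x z τ : ℝ} (hθ : 0 < θ) (hX : 0 < 1 + τ * (x - 1))
    (hZ : 0 < 1 + τ * (z - 1)) :
    cg'' θ s t x z τ =
      s * (θ * (x - 1) / (1 + τ * (x - 1))) ^ 2 / θ + t * ((z - 1) / (1 + τ * (z - 1))) ^ 2 -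
        (θ - 1) / θ * ((1 + τ * (x - 1)) ^ θ / (1 + τ * (z - 1) + (1 + τ * (x - 1)) ^ θ)) *
          (θ * (x - 1) / (1 + τ * (x - 1))) ^ 2 +
        ((1 - (1 + τ * (x - 1)) ^ θ / (1 + τ * (z - 1) + (1 + τ * (x - 1)) ^ θ)) *
            ((z - 1) / (1 + τ * (z - 1))) +
          (1 + τ * (x - 1)) ^ θ / (1 + τ * (z - 1) + (1 + τ * (x - 1)) ^ θ) *
            (θ * (x - 1) / (1 + τ * (x - 1)))) ^ 2 := by
  unfold cg''
  rw [Real.rpow_sub_one hX.ne' (θ - 1), Real.rpow_sub_one hX.ne' θ]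
  have hP : 0 < (1 + τ * (x - 1)) ^ θ := Real.rpow_pos_of_pos hX θ
  generalize (1 + τ * (x - 1)) ^ θ = P at hP ⊢
  generalize hXd : 1 + τ * (x - 1) = X at hX ⊢
  generalize hZd : 1 + τ * (z - 1) = Z at hZ ⊢
  have hN : 0 < Z + P := by positivity
  field_simp
  ring

theorem seg_le {θ x z τ : ℝ} (hθ : 1 ≤ θ) (hx : 0 < x) (hxz : x ^ θ ≤ z) (h0 : 0 ≤ τ)
    (h1 : τ ≤ 1) : (1 + τ * (x - 1)) ^ θ ≤ 1 + τ * (z - 1) := by
  have h := (convexOn_rpow hθ).2 (show (1 : ℝ) ∈ Ici 0 from mem_Ici.2 zero_le_one)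
    (show x ∈ Ici 0 from hx.le) (show 0 ≤ 1 - τ by linarith) h0 (by ring)
  simp only [smul_eq_mul, mul_one, Real.one_rpow] at h
  have e : 1 - τ + τ * x = 1 + τ * (x - 1) := by ring
  rw [e] at h
  have h2 : τ * x ^ θ ≤ τ * z := mul_le_mul_of_nonneg_left hxz h0
  linarith

theorem seg_lt {θ x z τ : ℝ} (hθ : 1 ≤ θ) (hx : 0 < x) (hxz : x ^ θ < z) (h0 : 0 < τ)
    (h1 : τ ≤ 1) : (1 + τ * (x - 1)) ^ θ < 1 + τ * (z - 1) := by
  have h := (convexOn_rpow hθ).2 (show (1 : ℝ) ∈ Ici 0 from mem_Ici.2 zero_le_one)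
    (show x ∈ Ici 0 from hx.le) (show 0 ≤ 1 - τ by linarith) h0.le (by ring)
  simp only [smul_eq_mul, mul_one, Real.one_rpow] at h
  have e : 1 - τ + τ * x = 1 + τ * (x - 1) := by ring
  rw [e] at h
  have h2 : τ * x ^ θ < τ * z := mul_lt_mul_of_pos_left hxz h0
  linarith

theorem cg_zero (θ s t x z : ℝ) : cg θ s t x z 0 = 0 := by
  unfold cg
  norm_num

theorem cg'_zero (θ s t x z : ℝ) : cg' θ s t x z 0 = 0 := by
  unfold cg'
  norm_num
  ring

theorem cg_one (θ s t x z : ℝ) : cg θ s t x z 1 =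
    s * θ * (x - 1 - Real.log x) + t * (z - 1 - Real.log z) + ((z - 1) / 2 + θ * (x - 1) / 2) -
      Real.log ((z + x ^ θ) / 2) := by
  unfold cg
  simp only [one_mul, add_sub_cancel]

/-- **The edge inequality.** -/
theorem edge_ineq {θ s t x z : ℝ} (hθ : 1 < θ) (ht : 0 ≤ t) (hc : Chg θ s t) (hx : 0 < x)
    (hz : 0 < z) (hxz : x ^ θ ≤ z) :
    Real.log ((z + x ^ θ) / 2) ≤ (z - 1) / 2 + θ * (x - 1) / 2 +
      (s * θ * (x - 1 - Real.log x) + t * (z - 1 - Real.log z)) := by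
  have h := nonneg_of_second (g := cg θ s t x z) (g' := cg' θ s t x z) (g'' := cg'' θ s t x z)
    (fun τ hτ => hasDerivAt_cg θ s t (seg_pos hx hτ.1 hτ.2) (seg_pos hz hτ.1 hτ.2))
    (fun τ hτ => hasDerivAt_cg' θ s t (seg_pos hx hτ.1 hτ.2) (seg_pos hz hτ.1 hτ.2))
    (cg_zero _ _ _ _ _) (cg'_zero _ _ _ _ _) (fun τ hτ => by
      have hX := seg_pos hx hτ.1.le hτ.2.le
      have hZ := seg_pos hz hτ.1.le hτ.2.le
      have hP : 0 < (1 + τ * (x - 1)) ^ θ := Real.rpow_pos_of_pos hX θ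
      have hle := seg_le hθ.le hx hxz hτ.1.le hτ.2.le
      rw [cg''_eq (by linarith) hX hZ]
      exact Charge_form hθ ht hc (by positivity) (by
        rw [div_le_div_iff₀ (by positivity) two_pos]
        linarith))
  rw [cg_one] at h
  linarith

/-- **The strict edge inequality.** -/
theorem edge_ineq_lt {θ s t x z : ℝ} (hθ : 1 < θ) (ht : 0 ≤ t) (hc : Chg θ s t) (hx : 0 < x)
    (hz : 0 < z) (hxz : x ^ θ < z) :
    Real.log ((z + x ^ θ) / 2) < (z - 1) / 2 + θ * (x - 1) / 2 +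
      (s * θ * (x - 1 - Real.log x) + t * (z - 1 - Real.log z)) := by
  have hne : x - 1 ≠ 0 ∨ z - 1 ≠ 0 := by
    by_contra hcon
    push Not at hcon
    have e1 : x = 1 := by linarith [hcon.1]
    have e2 : z = 1 := by linarith [hcon.2]
    rw [e1, e2, Real.one_rpow] at hxz
    exact lt_irrefl _ hxz
  have h := pos_of_second (g := cg θ s t x z) (g' := cg' θ s t x z) (g'' := cg'' θ s t x z)
    (fun τ hτ => hasDerivAt_cg θ s t (seg_pos hx hτ.1 hτ.2) (seg_pos hz hτ.1 hτ.2))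
    (fun τ hτ => hasDerivAt_cg' θ s t (seg_pos hx hτ.1 hτ.2) (seg_pos hz hτ.1 hτ.2))
    (cg_zero _ _ _ _ _) (cg'_zero _ _ _ _ _) (fun τ hτ => by
      have hX := seg_pos hx hτ.1.le hτ.2.le
      have hZ := seg_pos hz hτ.1.le hτ.2.le
      have hP : 0 < (1 + τ * (x - 1)) ^ θ := Real.rpow_pos_of_pos hX θ
      have hlt := seg_lt hθ.le hx hxz hτ.1 hτ.2.le
      rw [cg''_eq (by linarith) hX hZ]
      refine Charge_form_pos hθ ht hc (by positivity) (by
        rw [div_lt_div_iff₀ (by positivity) two_pos]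
        linarith) ?_
      rcases hne with hne | hne
      · left
        have : θ ≠ 0 := by linarith
        positivity
      · right
        positivity)
  rw [cg_one] at h
  linarith

end curve

end Pool.Agent.W_bbc525_h89
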