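import Pool.Agent.W_bbc525_h89.Charge

/-!
# The full phase diagram for graphs with sufficient charges
-/

set_option autoImplicit false
set_option linter.unusedSectionVars false

namespace Pool.Agent.W_bbc525_h89

open Finset MeasureTheory Pool.Agent.W_MP_bbc525_pr

variable {V : Type*} [Fintype V] [DecidableEq V] {H : SimpleGraph V} [DecidableRel H.Adj]

/-- the loss of a moment -/
noncomputable def wl (m : ℕ → ℝ) (d : ℕ) : ℝ := (m d - 1 - Real.log (m d)) / d

theorem wl_nonneg {m : ℕ → ℝ} {d : ℕ} (h : 0 < m d) : 0 ≤ wl m d := by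
  unfold wl
  have := Real.log_le_sub_one_of_pos h
  exact div_nonneg (by linarith) (Nat.cast_nonneg d)

theorem eq_one_of_wl {m : ℕ → ℝ} {d : ℕ} (hd : 0 < d) (h : 0 < m d) (hw : wl m d ≤ 0) :
    m d = 1 := by
  by_contra hne
  have h1 := Real.log_lt_sub_one_of_pos h hne
  have hd' : (0 : ℝ) < d := by exact_mod_cast hd
  have h2 : 0 < wl m d := div_pos (by linarith) hd'
  linarith

/-- the charge of an edge -/
noncomputable def chX (H : SimpleGraph V) [DecidableRel H.Adj] (s t : Sym2 V → ℝ) (m : ℕ → ℝ)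
    (e : Sym2 V) : ℝ :=
  if ndeg H e < mdeg H e then s e * wl m (ndeg H e) + t e * wl m (mdeg H e)
  else -wl m (mdeg H e)

theorem edge_term {s t : Sym2 V → ℝ} {m : ℕ → ℝ} (hm : ∀ k, 0 < m k)
    (hj : ∀ b a : ℕ, 0 < b → b ≤ a → m b ^ ((a : ℝ) / b) ≤ m a) (ht : ∀ e, 0 ≤ t e)
    {e : Sym2 V} (he : e ∈ H.edgeFinset)
    (hc : ndeg H e < mdeg H e → Chg ((mdeg H e : ℝ) / ndeg H e) (s e) (t e)) :
    1 / (mdeg H e : ℝ) * Real.log ((m (mdeg H e) +
      m (ndeg H e) ^ ((mdeg H e : ℝ) / ndeg H e)) / 2) ≤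
      (psi m (mdeg H e) + psi m (ndeg H e)) / 2 + chX H s t m e := by
  have ha := mdeg_pos H he
  have hb := ndeg_pos H he
  have ha' : (0 : ℝ) < mdeg H e := by exact_mod_cast ha
  have hb' : (0 : ℝ) < ndeg H e := by exact_mod_cast hb
  unfold chX
  split_ifs with hlt
  · have hθ : 1 < (mdeg H e : ℝ) / ndeg H e := by
      rw [lt_div_iff₀ hb', one_mul]
      exact_mod_cast hlt
    have h := edge_ineq hθ (ht e) (hc hlt) (hm (ndeg H e)) (hm (mdeg H e))
      (hj _ _ hb hlt.le)
    have h2 := mul_le_mul_of_nonneg_left h (one_div_pos.2 ha').le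
    refine h2.trans (le_of_eq ?_)
    unfold psi wl
    field_simp
  · have heq : ndeg H e = mdeg H e := le_antisymm (ndeg_le_mdeg H e) (not_lt.1 hlt)
    rw [heq, div_self ha'.ne', Real.rpow_one, add_self_div_two]
    unfold psi wl
    apply le_of_eq
    field_simp
    ring

theorem edge_term_lt {s t : Sym2 V → ℝ} {m : ℕ → ℝ} (hm : ∀ k, 0 < m k) (ht : ∀ e, 0 ≤ t e)
    {e : Sym2 V} (he : e ∈ H.edgeFinset) (hlt : ndeg H e < mdeg H e)
    (hj : m (ndeg H e) ^ ((mdeg H e : ℝ) / ndeg H e) < m (mdeg H e))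
    (hc : Chg ((mdeg H e : ℝ) / ndeg H e) (s e) (t e)) :
    1 / (mdeg H e : ℝ) * Real.log ((m (mdeg H e) +
      m (ndeg H e) ^ ((mdeg H e : ℝ) / ndeg H e)) / 2) <
      (psi m (mdeg H e) + psi m (ndeg H e)) / 2 + chX H s t m e := by
  have ha := mdeg_pos H he
  have hb := ndeg_pos H he
  have ha' : (0 : ℝ) < mdeg H e := by exact_mod_cast ha
  have hb' : (0 : ℝ) < ndeg H e := by exact_mod_cast hb
  unfold chX
  rw [if_pos hlt]
  have hθ : 1 < (mdeg H e : ℝ) / ndeg H e := by
    rw [lt_div_iff₀ hb', one_mul]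
    exact_mod_cast hlt
  have h := edge_ineq_lt hθ (ht e) hc (hm (ndeg H e)) (hm (mdeg H e)) hj
  have h2 := mul_lt_mul_of_pos_left h (one_div_pos.2 ha')
  refine h2.trans_le (le_of_eq ?_)
  unfold psi wl
  field_simp

/-- the charges are covered -/
def Covered (H : SimpleGraph V) [DecidableRel H.Adj] (s t : Sym2 V → ℝ) : Prop := ∀ d : ℕ,
  ∑ e ∈ H.edgeFinset with (ndeg H e = d ∧ d < mdeg H e), s e +
    ∑ e ∈ H.edgeFinset with (mdeg H e = d ∧ ndeg H e < d), t e ≤
      ((H.edgeFinset.filter fun e => ndeg H e = d ∧ mdeg H e = d).card : ℝ)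

theorem sum_chX_le {s t : Sym2 V → ℝ} (hcov : Covered H s t) {m : ℕ → ℝ} (hm : ∀ k, 0 < m k) :
    ∑ e ∈ H.edgeFinset, chX H s t m e ≤ 0 := by
  have hmaps : ∀ e ∈ H.edgeFinset, mdeg H e ∈ Finset.range (Fintype.card V) := fun e _ => by
    rw [Finset.mem_range]
    obtain ⟨v, hv⟩ := exists_mdeg (H := H) e
    rw [hv]
    exact H.degree_lt_card_verts v
  have hmaps' : ∀ e ∈ H.edgeFinset, ndeg H e ∈ Finset.range (Fintype.card V) := fun e he => by
    rw [Finset.mem_range]
    exact lt_of_le_of_lt (ndeg_le_mdeg H e) (Finset.mem_range.1 (hmaps e he))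
  have e0 : ∑ e ∈ H.edgeFinset, chX H s t m e =
      ∑ e ∈ H.edgeFinset, (if ndeg H e < mdeg H e then s e * wl m (ndeg H e) else 0) +
      ∑ e ∈ H.edgeFinset, (if ndeg H e < mdeg H e then t e * wl m (mdeg H e) else 0) -
      ∑ e ∈ H.edgeFinset, (if ndeg H e < mdeg H e then 0 else wl m (mdeg H e)) := by
    rw [← Finset.sum_add_distrib, ← Finset.sum_sub_distrib]
    refine Finset.sum_congr rfl fun e _ => ?_
    unfold chX
    split_ifs <;> ring
  have e1 : ∑ e ∈ H.edgeFinset, (if ndeg H e < mdeg H e then s e * wl m (ndeg H e) else 0) =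
      ∑ d ∈ Finset.range (Fintype.card V),
        (∑ e ∈ H.edgeFinset with (ndeg H e = d ∧ d < mdeg H e), s e) * wl m d := by
    rw [← Finset.sum_fiberwise_of_maps_to hmaps']
    refine Finset.sum_congr rfl fun d _ => ?_
    rw [Finset.sum_mul, Finset.sum_filter, Finset.sum_filter]
    refine Finset.sum_congr rfl fun e _ => ?_
    by_cases h1 : ndeg H e = d
    · subst h1
      simp
    · simp [h1]
  have e2 : ∑ e ∈ H.edgeFinset, (if ndeg H e < mdeg H e then t e * wl m (mdeg H e) else 0) =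
      ∑ d ∈ Finset.range (Fintype.card V),
        (∑ e ∈ H.edgeFinset with (mdeg H e = d ∧ ndeg H e < d), t e) * wl m d := by
    rw [← Finset.sum_fiberwise_of_maps_to hmaps]
    refine Finset.sum_congr rfl fun d _ => ?_
    rw [Finset.sum_mul, Finset.sum_filter, Finset.sum_filter]
    refine Finset.sum_congr rfl fun e _ => ?_
    by_cases h1 : mdeg H e = d
    · subst h1
      simp
    · simp [h1]
  have e3 : ∑ e ∈ H.edgeFinset, (if ndeg H e < mdeg H e then 0 else wl m (mdeg H e)) =
      ∑ d ∈ Finset.range (Fintype.card V),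
        ((H.edgeFinset.filter fun e => ndeg H e = d ∧ mdeg H e = d).card : ℝ) * wl m d := by
    rw [← Finset.sum_fiberwise_of_maps_to hmaps]
    refine Finset.sum_congr rfl fun d _ => ?_
    rw [← nsmul_eq_mul, ← Finset.sum_const, Finset.sum_filter, Finset.sum_filter]
    refine Finset.sum_congr rfl fun e _ => ?_
    have hle := ndeg_le_mdeg H e
    by_cases h1 : mdeg H e = d
    · subst h1
      by_cases h2 : ndeg H e < mdeg H e
      · simp [h2, h2.ne]
      · have h3 : ndeg H e = mdeg H e := by omega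
        simp [h3]
    · simp [h1]
  rw [e0, e1, e2, e3, ← Finset.sum_add_distrib, ← Finset.sum_sub_distrib]
  refine Finset.sum_nonpos fun d _ => ?_
  rw [← add_mul, ← sub_mul]
  exact mul_nonpos_of_nonpos_of_nonneg (by linarith [hcov d]) (wl_nonneg (hm d))

/-- the logarithm of the functional is at most the linear functional -/
theorem lpsi_le {s t : Sym2 V → ℝ} (ht : ∀ e, 0 ≤ t e)
    (hc : ∀ e ∈ H.edgeFinset, ndeg H e < mdeg H e →
      Chg ((mdeg H e : ℝ) / ndeg H e) (s e) (t e))
    (hcov : Covered H s t) {m : ℕ → ℝ} (hm : ∀ k, 0 < m k)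
    (hj : ∀ b a : ℕ, 0 < b → b ≤ a → m b ^ ((a : ℝ) / b) ≤ m a) :
    lpsi H.edgeFinset (mdeg H) (ndeg H) m ≤
      (∑ e ∈ H.edgeFinset, (psi m (mdeg H e) + psi m (ndeg H e))) / 2 := by
  have h1 : lpsi H.edgeFinset (mdeg H) (ndeg H) m ≤
      ∑ e ∈ H.edgeFinset, ((psi m (mdeg H e) + psi m (ndeg H e)) / 2 + chX H s t m e) :=
    Finset.sum_le_sum fun e he => edge_term hm hj ht he (hc e he)
  rw [Finset.sum_add_distrib, ← Finset.sum_div] at h1
  have h2 := sum_chX_le hcov hm
  linarith

theorem lpsi_lt {s t : Sym2 V → ℝ} (ht : ∀ e, 0 ≤ t e)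
    (hc : ∀ e ∈ H.edgeFinset, ndeg H e < mdeg H e →
      Chg ((mdeg H e : ℝ) / ndeg H e) (s e) (t e))
    (hcov : Covered H s t) {m : ℕ → ℝ} (hm : ∀ k, 0 < m k)
    (hj : ∀ b a : ℕ, 0 < b → b ≤ a → m b ^ ((a : ℝ) / b) ≤ m a)
    {e0 : Sym2 V} (he0 : e0 ∈ H.edgeFinset) (hlt : ndeg H e0 < mdeg H e0)
    (hj0 : m (ndeg H e0) ^ ((mdeg H e0 : ℝ) / ndeg H e0) < m (mdeg H e0)) :
    lpsi H.edgeFinset (mdeg H) (ndeg H) m <
      (∑ e ∈ H.edgeFinset, (psi m (mdeg H e) + psi m (ndeg H e))) / 2 := by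
  have h1 : lpsi H.edgeFinset (mdeg H) (ndeg H) m <
      ∑ e ∈ H.edgeFinset, ((psi m (mdeg H e) + psi m (ndeg H e)) / 2 + chX H s t m e) :=
    Finset.sum_lt_sum (fun e he => edge_term hm hj ht he (hc e he))
      ⟨e0, he0, edge_term_lt hm ht he0 hlt hj0 (hc e0 he0 hlt)⟩
  rw [Finset.sum_add_distrib, ← Finset.sum_div] at h1
  have h2 := sum_chX_le hcov hm
  linarith

/-- without mixed edges, equality forces all moments to be `1` -/
theorem eq_one_of_pure (hpure : ∀ e ∈ H.edgeFinset, ¬ ndeg H e < mdeg H e) {m : ℕ → ℝ}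
    (hm : ∀ k, 0 < m k) (h : (∑ e ∈ H.edgeFinset, (psi m (mdeg H e) + psi m (ndeg H e))) / 2 ≤
      lpsi H.edgeFinset (mdeg H) (ndeg H) m) : ∀ e ∈ H.edgeFinset, m (mdeg H e) = 1 := by
  have h1 : lpsi H.edgeFinset (mdeg H) (ndeg H) m =
      (∑ e ∈ H.edgeFinset, (psi m (mdeg H e) + psi m (ndeg H e))) / 2 -
        ∑ e ∈ H.edgeFinset, wl m (mdeg H e) := by
    rw [Finset.sum_div, ← Finset.sum_sub_distrib]
    refine Finset.sum_congr rfl fun e he => ?_
    have ha' : (0 : ℝ) < mdeg H e := by exact_mod_cast mdeg_pos H he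
    have heq : ndeg H e = mdeg H e := le_antisymm (ndeg_le_mdeg H e) (not_lt.1 (hpure e he))
    rw [heq, div_self ha'.ne', Real.rpow_one, add_self_div_two]
    unfold psi wl
    field_simp
    ring
  intro e he
  have h2 : ∑ e ∈ H.edgeFinset, wl m (mdeg H e) ≤ 0 := by linarith
  have h3 : wl m (mdeg H e) ≤ ∑ e ∈ H.edgeFinset, wl m (mdeg H e) :=
    Finset.single_le_sum (f := fun e => wl m (mdeg H e)) (fun e _ => wl_nonneg (hm _)) he
  exact eq_one_of_wl (mdeg_pos H he) (hm _) (h3.trans h2)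

section graphon

/-- scaling of the functional -/
theorem Psi_scale {M : ℕ → ℝ} (hM : ∀ k, 0 ≤ M k) {q : ℝ} (hq : 0 < q) :
    Psi H (fun k => M k / q ^ k) = Psi H M / q ^ H.edgeFinset.card := by
  unfold Psi
  rw [← Finset.prod_const, ← Finset.prod_div_distrib]
  refine Finset.prod_congr rfl fun e he => ?_
  have ha : (0 : ℝ) < mdeg H e := by exact_mod_cast mdeg_pos H he
  have hb : (0 : ℝ) < ndeg H e := by exact_mod_cast ndeg_pos H he
  have h1 : (M (ndeg H e) / q ^ ndeg H e) ^ ((mdeg H e : ℝ) / ndeg H e) =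
      M (ndeg H e) ^ ((mdeg H e : ℝ) / ndeg H e) / q ^ mdeg H e := by
    rw [Real.div_rpow (hM _) (by positivity), ← Real.rpow_natCast q (ndeg H e),
      ← Real.rpow_mul hq.le, mul_div_cancel₀ _ hb.ne', Real.rpow_natCast]
  have h2 : (M (mdeg H e) / q ^ mdeg H e +
      M (ndeg H e) ^ ((mdeg H e : ℝ) / ndeg H e) / q ^ mdeg H e) / 2 =
      ((M (mdeg H e) + M (ndeg H e) ^ ((mdeg H e : ℝ) / ndeg H e)) / 2) / q ^ mdeg H e := by
    ring
  have h3 : (q ^ mdeg H e) ^ (1 / (mdeg H e : ℝ)) = q := by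
    rw [← Real.rpow_natCast q (mdeg H e), ← Real.rpow_mul hq.le, mul_one_div_cancel ha.ne',
      Real.rpow_one]
  have h4 := Real.rpow_nonneg (hM (ndeg H e)) ((mdeg H e : ℝ) / ndeg H e)
  rw [h1, h2, Real.div_rpow (by linarith [hM (mdeg H e)]) (by positivity), h3]

/-- if a moment vanishes then all do -/
theorem mom_eq_zero (W : Graphon) {k l : ℕ} (hl : 0 < l) (h : W.mom k = 0) :
    W.mom l = 0 := by
  have hk : k ≠ 0 := by
    rintro rfl
    simp [Graphon.mom] at h
  have h1 := (integral_eq_zero_iff_of_nonneg (μ := (volume : Measure (unitInterval × unitInterval)))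
    (f := fun z : unitInterval × unitInterval => W.W z.1 z.2 ^ k)
    (fun z => pow_nonneg (W.nonneg _ _) k) (W.integrable_pow k)).1 h
  unfold Graphon.mom
  rw [← integral_zero (unitInterval × unitInterval) ℝ]
  apply integral_congr_ae
  filter_upwards [h1] with z hz
  simp only [Pi.zero_apply] at hz
  rw [pow_eq_zero_iff hk] at hz
  rw [hz, zero_pow hl.ne']

theorem mom_pos (W : Graphon) (hE : 0 < H.edgeFinset.card) (h : 0 < Psi H W.mom) (k : ℕ) :
    0 < W.mom k := by
  refine lt_of_le_of_ne (W.mom_nonneg k) fun hcon => ?_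
  obtain ⟨e, he⟩ := Finset.card_pos.1 hE
  have h1 := (Finset.prod_ne_zero_iff.1 h.ne') e he
  apply h1
  rw [mom_eq_zero W (mdeg_pos H he) hcon.symm, mom_eq_zero W (ndeg_pos H he) hcon.symm]
  have ha : (0 : ℝ) < mdeg H e := by exact_mod_cast mdeg_pos H he
  have hb : (0 : ℝ) < ndeg H e := by exact_mod_cast ndeg_pos H he
  rw [Real.zero_rpow (by positivity), add_zero, zero_div, Real.zero_rpow (by positivity)]

/-- Jensen's inequality -/
theorem mom_jensen (W : Graphon) {b a : ℕ} (hb : 0 < b) (hba : b ≤ a) :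
    W.mom b ^ ((a : ℝ) / b) ≤ W.mom a := by
  have hb' : (0 : ℝ) < b := by exact_mod_cast hb
  have hp : (1 : ℝ) ≤ (a : ℝ) / b := one_le_div hb hba
  have h := (convexOn_rpow hp).map_integral_le (μ := (volume : Measure (unitInterval × unitInterval)))
    (f := fun z : unitInterval × unitInterval => W.W z.1 z.2 ^ b)
    (Real.continuous_rpow_const (by linarith)).continuousOn isClosed_Ici
    (Filter.Eventually.of_forall fun z => pow_nonneg (W.nonneg _ _) b) (W.integrable_pow b) (by
      have : ((fun x : ℝ => x ^ ((a : ℝ) / b)) ∘ fun z : unitInterval × unitInterval =>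
          W.W z.1 z.2 ^ b) = fun z : unitInterval × unitInterval => W.W z.1 z.2 ^ a := by
        funext z
        simp only [Function.comp]
        rw [← Real.rpow_natCast (W.W z.1 z.2) b, ← Real.rpow_mul (W.nonneg _ _),
          mul_div_cancel₀ _ hb'.ne', Real.rpow_natCast]
      rw [this]
      exact W.integrable_pow a)
  refine h.trans (le_of_eq ?_)
  unfold Graphon.mom
  refine integral_congr_ae (Filter.Eventually.of_forall fun z => ?_)
  simp only
  rw [← Real.rpow_natCast (W.W z.1 z.2) b, ← Real.rpow_mul (W.nonneg _ _),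
    mul_div_cancel₀ _ hb'.ne', Real.rpow_natCast]

/-- the average of the vertex condition -/
theorem Ncond.cost_ge {p q : ℝ} (hp : 0 < p) (hp1 : p < 1) (h : Ncond H p q) (W : Graphon) :
    (q * (logit q - logit p) / (2 * H.edgeFinset.card)) *
      ∑ v, (W.mom (H.degree v) / q ^ H.degree v - 1) ≤ cost p W - relEnt p q := by
  have ie : ∀ v ∈ (Finset.univ : Finset V), Integrable (fun z : unitInterval × unitInterval =>
      (W.W z.1 z.2 / q) ^ H.degree v - 1) := by
    intro v _
    have : (fun z : unitInterval × unitInterval => (W.W z.1 z.2 / q) ^ H.degree v - 1) =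
        fun z : unitInterval × unitInterval =>
          W.W z.1 z.2 ^ H.degree v * (1 / q ^ H.degree v) + (-1) := by
      ext z
      rw [div_pow]
      ring
    rw [this]
    exact ((W.integrable_pow _).mul_const _).add (integrable_const _)
  have is : Integrable (fun z : unitInterval × unitInterval =>
      (q * (logit q - logit p) / (2 * H.edgeFinset.card)) *
        ∑ v, ((W.W z.1 z.2 / q) ^ H.degree v - 1)) :=
    (integrable_finsetSum _ ie).const_mul _
  have h1 : ∫ z : unitInterval × unitInterval,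
      (q * (logit q - logit p) / (2 * H.edgeFinset.card)) *
        ∑ v, ((W.W z.1 z.2 / q) ^ H.degree v - 1) ≤
      ∫ z : unitInterval × unitInterval, (relEnt p (W.W z.1 z.2) - relEnt p q) := by
    apply integral_mono is ((integrable_relEnt hp hp1 W).sub (integrable_const _))
    intro z
    exact h _ (W.nonneg _ _) (W.le_one _ _)
  rw [integral_sub (integrable_relEnt hp hp1 W) (integrable_const _), integral_const_mul,
    integral_finsetSum _ ie] at h1
  simp only [integral_const, probReal_univ, smul_eq_mul, one_mul] at h1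
  have h2 : ∀ v ∈ (Finset.univ : Finset V), ∫ z : unitInterval × unitInterval,
      ((W.W z.1 z.2 / q) ^ H.degree v - 1) = W.mom (H.degree v) / q ^ H.degree v - 1 := by
    intro v _
    have : (fun z : unitInterval × unitInterval => (W.W z.1 z.2 / q) ^ H.degree v - 1) =
        fun z : unitInterval × unitInterval =>
          W.W z.1 z.2 ^ H.degree v * (1 / q ^ H.degree v) + (-1) := by
      ext z
      rw [div_pow]
      ring
    rw [this, integral_add ((W.integrable_pow _).mul_const _) (integrable_const _),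
      integral_mul_const]
    simp only [integral_const, probReal_univ, smul_eq_mul, one_mul]
    have e1 : ∫ z : unitInterval × unitInterval, W.W z.1 z.2 ^ H.degree v =
      W.mom (H.degree v) := rfl
    rw [e1]
    ring
  rw [Finset.sum_congr rfl h2] at h1
  exact h1

variable {s t : Sym2 V → ℝ}

/-- what feasibility gives for the normalized moments -/
theorem feasible_ineq (hE : 0 < H.edgeFinset.card) (hT : Two H) (ht : ∀ e, 0 ≤ t e)
    (hc : ∀ e ∈ H.edgeFinset, ndeg H e < mdeg H e →
      Chg ((mdeg H e : ℝ) / ndeg H e) (s e) (t e))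
    (hcov : Covered H s t) {q : ℝ} (hq : 0 < q) (W : Graphon)
    (hW : q ^ H.edgeFinset.card ≤ homDensity H W) :
    (∀ k, 0 < W.mom k / q ^ k) ∧
    (∀ b a : ℕ, 0 < b → b ≤ a → (W.mom b / q ^ b) ^ ((a : ℝ) / b) ≤ W.mom a / q ^ a) ∧
    0 ≤ lpsi H.edgeFinset (mdeg H) (ndeg H) (fun k => W.mom k / q ^ k) ∧
    lpsi H.edgeFinset (mdeg H) (ndeg H) (fun k => W.mom k / q ^ k) ≤
      (∑ v, (W.mom (H.degree v) / q ^ H.degree v - 1)) / 2 := by
  have h1 : q ^ H.edgeFinset.card ≤ Psi H W.mom := hW.trans (homDensity_le_Psi H hT W)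
  have h2 : 0 < Psi H W.mom := lt_of_lt_of_le (pow_pos hq _) h1
  have hpos : ∀ k, 0 < W.mom k / q ^ k := fun k => div_pos (mom_pos W hE h2 k) (pow_pos hq k)
  have hj : ∀ b a : ℕ, 0 < b → b ≤ a →
      (W.mom b / q ^ b) ^ ((a : ℝ) / b) ≤ W.mom a / q ^ a := by
    intro b a hb hba
    have hb' : (0 : ℝ) < b := by exact_mod_cast hb
    have h3 : (W.mom b / q ^ b) ^ ((a : ℝ) / b) = W.mom b ^ ((a : ℝ) / b) / q ^ a := by
      rw [Real.div_rpow (W.mom_nonneg _) (by positivity), ← Real.rpow_natCast q b,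
        ← Real.rpow_mul hq.le, mul_div_cancel₀ _ hb'.ne', Real.rpow_natCast]
    rw [h3]
    exact div_le_div_of_nonneg_right (mom_jensen W hb hba) (by positivity)
  refine ⟨hpos, hj, ?_, ?_⟩
  · rw [← log_Psi H (M := fun k => W.mom k / q ^ k) hpos, Psi_scale W.mom_nonneg hq]
    apply Real.log_nonneg
    rw [le_div_iff₀ (by positivity), one_mul]
    exact h1
  · have h3 := lpsi_le ht hc hcov hpos hj
    rw [sum_psi (H := H) (m := fun k => W.mom k / q ^ k) (by simp [Graphon.mom])] at h3
    exact h3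

theorem full_unique_self (H : SimpleGraph V) [DecidableRel H.Adj] {p : ℝ} (hp : 0 < p)
    (hp1 : p < 1) : UniqueMinimizer H p p := by
  intro W _ hc
  rw [relEnt_self hp hp1] at hc
  have h0 : cost p W = 0 := le_antisymm hc (cost_nonneg hp hp1 W)
  have h1 := (integral_eq_zero_iff_of_nonneg (μ := (volume : Measure (unitInterval × unitInterval)))
    (f := fun z : unitInterval × unitInterval => relEnt p (W.W z.1 z.2))
    (fun z => relEnt_nonneg hp hp1 (W.nonneg _ _) (W.le_one _ _))
    (integrable_relEnt hp hp1 W)).1 h0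
  filter_upwards [h1] with z hz
  simp only [Pi.zero_apply] at hz
  have h2 := relEnt_ge hp hp1 (W.nonneg z.1 z.2) (W.le_one z.1 z.2)
  rw [hz] at h2
  by_contra hcon
  have : 0 < (W.W z.1 z.2 - p) ^ 2 := by
    have := sub_ne_zero.2 hcon
    positivity
  have := mul_pos (kq_pos hp hp1) this
  linarith

/-- **Sufficiency of the vertex condition.** -/
theorem full_suff (hE : 0 < H.edgeFinset.card) (hT : Two H) (ht : ∀ e, 0 ≤ t e)
    (hc : ∀ e ∈ H.edgeFinset, ndeg H e < mdeg H e →
      Chg ((mdeg H e : ℝ) / ndeg H e) (s e) (t e))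
    (hcov : Covered H s t) {p q : ℝ} (hp : 0 < p) (hpq : p ≤ q) (hq1 : q < 1)
    (hN : Ncond H p q) : ReplicaSymmetric H p q := by
  have hq : 0 < q := lt_of_lt_of_le hp hpq
  have hp1 : p < 1 := lt_of_le_of_lt hpq hq1
  have hE' : (0:ℝ) < H.edgeFinset.card := by exact_mod_cast hE
  rw [replicaSymmetric_iff H hp hpq hq1]
  intro W hW
  obtain ⟨-, -, h1, h2⟩ := feasible_ineq hE hT ht hc hcov hq W hW
  have h3 := Ncond.cost_ge hp hp1 hN W
  have h4 := logit_mono hp hpq hq1
  have h5 : 0 ≤ (q * (logit q - logit p) / (2 * H.edgeFinset.card)) *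
      ∑ v, (W.mom (H.degree v) / q ^ H.degree v - 1) :=
    mul_nonneg (by positivity) (by linarith)
  linarith

/-- **Uniqueness.** -/
theorem full_unique (hE : 0 < H.edgeFinset.card) (hT : Two H) (ht : ∀ e, 0 ≤ t e)
    (hc : ∀ e ∈ H.edgeFinset, ndeg H e < mdeg H e →
      Chg ((mdeg H e : ℝ) / ndeg H e) (s e) (t e))
    (hcov : Covered H s t) (hD : TwoDeg H) {p q : ℝ} (hp : 0 < p) (hpq : p ≤ q) (hq1 : q < 1)
    (hN : Ncond H p q) : UniqueMinimizer H p q := by
  rcases hpq.eq_or_lt with rfl | hlt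
  · exact full_unique_self H hp hq1
  have hq : 0 < q := lt_of_lt_of_le hp hpq
  have hp1 : p < 1 := lt_of_le_of_lt hpq hq1
  have hE' : (0:ℝ) < H.edgeFinset.card := by exact_mod_cast hE
  intro W hW hcost
  obtain ⟨hpos, hj, h1, h2⟩ := feasible_ineq hE hT ht hc hcov hq W hW
  have h3 := Ncond.cost_ge hp hp1 hN W
  have h4 := logit_strictMono hp hlt hq1
  have h5 : ∑ v, (W.mom (H.degree v) / q ^ H.degree v - 1) ≤ 0 := by
    by_contra hcon
    push Not at hcon
    have : 0 < (q * (logit q - logit p) / (2 * H.edgeFinset.card)) *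
      ∑ v, (W.mom (H.degree v) / q ^ H.degree v - 1) := mul_pos (by positivity) hcon
    linarith
  have hsum := sum_psi (H := H) (m := fun k => W.mom k / q ^ k) (by simp [Graphon.mom])
  by_cases hmix : ∃ e ∈ H.edgeFinset, ndeg H e < mdeg H e
  · obtain ⟨e0, he0, hlt0⟩ := hmix
    have hb := ndeg_pos H he0
    have hb' : (0 : ℝ) < ndeg H e0 := by exact_mod_cast hb
    rcases (hj _ _ hb hlt0.le).lt_or_eq with hj0 | hj0
    · exfalso
      have h6 := lpsi_lt ht hc hcov hpos hj he0 hlt0 hj0
      rw [hsum] at h6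
      linarith
    · -- `W` is constant
      set x : ℝ := W.mom (ndeg H e0) / q ^ ndeg H e0 with hx
      have hx0 : 0 < x := hpos _
      set c : ℝ := x ^ (1 / (ndeg H e0 : ℝ)) with hcdef
      have hc0 : 0 < c := Real.rpow_pos_of_pos hx0 _
      have hcb : c ^ ndeg H e0 = x := by
        rw [hcdef, ← Real.rpow_natCast, ← Real.rpow_mul hx0.le, one_div_mul_cancel hb'.ne',
          Real.rpow_one]
      have hca : c ^ mdeg H e0 = x ^ ((mdeg H e0 : ℝ) / ndeg H e0) := by
        rw [hcdef, ← Real.rpow_natCast, ← Real.rpow_mul hx0.le]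
        congr 1
        ring
      have m1 : W.mom (ndeg H e0) = (c * q) ^ ndeg H e0 := by
        rw [mul_pow, hcb, hx, div_mul_cancel₀ _ (by positivity)]
      have m2 : W.mom (mdeg H e0) = (c * q) ^ mdeg H e0 := by
        rw [mul_pow, hca, hj0, div_mul_cancel₀ _ (by positivity)]
      have hae := ae_eq_of_two_moments W (mul_pos hc0 hq) hb hlt0 m1 m2
      have hmom : ∀ k, W.mom k = (c * q) ^ k := by
        intro k
        unfold Graphon.mom
        rw [integral_congr_ae (g := fun _ => (c * q) ^ k) (by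
          filter_upwards [hae] with z hz
          rw [hz])]
        simp
      have hmk : (fun k => W.mom k / q ^ k) = fun k => c ^ k := by
        funext k
        rw [hmom, mul_pow, mul_div_assoc, div_self (by positivity), mul_one]
      -- `c ≥ 1`
      have hc1 : 1 ≤ c := by
        rw [← log_Psi H (M := fun k => W.mom k / q ^ k) hpos, hmk, Psi_pow H hc0.le] at h1
        have h7 : 1 ≤ c ^ H.edgeFinset.card := by
          by_contra hcon
          push Not at hcon
          have := Real.log_neg (by positivity) hcon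
          linarith
        by_contra hcon
        push Not at hcon
        have := pow_lt_one₀ hc0.le hcon hE.ne'
        linarith
      have hc2 : c ≤ 1 := by
        by_contra hcon
        push Not at hcon
        obtain ⟨u, v, hu, hv, huv⟩ := hD
        have h6 : 0 < ∑ v, (W.mom (H.degree v) / q ^ H.degree v - 1) := by
          apply Finset.sum_pos'
          · intro v _
            have h8 : W.mom (H.degree v) / q ^ H.degree v = c ^ H.degree v :=
              congrFun hmk (H.degree v)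
            rw [h8]
            have := one_le_pow₀ (n := H.degree v) hcon.le
            linarith
          · refine ⟨u, Finset.mem_univ u, ?_⟩
            have h8 : W.mom (H.degree u) / q ^ H.degree u = c ^ H.degree u :=
              congrFun hmk (H.degree u)
            rw [h8]
            have := one_lt_pow₀ hcon hu.ne'
            linarith
        linarith
      have hc3 : c = 1 := le_antisymm hc2 hc1
      rw [hc3, one_mul] at hae
      exact hae
  · push Not at hmix
    have hpure : ∀ e ∈ H.edgeFinset, ¬ ndeg H e < mdeg H e := fun e he => not_lt.2 (hmix e he)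
    have h6 := eq_one_of_pure hpure hpos (by rw [hsum]; linarith)
    have h7 : ∀ v, 0 < H.degree v → W.mom (H.degree v) = q ^ H.degree v := by
      intro v hv
      obtain ⟨e, he, hve⟩ := exists_edge hv
      have e1 := ndeg_le_degree (H := H) hve
      have e2 := degree_le_mdeg H hve
      have e3 := hmix e he
      have e4 : mdeg H e = H.degree v := by omega
      have e5 := h6 e he
      rw [e4] at e5
      rwa [div_eq_one_iff_eq (by positivity)] at e5
    obtain ⟨u, v, hu, hv, huv⟩ := hD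
    rcases lt_or_gt_of_ne huv with hlt' | hlt'
    · exact ae_eq_of_two_moments W hq hu hlt' (h7 u hu) (h7 v hv)
    · exact ae_eq_of_two_moments W hq hv hlt' (h7 v hv) (h7 u hu)

end graphon

end Pool.Agent.W_bbc525_h89
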