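import Pool.Agent.W_bbc525_h89.Full
import Pool.Agent.W_MP_bbc525_pr.Closed

/-!
# The complete upper tail replica symmetry phase diagram for graphs with covered mixed edges
-/

namespace Pool.Agent.W_bbc525_h89.FullDiagramRes

open MeasureTheory Pool.Agent.W_MP_bbc525_pr Pool.Agent.W_bbc525_h89

/-- **Main theorem.** Let `H` be a finite simple graph with at least one edge, in which the degrees
of adjacent vertices differ at most by a factor `2`.  For an edge `e` let `ndeg H e ≤ mdeg H e` be
the smaller and the larger degree of its endpoints.  Suppose that the edges carry charges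
`s e` and `t e ≥ 0` such that every edge `e` with `b = ndeg H e < a = mdeg H e` has
`a - b ≤ 2 b s e` or `(a - b) ^ 2 (1 + t e) ≤ 4 a b (s e) (t e)`, and such that for every `d` the
sum of `s e` over the edges with `d = ndeg H e < mdeg H e` plus the sum of `t e` over the edges with
`ndeg H e < mdeg H e = d` is at most the number of edges with both endpoints of degree `d`.
(For example: `t = 0`, `s e = (a - b) / (2 b)`; then the condition is
`∑_{d = ndeg H e < mdeg H e} (mdeg H e - d) ≤ 2 d #{e : ndeg H e = mdeg H e = d}` for all `d`.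
If adjacent vertices have equal degrees there is no condition.)

Then for all `0 < p ≤ q < 1` the constant `q` is a minimizer of the upper tail variational problem
`UT_p(H, q)` if and only if
`I_p(r) - I_p(q) ≥ (q I_p'(q) / (2 e(H))) ∑_v ((r/q)^{deg v} - 1)` for all `r ∈ [0, 1]`;
and in this case it is the unique minimizer, if `H` has two different positive degrees. -/
theorem result {V : Type*} [Fintype V] [DecidableEq V] (H : SimpleGraph V) [DecidableRel H.Adj]
    (hedge : 0 < H.edgeFinset.card)
    (hadj : ∀ u v, H.Adj u v → H.degree v ≤ 2 * H.degree u)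
    (s t : Sym2 V → ℝ) (ht : ∀ e, 0 ≤ t e)
    (hst : ∀ e ∈ H.edgeFinset, ndeg H e < mdeg H e →
      (mdeg H e : ℝ) - ndeg H e ≤ 2 * ndeg H e * s e ∨
      ((mdeg H e : ℝ) - ndeg H e) ^ 2 * (1 + t e) ≤ 4 * mdeg H e * ndeg H e * s e * t e)
    (hcov : ∀ d : ℕ, ∑ e ∈ H.edgeFinset with (ndeg H e = d ∧ d < mdeg H e), s e +
      ∑ e ∈ H.edgeFinset with (mdeg H e = d ∧ ndeg H e < d), t e ≤
        ((H.edgeFinset.filter fun e => ndeg H e = d ∧ mdeg H e = d).card : ℝ))
    {p q : ℝ} (hp : 0 < p) (hpq : p ≤ q) (hq : q < 1) :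
    (ReplicaSymmetric H p q ↔
      ∀ r : ℝ, 0 ≤ r → r ≤ 1 →
        (q * (Real.log (q / (1 - q)) - Real.log (p / (1 - p))) / (2 * H.edgeFinset.card)) *
          ∑ v, ((r / q) ^ H.degree v - 1) ≤ relEnt p r - relEnt p q) ∧
    ((∃ u v, 0 < H.degree u ∧ 0 < H.degree v ∧ H.degree u ≠ H.degree v) →
      ReplicaSymmetric H p q → UniqueMinimizer H p q) := by
  have hp1 : p < 1 := lt_of_le_of_lt hpq hq
  have hq0 : 0 < q := lt_of_lt_of_le hp hpq
  have hTwo : Two H := fun i j hij => hadj j i hij.symm
  have hc : ∀ e ∈ H.edgeFinset, ndeg H e < mdeg H e →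
      Chg ((mdeg H e : ℝ) / ndeg H e) (s e) (t e) := by
    intro e he hlt
    have hb : (0 : ℝ) < ndeg H e := by exact_mod_cast ndeg_pos H he
    have ha : (0 : ℝ) < mdeg H e := by exact_mod_cast mdeg_pos H he
    rcases hst e he hlt with h | h
    · left
      rw [div_sub_one hb.ne', div_le_iff₀ hb]
      linarith
    · right
      rw [div_sub_one hb.ne', div_pow, div_mul_eq_mul_div, div_le_iff₀ (by positivity)]
      refine h.trans (le_of_eq ?_)
      field_simp
  have nec : ReplicaSymmetric H p q → Ncond H p q := fun h r hr hr1 =>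
    necessary H hedge hp hpq hq h r hr hr1
  refine ⟨⟨fun h r hr hr1 => ?_, fun h => ?_⟩, fun hD h => ?_⟩
  · have h3 := nec h r hr hr1
    rw [logit_eq hq0 hq, logit_eq hp hp1]
    exact h3
  · refine full_suff hedge hTwo ht hc hcov hp hpq hq fun r hr hr1 => ?_
    have h3 := h r hr hr1
    rw [logit_eq hq0 hq, logit_eq hp hp1] at h3
    exact h3
  · exact full_unique hedge hTwo ht hc hcov hD hp hpq hq (nec h)

end Pool.Agent.W_bbc525_h89.FullDiagramRes
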