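import Mathlib

/-!
# The pointwise inequality behind the bound of the mixed norm

For `r ≥ 2`, `u, v ≥ 0`:
`((u + v - 1)₊)^r ≤ u^r + v^r - 1 + (r/(r-1)) (u^{r-1} - 1)(v^{r-1} - 1)`.
-/

set_option autoImplicit false

namespace Pool.Agent.W_bbc525_h89

open Set

/-- the difference of the two sides without the positive part -/
noncomputable def Key_F (r u v : ℝ) : ℝ :=
  u ^ r + v ^ r - 1 + (r / (r - 1)) * (u ^ (r - 1) - 1) * (v ^ (r - 1) - 1)

theorem Key_F_one (r u : ℝ) : Key_F r u 1 = u ^ r := by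
  simp [Key_F]

theorem Key_convex {m x y t : ℝ} (hm : 1 ≤ m) (hx : 0 ≤ x) (hy : 0 ≤ y) (ht : 0 ≤ t)
    (ht1 : t ≤ 1) : (t * x + (1 - t) * y) ^ m ≤ t * x ^ m + (1 - t) * y ^ m := by
  have h := (convexOn_rpow hm).2 (x := x) (y := y) hx hy ht (by linarith : 0 ≤ 1 - t)
    (by ring : t + (1 - t) = 1)
  simpa [smul_eq_mul] using h

/-- for `v ≥ 1` -/
theorem Key_ge {m u v : ℝ} (hm : 1 ≤ m) (hu : 0 ≤ u) (hv : 1 ≤ v) :
    (u + v - 1) ^ m ≤ v ^ (m - 1) * (v - 1 + u ^ m) := by
  have hv0 : 0 < v := by linarith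
  have h := Key_convex (t := 1 / v) hm hu zero_le_one (by positivity)
    (by rw [div_le_one hv0]; exact hv)
  rw [Real.one_rpow] at h
  have e1 : 1 / v * u + (1 - 1 / v) * 1 = (u + v - 1) / v := by
    field_simp
    ring
  rw [e1, Real.div_rpow (by linarith) hv0.le, div_le_iff₀ (Real.rpow_pos_of_pos hv0 _)] at h
  refine h.trans (le_of_eq ?_)
  rw [Real.rpow_sub_one hv0.ne']
  field_simp
  ring

/-- for `v ≤ 1` and `u + v ≥ 1` -/
theorem Key_le {m u v : ℝ} (hm : 1 ≤ m) (hv0 : 0 < v) (hv : v ≤ 1) (huv : 1 ≤ u + v) :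
    v ^ (m - 1) * (v - 1 + u ^ m) ≤ (u + v - 1) ^ m := by
  have h := Key_convex (m := m) (x := (u + v - 1) / v) (y := 1) (t := v) hm
    (div_nonneg (by linarith) hv0.le) zero_le_one hv0.le hv
  rw [Real.one_rpow] at h
  have e1 : v * ((u + v - 1) / v) + (1 - v) * 1 = u := by
    field_simp
    ring
  rw [e1, Real.div_rpow (by linarith) hv0.le] at h
  have h1 : v - 1 + u ^ m ≤ v * ((u + v - 1) ^ m / v ^ m) := by linarith
  have hv1 : 0 < v ^ (m - 1) := Real.rpow_pos_of_pos hv0 _
  refine (mul_le_mul_of_nonneg_left h1 hv1.le).trans (le_of_eq ?_)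
  rw [Real.rpow_sub_one hv0.ne']
  have hv2 : 0 < v ^ m := Real.rpow_pos_of_pos hv0 _
  field_simp

theorem Key_deriv {r u w : ℝ} (hr : 2 ≤ r) (hw : 0 < w) :
    HasDerivAt (fun w => Key_F r u w)
      (r * (w ^ (r - 2) * (w - 1 + u ^ (r - 1)))) w := by
  have h1 : HasDerivAt (fun w : ℝ => w ^ r) (r * w ^ (r - 1)) w :=
    Real.hasDerivAt_rpow_const (Or.inl hw.ne')
  have h2 : HasDerivAt (fun w : ℝ => w ^ (r - 1)) ((r - 1) * w ^ (r - 1 - 1)) w :=
    Real.hasDerivAt_rpow_const (Or.inl hw.ne')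
  have h3 := (((h1.const_add (u ^ r)).sub_const 1).add
    ((h2.sub_const 1).const_mul ((r / (r - 1)) * (u ^ (r - 1) - 1))))
  have e1 : r * w ^ (r - 1) + (r / (r - 1)) * (u ^ (r - 1) - 1) * ((r - 1) * w ^ (r - 1 - 1)) =
      r * (w ^ (r - 2) * (w - 1 + u ^ (r - 1))) := by
    have e2 : w ^ (r - 1) = w ^ (r - 2) * w := by
      rw [← Real.rpow_add_one hw.ne']
      congr 1
      ring
    have e3 : r - 1 - 1 = r - 2 := by ring
    have e4 : (r - 1) ≠ 0 := by linarith
    rw [e2, e3]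
    field_simp
    ring
  rw [e1] at h3
  exact h3

theorem Key_cont {r u : ℝ} (hr : 2 ≤ r) : Continuous (fun w => Key_F r u w) := by
  unfold Key_F
  have h1 : Continuous (fun w : ℝ => w ^ r) :=
    Real.continuous_rpow_const (by linarith)
  have h2 : Continuous (fun w : ℝ => w ^ (r - 1)) :=
    Real.continuous_rpow_const (by linarith)
  fun_prop

/-- derivative of the difference of the two sides, where `u + w ≥ 1` -/
theorem Key_deriv2 {r u w : ℝ} (hr : 2 ≤ r) (hw : 0 < w) :
    HasDerivAt (fun w => Key_F r u w - (u + w - 1) ^ r)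
      (r * (w ^ (r - 2) * (w - 1 + u ^ (r - 1)) - (u + w - 1) ^ (r - 1))) w := by
  have h1 := Key_deriv (u := u) hr hw
  have h2 : HasDerivAt (fun w : ℝ => u + w - 1) 1 w := ((hasDerivAt_id w).const_add u).sub_const 1
  have h3 := h2.rpow_const (p := r) (Or.inr (by linarith))
  have h4 := h1.sub h3
  refine h4.congr_deriv ?_
  ring

theorem Key_cont2 {r u : ℝ} (hr : 2 ≤ r) :
    Continuous (fun w => Key_F r u w - (u + w - 1) ^ r) := by
  have h1 := Key_cont (u := u) hr
  have h2 : Continuous (fun w : ℝ => (u + w - 1) ^ r) := by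
    refine Continuous.rpow_const (by fun_prop) fun _ => Or.inr (by linarith)
  exact h1.sub h2

/-- the case `u + v ≥ 1` -/
theorem Key_case1 {r u v : ℝ} (hr : 2 ≤ r) (hu : 0 ≤ u) (hv : 0 ≤ v) (huv : 1 ≤ u + v) :
    (u + v - 1) ^ r ≤ Key_F r u v := by
  have h1 : Key_F r u 1 - (u + 1 - 1) ^ r = 0 := by
    rw [Key_F_one]
    ring_nf
  rcases le_total 1 v with h | h
  · -- monotone on `[1, v]`
    have hm : MonotoneOn (fun w => Key_F r u w - (u + w - 1) ^ r) (Icc 1 v) := by
      apply monotoneOn_of_deriv_nonneg (convex_Icc _ _) (Key_cont2 hr).continuousOn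
      · intro w hw
        rw [interior_Icc] at hw
        exact (Key_deriv2 hr (by linarith [hw.1])).differentiableAt.differentiableWithinAt
      · intro w hw
        rw [interior_Icc] at hw
        rw [(Key_deriv2 hr (by linarith [hw.1])).deriv]
        have h2 := Key_ge (m := r - 1) (u := u) (v := w) (by linarith) hu hw.1.le
        have e : r - 1 - 1 = r - 2 := by ring
        rw [e] at h2
        have : 0 ≤ w ^ (r - 2) * (w - 1 + u ^ (r - 1)) - (u + w - 1) ^ (r - 1) := by linarith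
        exact mul_nonneg (by linarith) this
    have h3 := hm (left_mem_Icc.2 h) (right_mem_Icc.2 h) h
    simp only [h1] at h3
    linarith
  · have hm : AntitoneOn (fun w => Key_F r u w - (u + w - 1) ^ r) (Icc v 1) := by
      apply antitoneOn_of_deriv_nonpos (convex_Icc _ _) (Key_cont2 hr).continuousOn
      · intro w hw
        rw [interior_Icc] at hw
        exact (Key_deriv2 hr (by linarith [hw.1])).differentiableAt.differentiableWithinAt
      · intro w hw
        rw [interior_Icc] at hw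
        rw [(Key_deriv2 hr (by linarith [hw.1])).deriv]
        have h2 := Key_le (m := r - 1) (u := u) (v := w) (by linarith) (by linarith [hw.1])
          hw.2.le (by linarith [hw.1])
        have e : r - 1 - 1 = r - 2 := by ring
        rw [e] at h2
        have : w ^ (r - 2) * (w - 1 + u ^ (r - 1)) - (u + w - 1) ^ (r - 1) ≤ 0 := by linarith
        exact mul_nonpos_of_nonneg_of_nonpos (by linarith) this
    have h3 := hm (left_mem_Icc.2 h) (right_mem_Icc.2 h) h
    simp only [h1] at h3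
    linarith

/-- the case `u + v ≤ 1` -/
theorem Key_case2 {r u v : ℝ} (hr : 2 ≤ r) (hu : 0 ≤ u) (hv : 0 ≤ v) (huv : u + v ≤ 1) :
    0 ≤ Key_F r u v := by
  have hm : AntitoneOn (fun w => Key_F r u w) (Icc v (1 - u)) := by
    apply antitoneOn_of_deriv_nonpos (convex_Icc _ _) (Key_cont hr).continuousOn
    · intro w hw
      rw [interior_Icc] at hw
      exact (Key_deriv hr (by linarith [hw.1])).differentiableAt.differentiableWithinAt
    · intro w hw
      rw [interior_Icc] at hw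
      rw [(Key_deriv hr (by linarith [hw.1])).deriv]
      have hw0 : 0 < w := by linarith [hw.1]
      have h2 : u ^ (r - 1) ≤ u := by
        have h3 := Real.rpow_le_rpow_of_exponent_ge' hu (by linarith) (by norm_num : (0:ℝ) ≤ 1)
          (by linarith : 1 ≤ r - 1)
        rwa [Real.rpow_one] at h3
      have h4 : w - 1 + u ^ (r - 1) ≤ 0 := by linarith [hw.2]
      have h5 : 0 < w ^ (r - 2) := Real.rpow_pos_of_pos hw0 _
      have h6 : w ^ (r - 2) * (w - 1 + u ^ (r - 1)) ≤ 0 :=
        mul_nonpos_of_nonneg_of_nonpos h5.le h4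
      exact mul_nonpos_of_nonneg_of_nonpos (by linarith) h6
  have h3 := hm (left_mem_Icc.2 (by linarith)) (right_mem_Icc.2 (by linarith)) (by linarith)
  have h4 := Key_case1 hr hu (by linarith : 0 ≤ 1 - u) (by linarith)
  have e : u + (1 - u) - 1 = 0 := by ring
  rw [e, Real.zero_rpow (by linarith)] at h4
  exact h4.trans h3

/-- **The pointwise inequality.** -/
theorem key_ineq {r u v : ℝ} (hr : 2 ≤ r) (hu : 0 ≤ u) (hv : 0 ≤ v) :
    (max (u + v - 1) 0) ^ r ≤
      u ^ r + v ^ r - 1 + (r / (r - 1)) * (u ^ (r - 1) - 1) * (v ^ (r - 1) - 1) := by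
  rcases le_total 1 (u + v) with h | h
  · rw [max_eq_left (by linarith)]
    exact Key_case1 hr hu hv h
  · rw [max_eq_right (by linarith), Real.zero_rpow (by linarith)]
    exact Key_case2 hr hu hv h

/-- the form that is integrated: `X = V/c`, `D = d(x)/c`, `E = d(y)/c` -/
theorem key_young {s X D E : ℝ} (hs : 1 < s) (hs2 : s ≤ 2) (hX : 0 ≤ X) (hD : 0 ≤ D)
    (hE : 0 ≤ E) :
    s * ((D ^ (s - 1) + E ^ (s - 1) - 1) * X) -
      (s - 1) * (D ^ s + E ^ s - 1 + s * (D - 1) * (E - 1)) ≤ X ^ s := by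
  have hs1 : 0 < s - 1 := by linarith
  obtain ⟨r, hr⟩ : ∃ r : ℝ, r = s / (s - 1) := ⟨_, rfl⟩
  have hr2 : 2 ≤ r := by
    rw [hr, le_div_iff₀ hs1]
    linarith
  have hr0 : 0 < r := by linarith
  have hmul : (s - 1) * r = s := by
    rw [hr]
    field_simp
  have hmul2 : (s - 1) * (r - 1) = 1 := by linarith
  have hrr : r / (r - 1) = s := by
    rw [div_eq_iff (by linarith)]
    nlinarith
  set u : ℝ := D ^ (s - 1) with hu
  set v : ℝ := E ^ (s - 1) with hv
  have hu0 : 0 ≤ u := Real.rpow_nonneg hD _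
  have hv0 : 0 ≤ v := Real.rpow_nonneg hE _
  have h1 := key_ineq hr2 hu0 hv0
  have e1 : u ^ r = D ^ s := by
    rw [hu, ← Real.rpow_mul hD, hmul]
  have e2 : v ^ r = E ^ s := by
    rw [hv, ← Real.rpow_mul hE, hmul]
  have e3 : u ^ (r - 1) = D := by
    rw [hu, ← Real.rpow_mul hD, hmul2, Real.rpow_one]
  have e4 : v ^ (r - 1) = E := by
    rw [hv, ← Real.rpow_mul hE, hmul2, Real.rpow_one]
  rw [e1, e2, e3, e4, hrr] at h1
  set z : ℝ := max (u + v - 1) 0 with hz
  have hz0 : 0 ≤ z := le_max_right _ _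
  have hconj : s.HolderConjugate r := by
    rw [Real.holderConjugate_iff]
    refine ⟨hs, ?_⟩
    rw [hr]
    field_simp
    ring
  have h2 := Real.young_inequality_of_nonneg hX hz0 hconj
  have h3 : s * (X * z) ≤ X ^ s + (s - 1) * z ^ r := by
    have h4 := mul_le_mul_of_nonneg_left h2 (by linarith : 0 ≤ s)
    have e5 : s * (X ^ s / s + z ^ r / r) = X ^ s + (s - 1) * z ^ r := by
      have : s / r = s - 1 := by
        rw [div_eq_iff hr0.ne']
        linarith
      rw [mul_add, mul_div_cancel₀ _ (by linarith), ← this]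
      ring
    rw [e5] at h4
    exact h4
  have h5 : (u + v - 1) * X ≤ X * z := by
    rw [mul_comm]
    exact mul_le_mul_of_nonneg_left (le_max_left _ _) hX
  have h6 := mul_le_mul_of_nonneg_left h5 (by linarith : 0 ≤ s)
  have h7 := mul_le_mul_of_nonneg_left h1 hs1.le
  linarith

end Pool.Agent.W_bbc525_h89
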