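import Pool.Agent.W_bbc525_h89.Mix
import Pool.Agent.W_bbc525_h89.Key

/-!
# The mixed norm is bounded by two moments
-/

set_option autoImplicit false

namespace Pool.Agent.W_bbc525_h89

open MeasureTheory Pool.Agent.W_MP_bbc525_pr

variable (W : Graphon)

theorem mom_eq_inn (b : ℕ) : W.mom b = ∫ x, inn W b x := by
  unfold Graphon.mom inn
  exact Graphon.integral_iter (f := fun x y => W.W x y ^ b) (W.integrable_pow b)

theorem mix_self {a : ℕ} (ha : 0 < a) : mix W a a = W.mom a := by
  rw [mom_eq_inn, mix]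
  have h : (a : ℝ) / a = 1 := div_self (by exact_mod_cast ha.ne')
  simp only [h, Real.rpow_one]

/-- if the moment vanishes so does the mixed norm -/
theorem mix_zero {a b : ℕ} (hb : 0 < b) (hab : b ≤ a) (h : W.mom b = 0) : mix W a b = 0 := by
  have h1 : ∫ x, inn W b x = 0 := by rw [← mom_eq_inn, h]
  have hint : Integrable (inn W b) := Graphon.integrable_of_bdd (measurable_inn W b) (C := 1)
    fun x => by
      rw [abs_of_nonneg (inn_nonneg W b x)]
      exact inn_le_one W b x
  have h2 := (integral_eq_zero_iff_of_nonneg (fun x => inn_nonneg W b x) hint).1 h1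
  unfold mix
  rw [← integral_zero unitInterval ℝ]
  apply integral_congr_ae
  filter_upwards [h2] with x hx
  simp only [Pi.zero_apply] at hx
  rw [hx, Real.zero_rpow]
  have hb' : (0 : ℝ) < b := by exact_mod_cast hb
  have ha' : (0 : ℝ) < a := by exact_mod_cast (lt_of_lt_of_le hb hab)
  positivity

theorem mix_le_aux {a b : ℕ} (hb : 0 < b) (hba : b < a) (hab : a ≤ 2 * b)
    (hc : 0 < W.mom b) :
    mix W a b ≤ (W.mom a + W.mom b ^ ((a : ℝ) / b)) / 2 := by
  have hb' : (0 : ℝ) < b := by exact_mod_cast hb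
  have hs : 1 < (a : ℝ) / b := by
    rw [lt_div_iff₀ hb', one_mul]
    exact_mod_cast hba
  have hs2 : (a : ℝ) / b ≤ 2 := by
    rw [div_le_iff₀ hb']
    exact_mod_cast hab
  set s : ℝ := (a : ℝ) / b with hsdef
  set c : ℝ := W.mom b with hcdef
  have hinn : ∀ x, 0 ≤ inn W b x / c := fun x => div_nonneg (inn_nonneg W b x) hc.le
  have hpt : ∀ z : unitInterval × unitInterval,
      s * ((inn W b z.1 / c) ^ (s - 1) * (W.W z.1 z.2 ^ b / c) +
        (inn W b z.2 / c) ^ (s - 1) * (W.W z.1 z.2 ^ b / c) - W.W z.1 z.2 ^ b / c) -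
      (s - 1) * ((inn W b z.1 / c) ^ s + (inn W b z.2 / c) ^ s - 1 +
        s * ((inn W b z.1 / c - 1) * (inn W b z.2 / c - 1))) ≤
      (W.W z.1 z.2 ^ b / c) ^ s := by
    intro z
    have h := key_young hs hs2 (X := W.W z.1 z.2 ^ b / c)
      (div_nonneg (pow_nonneg (W.nonneg _ _) _) hc.le) (hinn z.1) (hinn z.2)
    refine le_trans (le_of_eq ?_) h
    ring
  -- integrability
  have mI : Measurable (fun x => inn W b x / c) := (measurable_inn W b).div_const _
  have bI : ∀ x, inn W b x / c ≤ 1 / c := fun x =>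
    div_le_div_of_nonneg_right (inn_le_one W b x) hc.le
  have mW : Measurable (fun z : unitInterval × unitInterval => W.W z.1 z.2 ^ b / c) :=
    (W.measurable_prod.pow_const b).div_const _
  have bW : ∀ z : unitInterval × unitInterval, W.W z.1 z.2 ^ b / c ≤ 1 / c := fun z =>
    div_le_div_of_nonneg_right (pow_le_one₀ (W.nonneg _ _) (W.le_one _ _)) hc.le
  have nW : ∀ z : unitInterval × unitInterval, 0 ≤ W.W z.1 z.2 ^ b / c := fun z =>
    div_nonneg (pow_nonneg (W.nonneg _ _) _) hc.le
  have hIt : ∀ (t : ℝ), 0 ≤ t → Integrable (fun x => (inn W b x / c) ^ t) := by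
    intro t ht
    refine Graphon.integrable_of_bdd (mI.pow_const t) (C := (1 / c) ^ t) fun x => ?_
    rw [abs_of_nonneg (Real.rpow_nonneg (hinn x) _)]
    exact Real.rpow_le_rpow (hinn x) (bI x) ht
  have hI1 : Integrable (fun x => inn W b x / c) := by
    have := hIt 1 zero_le_one
    simpa using this
  have i1 : Integrable (fun z : unitInterval × unitInterval =>
      (inn W b z.1 / c) ^ (s - 1) * (W.W z.1 z.2 ^ b / c)) := by
    refine Graphon.integrable_of_bdd (((mI.comp measurable_fst).pow_const _).mul mW)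
      (C := (1 / c) ^ (s - 1) * (1 / c)) fun z => ?_
    have h1 : 0 ≤ (inn W b z.1 / c) ^ (s - 1) := Real.rpow_nonneg (hinn _) _
    rw [abs_of_nonneg (mul_nonneg h1 (nW z))]
    exact mul_le_mul (Real.rpow_le_rpow (hinn _) (bI _) (by linarith)) (bW z) (nW z)
      (Real.rpow_nonneg (by positivity) _)
  have i2 : Integrable (fun z : unitInterval × unitInterval =>
      (inn W b z.2 / c) ^ (s - 1) * (W.W z.1 z.2 ^ b / c)) := by
    refine Graphon.integrable_of_bdd (((mI.comp measurable_snd).pow_const _).mul mW)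
      (C := (1 / c) ^ (s - 1) * (1 / c)) fun z => ?_
    have h1 : 0 ≤ (inn W b z.2 / c) ^ (s - 1) := Real.rpow_nonneg (hinn _) _
    rw [abs_of_nonneg (mul_nonneg h1 (nW z))]
    exact mul_le_mul (Real.rpow_le_rpow (hinn _) (bI _) (by linarith)) (bW z) (nW z)
      (Real.rpow_nonneg (by positivity) _)
  have i3 : Integrable (fun z : unitInterval × unitInterval => W.W z.1 z.2 ^ b / c) :=
    (W.integrable_pow b).div_const _
  have i4 : Integrable (fun z : unitInterval × unitInterval => (inn W b z.1 / c) ^ s) :=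
    (hIt s (by linarith)).comp_fst _
  have i5 : Integrable (fun z : unitInterval × unitInterval => (inn W b z.2 / c) ^ s) :=
    (hIt s (by linarith)).comp_snd _
  have i6 : Integrable (fun z : unitInterval × unitInterval =>
      (inn W b z.1 / c - 1) * (inn W b z.2 / c - 1)) :=
    (hI1.sub (integrable_const 1)).mul_prod (hI1.sub (integrable_const 1))
  -- values of the integrals
  have eD : ∀ x, (inn W b x / c) ^ (s - 1) * (inn W b x / c) = (inn W b x / c) ^ s := by
    intro x
    rcases (hinn x).eq_or_lt with h | h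
    · rw [← h, mul_zero, Real.zero_rpow (by linarith)]
    · rw [← Real.rpow_add_one h.ne']
      congr 1
      ring
  have einn : ∀ x, ∫ y, W.W x y ^ b / c = inn W b x / c := by
    intro x
    rw [integral_div]
    rfl
  have v1 : ∫ z : unitInterval × unitInterval,
      (inn W b z.1 / c) ^ (s - 1) * (W.W z.1 z.2 ^ b / c) = ∫ x, (inn W b x / c) ^ s := by
    rw [Measure.volume_eq_prod, integral_prod _ i1]
    apply integral_congr_ae
    refine Filter.Eventually.of_forall fun x => ?_
    simp only
    rw [integral_const_mul, einn, eD]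
  have v2 : ∫ z : unitInterval × unitInterval,
      (inn W b z.2 / c) ^ (s - 1) * (W.W z.1 z.2 ^ b / c) = ∫ x, (inn W b x / c) ^ s := by
    rw [Measure.volume_eq_prod, integral_prod_symm _ i2]
    apply integral_congr_ae
    refine Filter.Eventually.of_forall fun x => ?_
    simp only
    rw [integral_const_mul]
    have : ∫ y, W.W y x ^ b / c = inn W b x / c := by
      rw [← einn]
      simp only [W.symm]
    rw [this, eD]
  have v3 : ∫ z : unitInterval × unitInterval, W.W z.1 z.2 ^ b / c = 1 := by
    rw [integral_div]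
    exact div_self hc.ne'
  have v4 : ∫ z : unitInterval × unitInterval, (inn W b z.1 / c) ^ s =
      ∫ x, (inn W b x / c) ^ s := by
    rw [Measure.volume_eq_prod, integral_fun_fst (f := fun x => (inn W b x / c) ^ s)]
    simp
  have v5 : ∫ z : unitInterval × unitInterval, (inn W b z.2 / c) ^ s =
      ∫ x, (inn W b x / c) ^ s := by
    rw [Measure.volume_eq_prod, integral_fun_snd (f := fun x => (inn W b x / c) ^ s)]
    simp
  have v6 : ∫ z : unitInterval × unitInterval,
      (inn W b z.1 / c - 1) * (inn W b z.2 / c - 1) = 0 := by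
    rw [Measure.volume_eq_prod,
      integral_prod_mul (fun x => inn W b x / c - 1) (fun x => inn W b x / c - 1)]
    have : ∫ x, (inn W b x / c - 1) = 0 := by
      rw [integral_sub hI1 (integrable_const 1), integral_div, ← mom_eq_inn]
      simp [div_self hc.ne', ← hcdef]
    rw [this, zero_mul]
  have v7 : ∫ z : unitInterval × unitInterval, (W.W z.1 z.2 ^ b / c) ^ s =
      W.mom a / c ^ s := by
    have : ∀ z : unitInterval × unitInterval, (W.W z.1 z.2 ^ b / c) ^ s =
        W.W z.1 z.2 ^ a / c ^ s := by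
      intro z
      rw [Real.div_rpow (pow_nonneg (W.nonneg _ _) _) hc.le]
      congr 1
      rw [← Real.rpow_natCast (W.W z.1 z.2) b, ← Real.rpow_mul (W.nonneg _ _), hsdef,
        mul_div_cancel₀ _ hb'.ne', Real.rpow_natCast]
    simp only [this]
    rw [integral_div]
    rfl
  have i7 : Integrable (fun z : unitInterval × unitInterval => (W.W z.1 z.2 ^ b / c) ^ s) := by
    refine Graphon.integrable_of_bdd (mW.pow_const s) (C := (1 / c) ^ s) fun z => ?_
    rw [abs_of_nonneg (Real.rpow_nonneg (nW z) _)]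
    exact Real.rpow_le_rpow (nW z) (bW z) (by linarith)
  have j12 : Integrable (fun z : unitInterval × unitInterval =>
      (inn W b z.1 / c) ^ (s - 1) * (W.W z.1 z.2 ^ b / c) +
        (inn W b z.2 / c) ^ (s - 1) * (W.W z.1 z.2 ^ b / c)) := i1.add i2
  have jA : Integrable (fun z : unitInterval × unitInterval =>
      s * ((inn W b z.1 / c) ^ (s - 1) * (W.W z.1 z.2 ^ b / c) +
        (inn W b z.2 / c) ^ (s - 1) * (W.W z.1 z.2 ^ b / c) - W.W z.1 z.2 ^ b / c)) :=
    (j12.sub i3).const_mul s
  have j45 : Integrable (fun z : unitInterval × unitInterval =>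
      (inn W b z.1 / c) ^ s + (inn W b z.2 / c) ^ s) := i4.add i5
  have j456 : Integrable (fun z : unitInterval × unitInterval =>
      (inn W b z.1 / c) ^ s + (inn W b z.2 / c) ^ s - 1) := j45.sub (integrable_const 1)
  have j6 : Integrable (fun z : unitInterval × unitInterval =>
      s * ((inn W b z.1 / c - 1) * (inn W b z.2 / c - 1))) := i6.const_mul s
  have jB : Integrable (fun z : unitInterval × unitInterval =>
      (s - 1) * ((inn W b z.1 / c) ^ s + (inn W b z.2 / c) ^ s - 1 +
        s * ((inn W b z.1 / c - 1) * (inn W b z.2 / c - 1)))) :=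
    (j456.add j6).const_mul (s - 1)
  have hint := integral_mono (jA.sub jB) i7 hpt
  have hS : (∫ z : unitInterval × unitInterval,
      (s * ((inn W b z.1 / c) ^ (s - 1) * (W.W z.1 z.2 ^ b / c) +
        (inn W b z.2 / c) ^ (s - 1) * (W.W z.1 z.2 ^ b / c) - W.W z.1 z.2 ^ b / c) -
      (s - 1) * ((inn W b z.1 / c) ^ s + (inn W b z.2 / c) ^ s - 1 +
        s * ((inn W b z.1 / c - 1) * (inn W b z.2 / c - 1))))) =
      2 * (∫ x, (inn W b x / c) ^ s) - 1 := by
    rw [integral_sub jA jB, integral_const_mul, integral_const_mul]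
    have e1 : ∫ z : unitInterval × unitInterval,
        ((inn W b z.1 / c) ^ (s - 1) * (W.W z.1 z.2 ^ b / c) +
        (inn W b z.2 / c) ^ (s - 1) * (W.W z.1 z.2 ^ b / c) - W.W z.1 z.2 ^ b / c) =
        2 * (∫ x, (inn W b x / c) ^ s) - 1 := by
      rw [integral_sub j12 i3, integral_add i1 i2, v1, v2, v3]
      ring
    have e2 : ∫ z : unitInterval × unitInterval,
        ((inn W b z.1 / c) ^ s + (inn W b z.2 / c) ^ s - 1 +
        s * ((inn W b z.1 / c - 1) * (inn W b z.2 / c - 1))) =
        2 * (∫ x, (inn W b x / c) ^ s) - 1 := by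
      rw [integral_add j456 j6, integral_sub j45 (integrable_const 1), integral_add i4 i5,
        integral_const_mul, v4, v5, v6]
      simp
      ring
    rw [e1, e2]
    ring
  have h1 : 2 * (∫ x, (inn W b x / c) ^ s) - 1 ≤ W.mom a / c ^ s := by
    rw [← hS, ← v7]
    exact hint
  have h2 : ∫ x, (inn W b x / c) ^ s = mix W a b / c ^ s := by
    have : ∀ x, (inn W b x / c) ^ s = inn W b x ^ s / c ^ s := fun x =>
      Real.div_rpow (inn_nonneg W b x) hc.le _
    simp only [this]
    rw [integral_div]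
    rfl
  have hcs : 0 < c ^ s := Real.rpow_pos_of_pos hc _
  rw [h2] at h1
  have h3 := mul_le_mul_of_nonneg_right h1 hcs.le
  rw [sub_mul, mul_assoc, div_mul_cancel₀ _ hcs.ne', div_mul_cancel₀ _ hcs.ne', one_mul] at h3
  linarith

/-- **The bound of the mixed norm.** -/
theorem mix_le {a b : ℕ} (hb : 0 < b) (hba : b ≤ a) (hab : a ≤ 2 * b) :
    mix W a b ≤ (W.mom a + W.mom b ^ ((a : ℝ) / b)) / 2 := by
  have hb' : (0 : ℝ) < b := by exact_mod_cast hb
  rcases hba.eq_or_lt with h | h
  · subst h
    rw [mix_self W hb, div_self hb'.ne', Real.rpow_one]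
    linarith
  · rcases (W.mom_nonneg b).eq_or_lt with h0 | h0
    · rw [mix_zero W hb hba h0.symm]
      have h1 := W.mom_nonneg a
      have h2 := Real.rpow_nonneg (W.mom_nonneg b) ((a : ℝ) / b)
      linarith
    · exact mix_le_aux W hb h hab h0

end Pool.Agent.W_bbc525_h89
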