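import Pool.Agent.W_bbc525_h89.Law
import Pool.Agent.W_bbc525_h89.Ineq

/-!
# The functional of the moments
-/

set_option autoImplicit false
set_option linter.unusedSectionVars false

namespace Pool.Agent.W_bbc525_h89

open Finset Filter Topology MeasureTheory Pool.Agent.W_MP_bbc525_pr

theorem relEnt_self {p : ℝ} (hp : 0 < p) (hp1 : p < 1) : relEnt p p = 0 := by
  unfold relEnt
  rw [div_self hp.ne', div_self (by linarith)]
  simp

theorem continuousOn_relEnt {p : ℝ} (hp : 0 < p) (hp1 : p < 1) :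
    ContinuousOn (relEnt p) (Set.Icc 0 1) := by
  have h0 : Continuous fun w : ℝ => g (2 * w - 1) :=
    continuous_g.comp (f := fun w : ℝ => 2 * w - 1) (by fun_prop)
  have h : Continuous fun w : ℝ => g (2 * w - 1) - Real.log 2 - w * Real.log p -
      (1 - w) * Real.log (1 - p) := by fun_prop
  exact h.continuousOn.congr fun w hw => relEnt_eq hp hp1 hw.1 hw.2

theorem relEnt_strictMonoOn {p : ℝ} (hp : 0 < p) (hp1 : p < 1) :
    StrictMonoOn (relEnt p) (Set.Icc p 1) := by
  apply strictMonoOn_of_deriv_pos (convex_Icc p 1)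
    ((continuousOn_relEnt hp hp1).mono (Set.Icc_subset_Icc hp.le le_rfl))
  intro x hx
  rw [interior_Icc] at hx
  have h := hasDerivAt_relEnt hp hp1 (hp.trans hx.1) hx.2
  have h' : deriv (relEnt p) x = logit x - logit p := h.deriv
  rw [h']
  exact logit_strictMono hp hx.1 hx.2

variable {V : Type*} [Fintype V] [DecidableEq V] (H : SimpleGraph V) [DecidableRel H.Adj]

omit [DecidableEq V] in
theorem ndeg_le_mdeg (e : Sym2 V) : ndeg H e ≤ mdeg H e := by
  induction e using Sym2.ind with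
  | _ i j => exact min_le_max

theorem ndeg_pos {e : Sym2 V} (he : e ∈ H.edgeFinset) : 0 < ndeg H e := by
  induction e using Sym2.ind with
  | _ i j =>
    have hadj : H.Adj i j := by simpa using he
    rw [ndeg_mk, lt_min_iff]
    exact ⟨(H.degree_pos_iff_exists_adj i).2 ⟨j, hadj⟩,
      (H.degree_pos_iff_exists_adj j).2 ⟨i, hadj.symm⟩⟩

/-- the functional -/
noncomputable def Psi (M : ℕ → ℝ) : ℝ :=
  ∏ e ∈ H.edgeFinset, ((M (mdeg H e) + M (ndeg H e) ^ ((mdeg H e : ℝ) / ndeg H e)) / 2) ^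
    (1 / (mdeg H e : ℝ))

theorem Psi_pow {y : ℝ} (hy : 0 ≤ y) : Psi H (fun k => y ^ k) = y ^ H.edgeFinset.card := by
  unfold Psi
  rw [← Finset.prod_const]
  refine Finset.prod_congr rfl fun e he => ?_
  have ha : (0 : ℝ) < mdeg H e := by exact_mod_cast mdeg_pos H he
  have hb : (0 : ℝ) < ndeg H e := by exact_mod_cast ndeg_pos H he
  have h1 : (y ^ ndeg H e) ^ ((mdeg H e : ℝ) / ndeg H e) = y ^ mdeg H e := by
    rw [← Real.rpow_natCast y (ndeg H e), ← Real.rpow_mul hy, mul_div_cancel₀ _ hb.ne',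
      Real.rpow_natCast]
  show ((y ^ mdeg H e + (y ^ ndeg H e) ^ ((mdeg H e : ℝ) / ndeg H e)) / 2) ^
    (1 / (mdeg H e : ℝ)) = y
  rw [h1, add_self_div_two, ← Real.rpow_natCast y (mdeg H e), ← Real.rpow_mul hy,
    mul_one_div_cancel ha.ne', Real.rpow_one]

theorem Psi_nonneg {M : ℕ → ℝ} (hM : ∀ k, 0 ≤ M k) : 0 ≤ Psi H M := by
  refine Finset.prod_nonneg fun e _ => Real.rpow_nonneg ?_ _
  have h1 := hM (mdeg H e)
  have h2 := Real.rpow_nonneg (hM (ndeg H e)) ((mdeg H e : ℝ) / ndeg H e)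
  linarith

theorem Psi_pos {M : ℕ → ℝ} (hM : ∀ k, 0 < M k) : 0 < Psi H M := by
  refine Finset.prod_pos fun e _ => Real.rpow_pos_of_pos ?_ _
  have h1 := hM (mdeg H e)
  have h2 := Real.rpow_nonneg (hM (ndeg H e)).le ((mdeg H e : ℝ) / ndeg H e)
  linarith

/-- strict monotonicity -/
theorem Psi_lt (hE : 0 < H.edgeFinset.card) {M M' : ℕ → ℝ} (hM : ∀ k, 0 ≤ M k)
    (hpos : 0 < Psi H M) (h : ∀ k, 0 < k → M k < M' k) : Psi H M < Psi H M' := by
  apply Finset.prod_lt_prod_of_nonempty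
  · intro e he
    have h1 := (Finset.prod_ne_zero_iff.1 hpos.ne') e he
    refine lt_of_le_of_ne (Real.rpow_nonneg ?_ _) h1.symm
    have h2 := hM (mdeg H e)
    have h3 := Real.rpow_nonneg (hM (ndeg H e)) ((mdeg H e : ℝ) / ndeg H e)
    linarith
  · intro e he
    have ha : (0 : ℝ) < mdeg H e := by exact_mod_cast mdeg_pos H he
    have h2 := hM (mdeg H e)
    have h3 := Real.rpow_nonneg (hM (ndeg H e)) ((mdeg H e : ℝ) / ndeg H e)
    have h4 := h _ (mdeg_pos H he)
    have h5 : M (ndeg H e) ^ ((mdeg H e : ℝ) / ndeg H e) ≤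
        M' (ndeg H e) ^ ((mdeg H e : ℝ) / ndeg H e) :=
      Real.rpow_le_rpow (hM _) (h _ (ndeg_pos H he)).le (by positivity)
    exact Real.rpow_lt_rpow (by linarith) (by linarith) (by positivity)
  · exact Finset.card_pos.1 hE

theorem log_Psi {M : ℕ → ℝ} (hM : ∀ k, 0 < M k) :
    Real.log (Psi H M) = lpsi H.edgeFinset (mdeg H) (ndeg H) M := by
  have hp : ∀ e, 0 < (M (mdeg H e) + M (ndeg H e) ^ ((mdeg H e : ℝ) / ndeg H e)) / 2 := by
    intro e
    have h1 := hM (mdeg H e)
    have h2 := Real.rpow_nonneg (hM (ndeg H e)).le ((mdeg H e : ℝ) / ndeg H e)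
    linarith
  unfold Psi lpsi
  rw [Real.log_prod]
  · exact Finset.sum_congr rfl fun e _ => Real.log_rpow (hp e) _
  · exact fun e _ => (Real.rpow_pos_of_pos (hp e) _).ne'

/-- the degrees of adjacent vertices differ at most by a factor 2 -/
def Two : Prop := ∀ i j, H.Adj i j → H.degree i ≤ 2 * H.degree j

omit [DecidableEq V] in
theorem Two.edge {H : SimpleGraph V} [DecidableRel H.Adj] (h : Two H) {e : Sym2 V}
    (he : e ∈ H.edgeFinset) : mdeg H e ≤ 2 * ndeg H e := by
  induction e using Sym2.ind with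
  | _ i j =>
    have hadj : H.Adj i j := by simpa using he
    rw [ndeg_mk, mdeg_mk]
    have h1 := h i j hadj
    have h2 := h j i hadj.symm
    omega

/-- the bound of the homomorphism density -/
theorem homDensity_le_Psi (h : Two H) (W : Graphon) : homDensity H W ≤ Psi H W.mom := by
  refine (homDensity_le_mix H W).trans ?_
  refine Finset.prod_le_prod (fun e _ => Real.rpow_nonneg (mix_nonneg W _ _) _) fun e he => ?_
  exact Real.rpow_le_rpow (mix_nonneg W _ _)
    (mix_le W (ndeg_pos H he) (ndeg_le_mdeg H e) (h.edge he)) (by positivity)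

end Pool.Agent.W_bbc525_h89
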