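import Mathlib

/-!
# The convex hull of a compact set in a finite dimensional space is compact
-/

set_option autoImplicit false

namespace Pool.Agent.W_bbc525_h89

theorem isCompact_hull {E : Type*} [NormedAddCommGroup E] [NormedSpace ℝ E]
    [FiniteDimensional ℝ E] {s : Set E} (hs : IsCompact s) : IsCompact (convexHull ℝ s) := by
  rcases s.eq_empty_or_nonempty with rfl | ⟨x0, hx0⟩
  · simp
  set n := Module.finrank ℝ E + 1 with hn
  have hcomp : IsCompact (stdSimplex ℝ (Fin n) ×ˢ (Set.univ.pi fun _ : Fin n => s)) :=
    (isCompact_stdSimplex ℝ (Fin n)).prod (isCompact_univ_pi fun _ => hs)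
  have hcont : Continuous fun a : (Fin n → ℝ) × (Fin n → E) => ∑ i, a.1 i • a.2 i := by fun_prop
  have himg : convexHull ℝ s = (fun a : (Fin n → ℝ) × (Fin n → E) => ∑ i, a.1 i • a.2 i) ''
      (stdSimplex ℝ (Fin n) ×ˢ (Set.univ.pi fun _ : Fin n => s)) := by
    ext x
    constructor
    · intro hx
      obtain ⟨κ, hκ, z, w, hz, hai, hw, hw1, hx⟩ := eq_pos_convex_span_of_mem_convexHull hx
      have hcard : Fintype.card κ ≤ n := by
        have h1 := hai.card_le_finrank_succ
        have h2 : Module.finrank ℝ (vectorSpan ℝ (Set.range z)) ≤ Module.finrank ℝ E :=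
          Submodule.finrank_le _
        omega
      obtain ⟨f⟩ : Nonempty (κ ↪ Fin n) := Function.Embedding.nonempty_of_card_le (by simpa using hcard)
      have hnot : ∀ j, j ∉ Set.range f → ¬ ∃ i, f i = j := fun j hj h => hj h
      refine ⟨(Function.extend f w 0, Function.extend f z (fun _ => x0)), ⟨⟨?_, ?_⟩, ?_⟩, ?_⟩
      · intro j
        show 0 ≤ Function.extend f w 0 j
        by_cases hj : ∃ i, f i = j
        · obtain ⟨i, rfl⟩ := hj
          rw [f.injective.extend_apply]
          exact (hw i).le
        · rw [Function.extend_apply' _ _ _ hj]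
          exact le_rfl
      · rw [← hw1]
        symm
        apply Fintype.sum_of_injective f f.injective
        · intro j hj
          show Function.extend f w 0 j = 0
          rw [Function.extend_apply' _ _ _ (hnot j hj)]
          rfl
        · intro i
          show w i = Function.extend f w 0 (f i)
          rw [f.injective.extend_apply]
      · intro j _
        show Function.extend f z (fun _ => x0) j ∈ s
        by_cases hj : ∃ i, f i = j
        · obtain ⟨i, rfl⟩ := hj
          rw [f.injective.extend_apply]
          exact hz ⟨i, rfl⟩
        · rw [Function.extend_apply' _ _ _ hj]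
          exact hx0
      · rw [← hx]
        symm
        apply Fintype.sum_of_injective f f.injective
        · intro j hj
          simp only
          rw [Function.extend_apply' w _ _ (hnot j hj)]
          simp
        · intro i
          simp only
          rw [f.injective.extend_apply, f.injective.extend_apply]
    · rintro ⟨⟨w, z⟩, ⟨⟨hw0, hw1⟩, hz⟩, rfl⟩
      exact (convex_convexHull ℝ s).sum_mem (fun i _ => hw0 i) hw1
        (fun i _ => subset_convexHull ℝ s (hz i (Set.mem_univ i)))
  rw [himg]
  exact hcomp.image hcont

end Pool.Agent.W_bbc525_h89
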