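import Pool.Agent.W_bbc525_h89.Pair

/-!
# Finite laws on `[1, ∞)` and the derivative of the functional
-/

set_option autoImplicit false

namespace Pool.Agent.W_bbc525_h89

theorem two_pow_le {R : ℝ} (hR : 1 ≤ R) {a b c : ℕ} (h : 2 * c ≤ a + b) :
    2 * R ^ c ≤ R ^ a + R ^ b := by
  have hR0 : 0 < R := by linarith
  have h1 : (R ^ c) ^ 2 ≤ R ^ a * R ^ b := by
    rw [← pow_mul, ← pow_add]
    exact pow_le_pow_right₀ hR (by omega)
  have h2 : 0 < R ^ a := by positivity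
  have h3 : 0 < R ^ b := by positivity
  have h4 : 0 < R ^ c := by positivity
  have h5 : (2 * R ^ c) ^ 2 ≤ (R ^ a + R ^ b) ^ 2 := by
    nlinarith [sq_nonneg (R ^ a - R ^ b)]
  exact le_of_sq_le_sq h5 (by linarith)

theorem psi_pt_lt {R : ℝ} (hR : 1 < R) {k l : ℕ} (hk : 0 < k) (hkl : k < l) :
    (R ^ k - 1) / k < (R ^ l - 1) / l := by
  have hk' : (0 : ℝ) < k := by exact_mod_cast hk
  have hl' : (0 : ℝ) < l := by exact_mod_cast (lt_trans hk hkl)
  have hR0 : 0 < R := by linarith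
  have h1 : 1 < R ^ k := one_lt_pow₀ hR hk.ne'
  have hp : (1 : ℝ) < (l : ℝ) / k := by
    rw [lt_div_iff₀ hk', one_mul]
    exact_mod_cast hkl
  have h2 := one_add_mul_self_lt_rpow_one_add (s := R ^ k - 1) (by linarith) (by linarith) hp
  have h3 : (1 + (R ^ k - 1)) ^ ((l : ℝ) / k) = R ^ l := by
    rw [add_sub_cancel, ← Real.rpow_natCast R k, ← Real.rpow_mul hR0.le, mul_div_cancel₀ _ hk'.ne',
      Real.rpow_natCast]
  rw [h3] at h2
  rw [lt_div_iff₀ hl']
  have h4 : (R ^ k - 1) / k * l = (l : ℝ) / k * (R ^ k - 1) := by ring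
  rw [h4]
  linarith

theorem psi_pt_le {R : ℝ} (hR : 1 ≤ R) {k l : ℕ} (hk : 0 < k) (hkl : k < l) :
    (R ^ k - 1) / k ≤ (R ^ l - 1) / l := by
  rcases hR.eq_or_lt with rfl | h
  · simp
  · exact (psi_pt_lt h hk hkl).le

theorem psi_integral (R : ℝ) (n : ℕ) : ∫ x in (1 : ℝ)..R, x ^ n = (R ^ (n + 1) - 1) / ((n + 1 : ℕ) : ℝ) := by
  rw [integral_pow]
  push_cast
  ring_nf

theorem psi_pt_mid {R : ℝ} (hR : 1 ≤ R) {a b c : ℕ} (ha : 0 < a) (hb : 0 < b) (hc : 0 < c)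
    (h : 2 * c ≤ a + b) : 2 * ((R ^ c - 1) / c) ≤ (R ^ a - 1) / a + (R ^ b - 1) / b := by
  obtain ⟨a, rfl⟩ := Nat.exists_eq_add_of_lt ha
  obtain ⟨b, rfl⟩ := Nat.exists_eq_add_of_lt hb
  obtain ⟨c, rfl⟩ := Nat.exists_eq_add_of_lt hc
  simp only [zero_add]
  rw [← psi_integral, ← psi_integral, ← psi_integral, ← intervalIntegral.integral_const_mul,
    ← intervalIntegral.integral_add]
  · apply intervalIntegral.integral_mono_on hR
    · exact (continuous_const.mul (continuous_pow c)).intervalIntegrable _ _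
    · exact ((continuous_pow a).add (continuous_pow b)).intervalIntegrable _ _
    · intro x hx
      exact two_pow_le hx.1 (by omega)
  · exact (continuous_pow a).intervalIntegrable _ _
  · exact (continuous_pow b).intervalIntegrable _ _

section

variable {ι : Type*} [Fintype ι]

theorem psi_avg (w R : ι → ℝ) (hw1 : ∑ i, w i = 1) (k : ℕ) :
    (∑ i, w i * R i ^ k - 1) / (k : ℝ) = ∑ i, w i * ((R i ^ k - 1) / k) := by
  have h1 : ∑ i, w i * R i ^ k - 1 = ∑ i, w i * (R i ^ k - 1) := by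
    simp only [mul_sub, mul_one, Finset.sum_sub_distrib, hw1]
  rw [h1, Finset.sum_div]
  exact Finset.sum_congr rfl fun i _ => by ring

/-- a finite law on `[1, ∞)` -/
theorem ms_of_law (w R : ι → ℝ) (hw : ∀ i, 0 < w i) (hw1 : ∑ i, w i = 1) (hR : ∀ i, 1 ≤ R i)
    (hne : ∃ i, 1 < R i) : MS (fun k => ∑ i, w i * R i ^ k) := by
  obtain ⟨j, hj⟩ := hne
  refine ⟨?_, ?_, ?_, ?_, ?_, ?_⟩
  · intro k l hkl
    apply Finset.sum_lt_sum
    · intro i _
      exact mul_le_mul_of_nonneg_left (pow_le_pow_right₀ (hR i) hkl.le) (hw i).le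
    · exact ⟨j, Finset.mem_univ j, mul_lt_mul_of_pos_left (pow_lt_pow_right₀ hj hkl) (hw j)⟩
  · simpa using hw1
  · intro k l hk hkl
    have hk' : (0 : ℝ) < k := by exact_mod_cast hk
    have hp : (1 : ℝ) ≤ (l : ℝ) / k := one_le_div hk hkl
    have h1 := Real.rpow_arith_mean_le_arith_mean_rpow Finset.univ w (fun i => R i ^ k)
      (fun i _ => (hw i).le) hw1 (fun i _ => pow_nonneg (by linarith [hR i]) k) hp
    refine h1.trans (le_of_eq ?_)
    refine Finset.sum_congr rfl fun i _ => ?_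
    have hi : 0 ≤ R i := by linarith [hR i]
    rw [← Real.rpow_natCast (R i) k, ← Real.rpow_mul hi, mul_div_cancel₀ _ hk'.ne',
      Real.rpow_natCast]
  · intro a b c h
    show 2 * ∑ i, w i * R i ^ c ≤ ∑ i, w i * R i ^ a + ∑ i, w i * R i ^ b
    rw [Finset.mul_sum, ← Finset.sum_add_distrib]
    refine Finset.sum_le_sum fun i _ => ?_
    have h1 := mul_le_mul_of_nonneg_left (two_pow_le (hR i) h) (hw i).le
    linarith
  · intro k l hk hkl
    show (∑ i, w i * R i ^ k - 1) / (k : ℝ) < (∑ i, w i * R i ^ l - 1) / (l : ℝ)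
    rw [psi_avg w R hw1, psi_avg w R hw1]
    apply Finset.sum_lt_sum
    · intro i _
      exact mul_le_mul_of_nonneg_left (psi_pt_le (hR i) hk hkl) (hw i).le
    · exact ⟨j, Finset.mem_univ j, mul_lt_mul_of_pos_left (psi_pt_lt hj hk hkl) (hw j)⟩
  · intro a b c ha hb hc h
    show 2 * ((∑ i, w i * R i ^ c - 1) / (c : ℝ)) ≤
      (∑ i, w i * R i ^ a - 1) / (a : ℝ) + (∑ i, w i * R i ^ b - 1) / (b : ℝ)
    rw [psi_avg w R hw1, psi_avg w R hw1, psi_avg w R hw1, Finset.mul_sum,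
      ← Finset.sum_add_distrib]
    refine Finset.sum_le_sum fun i _ => ?_
    have h1 := mul_le_mul_of_nonneg_left (psi_pt_mid (hR i) ha hb hc h) (hw i).le
    linarith

end

/-- the logarithm of the functional -/
noncomputable def lpsi {κ : Type*} (E : Finset κ) (a b : κ → ℕ) (M : ℕ → ℝ) : ℝ :=
  ∑ e ∈ E, 1 / (a e : ℝ) * Real.log ((M (a e) + M (b e) ^ ((a e : ℝ) / b e)) / 2)

theorem hasDerivAt_lpsi {κ : Type*} (E : Finset κ) (a b : κ → ℕ) (M : ℝ → ℕ → ℝ)
    (M' : ℕ → ℝ) (hM : ∀ e ∈ E, HasDerivAt (fun x => M x (a e)) (M' (a e)) 0 ∧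
      HasDerivAt (fun x => M x (b e)) (M' (b e)) 0)
    (hpos : ∀ e ∈ E, 0 < M 0 (a e) ∧ 0 < M 0 (b e)) :
    HasDerivAt (fun x => lpsi E a b (M x))
      (∑ e ∈ E, 1 / (a e : ℝ) * ((M' (a e) + (a e : ℝ) / b e *
        M 0 (b e) ^ ((a e : ℝ) / b e - 1) * M' (b e)) /
        (M 0 (a e) + M 0 (b e) ^ ((a e : ℝ) / b e)))) 0 := by
  unfold lpsi
  apply HasDerivAt.fun_sum
  intro e he
  obtain ⟨h1, h2⟩ := hM e he
  obtain ⟨p1, p2⟩ := hpos e he
  have h3 := h2.rpow_const (p := (a e : ℝ) / b e) (Or.inl p2.ne')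
  have h4 := (h1.add h3).div_const 2
  have p3 : 0 < M 0 (b e) ^ ((a e : ℝ) / b e) := Real.rpow_pos_of_pos p2 _
  have h5 := h4.log (by
    simp only [Pi.add_apply]
    positivity)
  have h6 := h5.const_mul (1 / (a e : ℝ))
  refine h6.congr_deriv ?_
  show 1 / (a e : ℝ) *
      ((M' (a e) + M' (b e) * ((a e : ℝ) / b e) * M 0 (b e) ^ ((a e : ℝ) / b e - 1)) / 2 /
        ((M 0 (a e) + M 0 (b e) ^ ((a e : ℝ) / b e)) / 2)) = _
  rw [div_div_div_cancel_right₀ two_ne_zero]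
  congr 3
  ring

/-- the derivative in the direction used below -/
theorem deriv_eq {κ : Type*} (E : Finset κ) (a b : κ → ℕ) {m : ℕ → ℝ} (hm : MS m)
    (ha : ∀ e ∈ E, 0 < a e) (hb : ∀ e ∈ E, 0 < b e) {y t : ℝ} (hy : 0 < y) :
    (∑ e ∈ E, 1 / (a e : ℝ) * ((a e * y ^ a e * (t - psi m (a e)) + (a e : ℝ) / b e *
        (y ^ b e * m (b e)) ^ ((a e : ℝ) / b e - 1) * (b e * y ^ b e * (t - psi m (b e)))) /
        (y ^ a e * m (a e) + (y ^ b e * m (b e)) ^ ((a e : ℝ) / b e)))) =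
      t * (∑ e ∈ E, (up m (a e) (b e) + lo m (a e) (b e))) -
        ∑ e ∈ E, (up m (a e) (b e) * psi m (a e) + lo m (a e) (b e) * psi m (b e)) := by
  rw [Finset.mul_sum, ← Finset.sum_sub_distrib]
  refine Finset.sum_congr rfl fun e he => ?_
  have ha' : (0 : ℝ) < a e := by exact_mod_cast ha e he
  have hb' : (0 : ℝ) < b e := by exact_mod_cast hb e he
  have hmb := hm.pos (b e)
  have hD := dn_pos hm (a e) (b e)
  have hyb : 0 < y ^ b e := pow_pos hy _
  have hya : 0 < y ^ a e := pow_pos hy _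
  have e1 : (y ^ b e * m (b e)) ^ ((a e : ℝ) / b e) = y ^ a e * m (b e) ^ ((a e : ℝ) / b e) := by
    rw [Real.mul_rpow hyb.le hmb.le]
    congr 1
    rw [← Real.rpow_natCast y (b e), ← Real.rpow_mul hy.le, mul_div_cancel₀ _ hb'.ne',
      Real.rpow_natCast]
  have e2 : (y ^ b e * m (b e)) ^ ((a e : ℝ) / b e - 1) * y ^ b e = y ^ a e * pw m (a e) (b e) := by
    have h1 : (y ^ b e * m (b e)) ^ ((a e : ℝ) / b e - 1) =
        (y ^ b e * m (b e)) ^ ((a e : ℝ) / b e) / (y ^ b e * m (b e)) := by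
      rw [Real.rpow_sub_one (by positivity)]
    have h2 : pw m (a e) (b e) = m (b e) ^ ((a e : ℝ) / b e) / m (b e) := by
      unfold pw
      rw [Real.rpow_sub_one hmb.ne']
    rw [h1, e1, h2]
    field_simp
  have e3 : (a e : ℝ) * y ^ a e * (t - psi m (a e)) + (a e : ℝ) / b e *
        (y ^ b e * m (b e)) ^ ((a e : ℝ) / b e - 1) * (b e * y ^ b e * (t - psi m (b e))) =
      a e * y ^ a e * ((t - psi m (a e)) + pw m (a e) (b e) * (t - psi m (b e))) := by
    have : (a e : ℝ) / b e *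
        (y ^ b e * m (b e)) ^ ((a e : ℝ) / b e - 1) * (b e * y ^ b e * (t - psi m (b e))) =
        a e * ((y ^ b e * m (b e)) ^ ((a e : ℝ) / b e - 1) * y ^ b e) * (t - psi m (b e)) := by
      field_simp
    rw [this, e2]
    ring
  rw [e3, e1]
  have e4 : y ^ a e * m (a e) + y ^ a e * m (b e) ^ ((a e : ℝ) / b e) =
      y ^ a e * dn m (a e) (b e) := by
    unfold dn
    ring
  rw [e4]
  unfold up lo
  field_simp
  ring

end Pool.Agent.W_bbc525_h89
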