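import Pool.Agent.W_bbc525_h89.Max
import Pool.Agent.W_MP_bbc525_pr.Closed

/-!
# The lower branch of the upper tail replica symmetry phase diagram
-/

namespace Pool.Agent.Results.MP_bbc525_pr.LowerBranch

open MeasureTheory Pool.Agent.W_MP_bbc525_pr Pool.Agent.W_bbc525_h89

theorem unique_self {V : Type*} [Fintype V] [DecidableEq V] (H : SimpleGraph V)
    [DecidableRel H.Adj] {p : ℝ} (hp : 0 < p) (hp1 : p < 1) : UniqueMinimizer H p p := by
  intro W _ hc
  rw [relEnt_self hp hp1] at hc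
  have h0 : cost p W = 0 := le_antisymm hc (cost_nonneg hp hp1 W)
  have h1 := (integral_eq_zero_iff_of_nonneg (μ := (volume : Measure (unitInterval × unitInterval)))
    (f := fun z : unitInterval × unitInterval => relEnt p (W.W z.1 z.2))
    (fun z => relEnt_nonneg hp hp1 (W.nonneg _ _) (W.le_one _ _))
    (integrable_relEnt hp hp1 W)).1 h0
  filter_upwards [h1] with z hz
  simp only [Pi.zero_apply] at hz
  have h2 := relEnt_ge hp hp1 (W.nonneg z.1 z.2) (W.le_one z.1 z.2)
  rw [hz] at h2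
  by_contra hcon
  have : 0 < (W.W z.1 z.2 - p) ^ 2 := by
    have := sub_ne_zero.2 hcon
    positivity
  have := mul_pos (kq_pos hp hp1) this
  linarith

theorem rs_self {V : Type*} [Fintype V] [DecidableEq V] (H : SimpleGraph V)
    [DecidableRel H.Adj] {p : ℝ} (hp : 0 < p) (hp1 : p < 1) : ReplicaSymmetric H p p := by
  rw [replicaSymmetric_iff H hp le_rfl hp1]
  intro W _
  rw [relEnt_self hp hp1]
  exact cost_nonneg hp hp1 W

/-- **Main theorem.** Let `H` be a finite simple graph with at least one edge, with two different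
positive degrees, such that for every edge `uv` with `deg u ≤ deg v` one has `deg v ≤ 2 deg u` and
no vertex has a degree in the open interval `((deg u + deg v)/2, deg v)`
(for example: all positive degrees are `k` or `l` with `k < l ≤ 2 k`).
Let `0 < p ≤ q < 1`. Then the constant `s` is a minimizer of the upper tail variational problem
`UT_p(H, s)` for all `s ∈ [p, q]` if and only if
`I_p(r) - I_p(s) ≥ (s I_p'(s) / (2 e(H))) ∑_v ((r/s)^{deg v} - 1)` for all `s ∈ [p, q]` and
`r ∈ [0, 1]`; and in this case the constant `s` is the unique minimizer for all `s ∈ [p, q]`. -/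
theorem result {V : Type*} [Fintype V] [DecidableEq V] (H : SimpleGraph V) [DecidableRel H.Adj]
    (hedge : 0 < H.edgeFinset.card)
    (hadj : ∀ u v, H.Adj u v → H.degree v ≤ 2 * H.degree u ∧
      ∀ w, H.degree u < H.degree w → H.degree w < H.degree v →
        2 * H.degree w ≤ H.degree u + H.degree v)
    (hdeg : ∃ u v, 0 < H.degree u ∧ 0 < H.degree v ∧ H.degree u ≠ H.degree v)
    {p q : ℝ} (hp : 0 < p) (hpq : p ≤ q) (hq : q < 1) :
    ((∀ s : ℝ, p ≤ s → s ≤ q → ReplicaSymmetric H p s) ↔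
      ∀ s : ℝ, p ≤ s → s ≤ q → ∀ r : ℝ, 0 ≤ r → r ≤ 1 →
        (s * (Real.log (s / (1 - s)) - Real.log (p / (1 - p))) / (2 * H.edgeFinset.card)) *
          ∑ v, ((r / s) ^ H.degree v - 1) ≤ relEnt p r - relEnt p s) ∧
    ((∀ s : ℝ, p ≤ s → s ≤ q → ReplicaSymmetric H p s) →
      ∀ s : ℝ, p ≤ s → s ≤ q → UniqueMinimizer H p s) := by
  have hp1 : p < 1 := lt_of_le_of_lt hpq hq
  have hTwo : Two H := fun i j hij => (hadj j i hij.symm).1
  have hHalf : HalfCond H := by
    intro i j hij v h1 h2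
    have h3 := (hadj i j hij).2 v h1 h2
    omega
  have key : ∀ s : ℝ, p ≤ s → s ≤ q → ReplicaSymmetric H p s → Ncond H p s := by
    intro s h1 h2 h3 r hr hr1
    exact necessary H hedge hp h1 (lt_of_le_of_lt h2 hq) h3 r hr hr1
  have main : (∀ s : ℝ, p ≤ s → s ≤ q → Ncond H p s) → ∀ s : ℝ, p ≤ s → s ≤ q →
      ReplicaSymmetric H p s ∧ UniqueMinimizer H p s := by
    intro h s h1 h2
    rcases h1.eq_or_lt with rfl | hlt
    · exact ⟨rs_self H hp hp1, unique_self H hp hp1⟩
    · exact lower_suff hedge hTwo hHalf hdeg hp hlt (lt_of_le_of_lt h2 hq)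
        fun q' h3 h4 => h q' h3 (h4.le.trans h2)
  refine ⟨⟨fun h s h1 h2 r hr hr1 => ?_, fun h s h1 h2 => ?_⟩, fun h s h1 h2 => ?_⟩
  · have h3 := key s h1 h2 (h s h1 h2) r hr hr1
    rw [logit_eq (lt_of_lt_of_le hp h1) (lt_of_le_of_lt h2 hq), logit_eq hp hp1]
    exact h3
  · refine (main (fun s h1 h2 r hr hr1 => ?_) s h1 h2).1
    have h3 := h s h1 h2 r hr hr1
    rw [logit_eq (lt_of_lt_of_le hp h1) (lt_of_le_of_lt h2 hq), logit_eq hp hp1] at h3
    exact h3
  · exact (main (fun s h1 h2 => key s h1 h2 (h s h1 h2)) s h1 h2).2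

end Pool.Agent.Results.MP_bbc525_pr.LowerBranch
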