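import Pool.Agent.W_bbc525_h89.Step
import Pool.Agent.W_bbc525_h89.Hull

/-!
# The maximizer
-/

set_option autoImplicit false
set_option linter.unusedSectionVars false

namespace Pool.Agent.W_bbc525_h89

open Finset Filter Topology MeasureTheory Pool.Agent.W_MP_bbc525_pr

variable {V : Type*} [Fintype V] [DecidableEq V] {H : SimpleGraph V} [DecidableRel H.Adj]

/-- the atoms of a maximizing law are equal to `q` -/
theorem max_atoms (hE : 0 < H.edgeFinset.card) (hH : HalfCond H) (hD : TwoDeg H) {p q : ℝ}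
    (hp : 0 < p) (hpq : p < q) (hq1 : q < 1) (hN : ∀ q', p ≤ q' → q' < q → Ncond H p q')
    {ι : Type} [Fintype ι] {w y : ι → ℝ} (hw : ∀ i, 0 < w i)
    (hw1 : ∑ i, w i = 1) (hy0 : ∀ i, 0 ≤ y i) (hy1 : ∀ i, y i ≤ 1)
    (hen : fe p w y ≤ relEnt p q)
    (hmax : ∀ (κ : Type) [Fintype κ] (w' y' : κ → ℝ), (∀ i, 0 ≤ w' i) → ∑ i, w' i = 1 →
      (∀ i, 0 ≤ y' i) → (∀ i, y' i ≤ 1) → fe p w' y' ≤ relEnt p q →
      Psi H (fm w' y') ≤ Psi H (fm w y)) : ∀ i, y i = q := by
  classical
  have hq : 0 < q := hp.trans hpq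
  have hp1 : p < 1 := hpq.trans hq1
  have hmono := relEnt_strictMonoOn hp hp1
  -- the value at `q`
  have hval : q ^ H.edgeFinset.card ≤ Psi H (fm w y) := by
    have h1 := hmax Unit (fun _ => 1) (fun _ => q) (fun _ => zero_le_one) (by simp)
      (fun _ => hq.le) (fun _ => hq1.le) (by simp [fe])
    have h2 : fm (fun _ : Unit => (1 : ℝ)) (fun _ => q) = fun k => q ^ k := by
      funext k
      simp [fm]
    rw [h2, Psi_pow H hq.le] at h1
    exact h1
  have hpos : 0 < Psi H (fm w y) := lt_of_lt_of_le (pow_pos hq _) hval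
  have hne : Nonempty ι := by
    by_contra hcon
    rw [not_nonempty_iff] at hcon
    rw [Finset.univ_eq_empty, Finset.sum_empty] at hw1
    exact zero_ne_one hw1
  obtain ⟨j, hj⟩ := Finite.exists_min y
  have hmM := fun k => fm_nonneg (fun i => (hw i).le) hy0 k
  -- the smallest atom is at least `p`
  have hpj : p ≤ y j := by
    by_contra hcon
    push Not at hcon
    have h1 := hmax ι w (Function.update y j p) (fun i => (hw i).le) hw1 (by
      intro i
      by_cases hi : i = j
      · subst hi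
        rw [Function.update_self]
        exact hp.le
      · rw [Function.update_of_ne hi]
        exact hy0 i) (by
      intro i
      by_cases hi : i = j
      · subst hi
        rw [Function.update_self]
        exact hp1.le
      · rw [Function.update_of_ne hi]
        exact hy1 i) (by
      have h2 := sum_update w y j p (relEnt p)
      unfold fe at hen ⊢
      rw [h2, relEnt_self hp hp1]
      have h3 := mul_nonneg (hw j).le (relEnt_nonneg hp hp1 (hy0 j) (hy1 j))
      linarith)
    have h2 := Psi_lt H hE (M' := fm w (Function.update y j p)) hmM hpos (by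
      intro k hk
      have h3 := sum_update w y j p (fun x => x ^ k)
      unfold fm
      rw [h3]
      have h4 : y j ^ k < p ^ k := pow_lt_pow_left₀ hcon (hy0 j) hk.ne'
      have h5 := mul_pos (hw j) (sub_pos.2 h4)
      linarith)
    linarith
  -- the smallest atom is at least `q`
  have hqj : q ≤ y j := by
    by_contra hcon
    push Not at hcon
    by_cases hex : ∃ i, y j < y i
    · obtain ⟨ε, c, h1, h2, h3, h4, h5, h6⟩ := step hE hH hD hp hq1 hN hw hw1 j hj hpj hcon hy1 hex
      have hwj1 : w j ≤ 1 := by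
        rw [← hw1]
        exact Finset.single_le_sum (fun i _ => (hw i).le) (Finset.mem_univ j)
      have h7 := hmax (Option ι) (pw' w j ε) (py' y c)
        (pw'_nonneg (fun i => (hw i).le) hwj1 h1.le h2.le) (sum_pw' hw1 j ε) (by
          rintro (_ | i)
          · exact h3.le
          · exact hy0 i) (by
          rintro (_ | i)
          · exact h4.le
          · exact hy1 i) (h5.le.trans hen)
      linarith
    · push Not at hex
      have heq : ∀ i, y i = y j := fun i => le_antisymm (hex i) (hj i)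
      have h2 : fm w y = fun k => y j ^ k := by
        funext k
        unfold fm
        simp only [heq]
        rw [← Finset.sum_mul, hw1, one_mul]
      rw [h2, Psi_pow H (hy0 j)] at hval
      exact absurd hval (not_le.2 (pow_lt_pow_left₀ hcon (hy0 j) hE.ne'))
  -- the energy
  by_contra hcon
  push Not at hcon
  obtain ⟨i, hi⟩ := hcon
  have hi' : q < y i := lt_of_le_of_ne (hqj.trans (hj i)) (Ne.symm hi)
  have h1 : relEnt p q < fe p w y := by
    have h1 : relEnt p q = ∑ i, w i * relEnt p q := by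
      rw [← Finset.sum_mul, hw1, one_mul]
    rw [h1]
    unfold fe
    apply Finset.sum_lt_sum
    · intro l _
      refine mul_le_mul_of_nonneg_left ?_ (hw l).le
      exact hmono.monotoneOn ⟨hpq.le, hq1.le⟩ ⟨hpj.trans (hj l), hy1 l⟩ (hqj.trans (hj l))
    · refine ⟨i, Finset.mem_univ i, mul_lt_mul_of_pos_left ?_ (hw i)⟩
      exact hmono ⟨hpq.le, hq1.le⟩ ⟨hpj.trans (hj i), hy1 i⟩ hi'
  linarith

/-- a point of the curve -/
noncomputable def gam (N : ℕ) (p y : ℝ) : ℝ × (Fin N → ℝ) := (relEnt p y, fun k => y ^ (k : ℕ))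

/-- the coordinates -/
noncomputable def co {N : ℕ} (x : Fin N → ℝ) (k : ℕ) : ℝ := if h : k < N then x ⟨k, h⟩ else 0

theorem co_lt {N : ℕ} (x : Fin N → ℝ) {k : ℕ} (h : k < N) : co x k = x ⟨k, h⟩ := dif_pos h

theorem continuous_co {N : ℕ} (k : ℕ) : Continuous fun x : Fin N → ℝ => co x k := by
  by_cases h : k < N
  · simp only [co_lt _ h]
    exact continuous_apply _
  · have : (fun x : Fin N → ℝ => co x k) = fun _ => 0 := funext fun x => dif_neg h
    rw [this]
    exact continuous_const

/-- the set of the moment vectors -/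
noncomputable def KK (N : ℕ) (p : ℝ) : Set (ℝ × (Fin N → ℝ)) :=
  convexHull ℝ (gam N p '' Set.Icc 0 1)

theorem isCompact_KK (N : ℕ) {p : ℝ} (hp : 0 < p) (hp1 : p < 1) : IsCompact (KK N p) := by
  apply isCompact_hull
  apply isCompact_Icc.image_of_continuousOn
  have h : Continuous fun y : ℝ => (fun k : Fin N => y ^ (k : ℕ)) :=
    continuous_pi fun k => continuous_pow _
  exact (continuousOn_relEnt hp hp1).prodMk h.continuousOn

theorem mdeg_lt (e : Sym2 V) : mdeg H e < Fintype.card V := by
  obtain ⟨v, hv⟩ := exists_mdeg (H := H) e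
  rw [hv]
  exact H.degree_lt_card_verts v

theorem ndeg_lt (e : Sym2 V) : ndeg H e < Fintype.card V := by
  obtain ⟨v, hv⟩ := exists_ndeg (H := H) e
  rw [hv]
  exact H.degree_lt_card_verts v

theorem Psi_congr {M M' : ℕ → ℝ} (h : ∀ k < Fintype.card V, M k = M' k) : Psi H M = Psi H M' := by
  unfold Psi
  refine Finset.prod_congr rfl fun e _ => ?_
  rw [h _ (mdeg_lt e), h _ (ndeg_lt e)]

theorem continuous_Psi_co {N : ℕ} : Continuous fun z : ℝ × (Fin N → ℝ) => Psi H (co z.2) := by
  unfold Psi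
  apply continuous_finsetProd
  intro e _
  have h1 : Continuous fun z : ℝ × (Fin N → ℝ) => co z.2 (mdeg H e) :=
    (continuous_co _).comp continuous_snd
  have h2 : Continuous fun z : ℝ × (Fin N → ℝ) => co z.2 (ndeg H e) :=
    (continuous_co _).comp continuous_snd
  have h3 := h2.rpow_const (p := (mdeg H e : ℝ) / ndeg H e) (fun _ => Or.inr (by positivity))
  exact ((h1.add h3).div_const 2).rpow_const (fun _ => Or.inr (by positivity))

theorem sum_gam {N : ℕ} {p : ℝ} {ι : Type*} [Fintype ι] (w y : ι → ℝ) :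
    (∑ i, w i • gam N p (y i)).1 = fe p w y ∧
      ∀ k < N, co (∑ i, w i • gam N p (y i)).2 k = fm w y k := by
  constructor
  · rw [Prod.fst_sum]
    rfl
  · intro k hk
    rw [co_lt _ hk, Prod.snd_sum, Finset.sum_apply]
    rfl

/-- a maximizer of the functional is the point of the curve at `q` -/
theorem maximizer_eq (hE : 0 < H.edgeFinset.card) (hH : HalfCond H) (hD : TwoDeg H) {p q : ℝ}
    (hp : 0 < p) (hpq : p < q) (hq1 : q < 1) (hN : ∀ q', p ≤ q' → q' < q → Ncond H p q')
    {z : ℝ × (Fin (Fintype.card V) → ℝ)} (hz : z ∈ KK (Fintype.card V) p)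
    (hz1 : z.1 ≤ relEnt p q)
    (hmax : ∀ z' ∈ KK (Fintype.card V) p, z'.1 ≤ relEnt p q →
      Psi H (co z'.2) ≤ Psi H (co z.2)) : z = gam (Fintype.card V) p q := by
  obtain ⟨κ, hκ, x, w, hx, -, hw, hw1, hxz⟩ := eq_pos_convex_span_of_mem_convexHull hz
  have h1 : ∀ i, ∃ y : ℝ, y ∈ Set.Icc (0 : ℝ) 1 ∧ gam (Fintype.card V) p y = x i := fun i =>
    hx ⟨i, rfl⟩
  choose y hy hyx using h1
  have h2 : z = ∑ i, w i • gam (Fintype.card V) p (y i) := by
    rw [← hxz]
    exact Finset.sum_congr rfl fun i _ => by rw [hyx]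
  obtain ⟨h3, h4⟩ := sum_gam (N := Fintype.card V) (p := p) w y
  rw [← h2] at h3 h4
  have h5 : Psi H (co z.2) = Psi H (fm w y) := Psi_congr h4
  have h6 : ∀ i, y i = q := by
    apply max_atoms hE hH hD hp hpq hq1 hN hw hw1 (fun i => (hy i).1) (fun i => (hy i).2)
    · rw [← h3]
      exact hz1
    · intro ι' _ w' y' hw' hw1' hy0' hy1' hen'
      obtain ⟨g1, g2⟩ := sum_gam (N := Fintype.card V) (p := p) w' y'
      have g3 := hmax (∑ i, w' i • gam (Fintype.card V) p (y' i))
        ((convex_convexHull ℝ _).sum_mem (fun i _ => hw' i) hw1' fun i _ =>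
          subset_convexHull ℝ _ ⟨y' i, ⟨hy0' i, hy1' i⟩, rfl⟩) (by rw [g1]; exact hen')
      rw [Psi_congr (H := H) g2, h5] at g3
      exact g3
  rw [h2]
  simp only [h6]
  rw [← Finset.sum_smul, hw1, one_smul]

/-- the maximum of the functional -/
theorem Psi_le (hE : 0 < H.edgeFinset.card) (hH : HalfCond H) (hD : TwoDeg H) {p q : ℝ}
    (hp : 0 < p) (hpq : p < q) (hq1 : q < 1) (hN : ∀ q', p ≤ q' → q' < q → Ncond H p q')
    {z : ℝ × (Fin (Fintype.card V) → ℝ)} (hz : z ∈ KK (Fintype.card V) p)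
    (hz1 : z.1 ≤ relEnt p q) (hz2 : q ^ H.edgeFinset.card ≤ Psi H (co z.2)) :
    z = gam (Fintype.card V) p q := by
  have hq : 0 < q := hp.trans hpq
  have hp1 : p < 1 := hpq.trans hq1
  have hcl : IsClosed {z : ℝ × (Fin (Fintype.card V) → ℝ) | z.1 ≤ relEnt p q} :=
    isClosed_le continuous_fst continuous_const
  have hS : IsCompact (KK (Fintype.card V) p ∩ {z | z.1 ≤ relEnt p q}) :=
    (isCompact_KK (Fintype.card V) hp hp1).inter_right hcl
  obtain ⟨z0, hz0, hmax⟩ := hS.exists_isMaxOn ⟨z, hz, hz1⟩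
    (continuous_Psi_co (H := H) (N := Fintype.card V)).continuousOn
  have h1 := maximizer_eq hE hH hD hp hpq hq1 hN hz0.1 hz0.2 fun z' h1 h2 => hmax ⟨h1, h2⟩
  have h2 : Psi H (co z0.2) = q ^ H.edgeFinset.card := by
    rw [h1, ← Psi_pow H hq.le]
    exact Psi_congr fun k hk => co_lt _ hk
  apply maximizer_eq hE hH hD hp hpq hq1 hN hz hz1
  intro z' hz' hz'1
  have h3 : Psi H (co z'.2) ≤ Psi H (co z0.2) := hmax ⟨hz', hz'1⟩
  linarith

/-- the moments of a graphon -/
theorem mem_KK (N : ℕ) {p : ℝ} (hp : 0 < p) (hp1 : p < 1) (W : Graphon) :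
    ((cost p W, fun k => W.mom k) : ℝ × (Fin N → ℝ)) ∈ KK N p := by
  have h1 : Integrable (fun z : unitInterval × unitInterval => relEnt p (W.W z.1 z.2)) :=
    integrable_relEnt hp hp1 W
  have h2 : ∀ k : Fin N, Integrable (fun z : unitInterval × unitInterval =>
      W.W z.1 z.2 ^ (k : ℕ)) := fun k => W.integrable_pow k
  have h3 : Integrable (fun z : unitInterval × unitInterval =>
      (fun k : Fin N => W.W z.1 z.2 ^ (k : ℕ))) := Integrable.of_eval h2
  have h4 : (∫ z : unitInterval × unitInterval, gam N p (W.W z.1 z.2)) =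
      (cost p W, fun k : Fin N => W.mom k) := by
    unfold gam
    rw [integral_pair h1 h3]
    refine Prod.ext rfl ?_
    funext k
    exact eval_integral h2 k
  rw [← h4]
  apply (convex_convexHull ℝ _).integral_mem (isCompact_KK N hp hp1).isClosed
  · exact Filter.Eventually.of_forall fun z => subset_convexHull ℝ _
      ⟨W.W z.1 z.2, ⟨W.nonneg _ _, W.le_one _ _⟩, rfl⟩
  · exact h1.prodMk h3

/-- **Replica symmetry on the lower branch.** -/
theorem lower_suff (hE : 0 < H.edgeFinset.card) (hT : Two H) (hH : HalfCond H) (hD : TwoDeg H)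
    {p q : ℝ} (hp : 0 < p) (hpq : p < q) (hq1 : q < 1)
    (hN : ∀ q', p ≤ q' → q' < q → Ncond H p q') :
    ReplicaSymmetric H p q ∧ UniqueMinimizer H p q := by
  have hq : 0 < q := hp.trans hpq
  have hp1 : p < 1 := hpq.trans hq1
  have key : ∀ W : Graphon, q ^ H.edgeFinset.card ≤ homDensity H W → cost p W ≤ relEnt p q →
      ((cost p W, fun k => W.mom k) : ℝ × (Fin (Fintype.card V) → ℝ)) =
        gam (Fintype.card V) p q := by
    intro W h1 h2
    apply Psi_le hE hH hD hp hpq hq1 hN (mem_KK _ hp hp1 W) h2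
    have h3 : Psi H (co ((cost p W, fun k => W.mom k) : ℝ × (Fin (Fintype.card V) → ℝ)).2) =
        Psi H W.mom := Psi_congr fun k hk => co_lt _ hk
    rw [h3]
    exact h1.trans (homDensity_le_Psi H hT W)
  constructor
  · rw [replicaSymmetric_iff H hp hpq.le hq1]
    intro W h1
    by_contra hcon
    push Not at hcon
    have h2 := key W h1 hcon.le
    have h3 : cost p W = relEnt p q := congrArg Prod.fst h2
    linarith
  · intro W h1 h2
    have h3 := key W h1 h2
    have h4 : ∀ v, W.mom (H.degree v) = q ^ H.degree v := by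
      intro v
      have h5 := congrFun (congrArg Prod.snd h3) ⟨H.degree v, H.degree_lt_card_verts v⟩
      exact h5
    obtain ⟨u, v, hu, hv, huv⟩ := hD
    rcases lt_or_gt_of_ne huv with hlt | hlt
    · exact ae_eq_of_two_moments W hq hu hlt (h4 u) (h4 v)
    · exact ae_eq_of_two_moments W hq hv hlt (h4 v) (h4 u)

end Pool.Agent.W_bbc525_h89
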