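import Pool.Agent.W_MP_bbc525_pr.Reg

/-!
# A mixed norm bound for homomorphism densities

`t(H, W) ≤ ∏_e ‖W‖_e`, where for an edge whose endpoints have the degrees `a ≥ b`
`‖W‖_e ^ a = ∫ (∫ W(x,y)^b dy)^{a/b} dx`.
-/

set_option autoImplicit false

namespace Pool.Agent.W_bbc525_h89

open MeasureTheory Finset Pool.Agent.W_MP_bbc525_pr
open scoped ENNReal

/-- `∫ W(x,y)^b dy` -/
noncomputable def inn (W : Graphon) (b : ℕ) (x : unitInterval) : ℝ := ∫ y, W.W x y ^ b

/-- `∫ (∫ W(x,y)^b dy)^{a/b} dx` -/
noncomputable def mix (W : Graphon) (a b : ℕ) : ℝ := ∫ x, inn W b x ^ ((a : ℝ) / b)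

/-- the smaller degree of the two endpoints of an edge -/
def ndeg {V : Type*} [Fintype V] (H : SimpleGraph V) [DecidableRel H.Adj] (e : Sym2 V) : ℕ :=
  Sym2.lift ⟨fun i j => min (H.degree i) (H.degree j), fun _ _ => min_comm _ _⟩ e

@[simp] theorem ndeg_mk {V : Type*} [Fintype V] (H : SimpleGraph V) [DecidableRel H.Adj]
    (i j : V) : ndeg H s(i, j) = min (H.degree i) (H.degree j) := rfl

section Inner

variable (W : Graphon) (b : ℕ)

theorem measurable_pow_left (x : unitInterval) : Measurable (fun y => W.W x y ^ b) :=
  (W.measurable_left x).pow_const b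

theorem integrable_pow_left (x : unitInterval) : Integrable (fun y => W.W x y ^ b) :=
  Graphon.integrable_of_bdd (measurable_pow_left W b x) (C := 1) fun y => by
    rw [abs_pow]
    exact pow_le_one₀ (abs_nonneg _) (W.abs_le _ _)

theorem inn_nonneg (x : unitInterval) : 0 ≤ inn W b x :=
  integral_nonneg fun y => pow_nonneg (W.nonneg x y) _

theorem inn_le_one (x : unitInterval) : inn W b x ≤ 1 := by
  have h : inn W b x ≤ ∫ _ : unitInterval, (1 : ℝ) :=
    integral_mono (integrable_pow_left W b x) (integrable_const 1)
      fun y => pow_le_one₀ (W.nonneg _ _) (W.le_one _ _)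
  simpa using h

theorem measurable_inn : Measurable (inn W b) := by
  have h0 : Measurable (Function.uncurry fun x y => W.W x y ^ b) := W.measurable.pow_const b
  have h := h0.stronglyMeasurable.integral_prod_right (ν := (volume : Measure unitInterval))
  exact h.measurable

theorem lint_inn (x : unitInterval) :
    ∫⁻ y, ENNReal.ofReal (W.W x y) ^ b = ENNReal.ofReal (inn W b x) := by
  rw [inn, ofReal_integral_eq_lintegral_ofReal (integrable_pow_left W b x)
    (Filter.Eventually.of_forall fun y => pow_nonneg (W.nonneg _ _) _)]
  simp_rw [ENNReal.ofReal_pow (W.nonneg _ _)]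

theorem inn_rpow_le_one (a : ℕ) (x : unitInterval) : inn W b x ^ ((a : ℝ) / b) ≤ 1 :=
  Real.rpow_le_one (inn_nonneg W b x) (inn_le_one W b x) (by positivity)

theorem inn_rpow_nonneg (a : ℕ) (x : unitInterval) : 0 ≤ inn W b x ^ ((a : ℝ) / b) :=
  Real.rpow_nonneg (inn_nonneg W b x) _

theorem integrable_inn_rpow (a : ℕ) : Integrable (fun x => inn W b x ^ ((a : ℝ) / b)) :=
  Graphon.integrable_of_bdd ((measurable_inn W b).pow_const _) (C := 1) fun x => by
    rw [abs_of_nonneg (inn_rpow_nonneg W b a x)]
    exact inn_rpow_le_one W b a x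

theorem mix_nonneg (a : ℕ) : 0 ≤ mix W a b := integral_nonneg fun x => inn_rpow_nonneg W b a x

theorem lint_mix (a : ℕ) :
    ∫⁻ x, ENNReal.ofReal (inn W b x) ^ ((a : ℝ) / b) = ENNReal.ofReal (mix W a b) := by
  rw [mix, ofReal_integral_eq_lintegral_ofReal (integrable_inn_rpow W b a)
    (Filter.Eventually.of_forall fun x => inn_rpow_nonneg W b a x)]
  apply lintegral_congr
  intro x
  rw [ENNReal.ofReal_rpow_of_nonneg (inn_nonneg W b x) (by positivity)]

end Inner

section Main

variable {V : Type*} [Fintype V] [DecidableEq V] (H : SimpleGraph V) [DecidableRel H.Adj]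
  (W : Graphon)

/-- the factor of an edge of which both endpoints are integrated out -/
noncomputable def mixC (a b : ℕ) : ℝ≥0∞ := ENNReal.ofReal (mix W a b) ^ (1 / (a : ℝ))

/-- the factor of an edge after the integration over the coordinates in `S` -/
noncomputable def Mix_g (S : Finset V) (x : V → unitInterval) (i j : V) : ℝ≥0∞ :=
  if i ∈ S then
    if j ∈ S then mixC W (max (H.degree i) (H.degree j)) (min (H.degree i) (H.degree j))
    else ENNReal.ofReal (inn W (H.degree i) (x j)) ^ (1 / (H.degree i : ℝ))
  else
    if j ∈ S then ENNReal.ofReal (inn W (H.degree j) (x i)) ^ (1 / (H.degree j : ℝ))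
    else ENNReal.ofReal (W.W (x i) (x j))

theorem Mix_g_symm (S : Finset V) (x : V → unitInterval) (i j : V) :
    Mix_g H W S x i j = Mix_g H W S x j i := by
  unfold Mix_g
  rw [max_comm, min_comm, W.symm]
  by_cases hi : i ∈ S <;> by_cases hj : j ∈ S <;> simp [hi, hj]

/-- the factor of an edge after the integration over the coordinates in `S` -/
noncomputable def Mix_G (S : Finset V) (e : Sym2 V) (x : V → unitInterval) : ℝ≥0∞ :=
  Sym2.lift ⟨fun i j => Mix_g H W S x i j, fun i j => Mix_g_symm H W S x i j⟩ e

theorem Mix_G_mk (S : Finset V) (i j : V) (x : V → unitInterval) :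
    Mix_G H W S s(i, j) x = Mix_g H W S x i j := rfl

theorem Mix_G_measurable (S : Finset V) (e : Sym2 V) : Measurable (Mix_G H W S e) := by
  induction e using Sym2.ind with
  | _ i j =>
    have h : Mix_G H W S s(i, j) = fun x => Mix_g H W S x i j := rfl
    rw [h]
    unfold Mix_g
    split_ifs
    · exact measurable_const
    · exact (((measurable_inn W _).comp (measurable_pi_apply j)).ennreal_ofReal).pow_const _
    · exact (((measurable_inn W _).comp (measurable_pi_apply i)).ennreal_ofReal).pow_const _
    · have hpair : Measurable (fun x : V → unitInterval => (x i, x j)) :=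
        (measurable_pi_apply i).prodMk (measurable_pi_apply j)
      exact (W.measurable.comp hpair).ennreal_ofReal

theorem Mix_step_notMem {S : Finset V} {a : V} {e : Sym2 V} (he : a ∉ e)
    (x : V → unitInterval) (y : unitInterval) :
    Mix_G H W S e (Function.update x a y) = Mix_G H W (insert a S) e x := by
  induction e using Sym2.ind with
  | _ i j =>
    simp only [Sym2.mem_iff, not_or] at he
    have hi : i ≠ a := fun h => he.1 h.symm
    have hj : j ≠ a := fun h => he.2 h.symm
    rw [Mix_G_mk, Mix_G_mk]
    unfold Mix_g
    rw [Function.update_of_ne hi, Function.update_of_ne hj]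
    simp only [Finset.mem_insert, hi, hj, false_or]

theorem Mix_step_mem {S : Finset V} {a : V} (ha : a ∉ S)
    (hmax : ∀ u ∈ S, H.degree u ≤ H.degree a) {e : Sym2 V} (hE : e ∈ H.edgeFinset) (he : a ∈ e)
    (x : V → unitInterval) :
    (∫⁻ y, Mix_G H W S e (Function.update x a y) ^ (H.degree a : ℝ)) ^ (1 / (H.degree a : ℝ)) =
      Mix_G H W (insert a S) e x := by
  induction e using Sym2.ind with
  | _ i j =>
    -- reduce to `i = a`
    have key : ∀ u : V, H.Adj a u →
        (∫⁻ y, Mix_g H W S (Function.update x a y) a u ^ (H.degree a : ℝ)) ^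
          (1 / (H.degree a : ℝ)) = Mix_g H W (insert a S) x a u := by
      intro u hu
      have hau : u ≠ a := hu.ne'
      have hda : 0 < H.degree a := (H.degree_pos_iff_exists_adj a).2 ⟨u, hu⟩
      have hdu : 0 < H.degree u := (H.degree_pos_iff_exists_adj u).2 ⟨a, hu.symm⟩
      have hda' : (H.degree a : ℝ) ≠ 0 := by exact_mod_cast hda.ne'
      have hdu' : (H.degree u : ℝ) ≠ 0 := by exact_mod_cast hdu.ne'
      unfold Mix_g
      simp only [ha, if_false, Finset.mem_insert_self, if_true, Finset.mem_insert, hau, false_or,
        Function.update_self, Function.update_of_ne hau]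
      by_cases huS : u ∈ S
      · simp only [huS, if_true]
        have h1 := hmax u huS
        rw [max_eq_left h1, min_eq_right h1, mixC, ← lint_mix]
        congr 1
        apply lintegral_congr
        intro y
        rw [← ENNReal.rpow_mul]
        congr 1
        field_simp
      · simp only [huS, if_false]
        congr 1
        rw [← lint_inn]
        apply lintegral_congr
        intro y
        rw [W.symm, ENNReal.rpow_natCast]
    have hadj : H.Adj i j := by simpa using hE
    rcases Sym2.mem_iff.1 he with h | h
    · subst h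
      exact key j hadj
    · subst h
      have h1 := key i hadj.symm
      simp only [Mix_G_mk]
      rw [Mix_g_symm H W (insert a S) x i a, ← h1]
      congr 1
      apply lintegral_congr
      intro y
      rw [Mix_g_symm]

theorem Mix_marg (S : Finset V) :
    ∫⋯∫⁻_S, (fun x : V → unitInterval => ∏ e ∈ H.edgeFinset, ENNReal.ofReal (W.edge x e))
      ∂(fun _ => volume) ≤ fun x => ∏ e ∈ H.edgeFinset, Mix_G H W S e x := by
  have hmeas : Measurable (fun x : V → unitInterval =>
      ∏ e ∈ H.edgeFinset, ENNReal.ofReal (W.edge x e)) :=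
    Finset.measurable_prod _ fun e _ => (W.measurable_edge e).ennreal_ofReal
  induction S using Finset.induction_on_max_value (fun v => H.degree v) with
  | empty =>
    rw [lmarginal_empty]
    intro x
    refine Finset.prod_le_prod' fun e _ => ?_
    induction e using Sym2.ind with
    | _ i j => simp [Mix_G_mk, Mix_g]
  | insert a s ha hmax ih =>
    intro x
    rw [lmarginal_insert _ hmeas ha]
    calc ∫⁻ y, (∫⋯∫⁻_s, (fun x : V → unitInterval =>
            ∏ e ∈ H.edgeFinset, ENNReal.ofReal (W.edge x e)) ∂(fun _ => volume))
            (Function.update x a y)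
        ≤ ∫⁻ y, ∏ e ∈ H.edgeFinset, Mix_G H W s e (Function.update x a y) :=
          lintegral_mono fun y => ih _
      _ = ∫⁻ y, (∏ e ∈ H.edgeFinset with ¬ a ∈ e, Mix_G H W (insert a s) e x) *
            ∏ e ∈ H.edgeFinset with a ∈ e,
              (Mix_G H W s e (Function.update x a y) ^ (H.degree a : ℝ)) ^
                (1 / (H.degree a : ℝ)) := by
          apply lintegral_congr
          intro y
          rw [mul_comm, ← Finset.prod_filter_mul_prod_filter_not H.edgeFinset (fun e => a ∈ e)]
          congr 1
          · apply Finset.prod_congr rfl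
            intro e he
            have hda : (H.degree a : ℝ) ≠ 0 := by
              have h2 : 0 < H.degree a := by
                rw [← card_filter_edge]
                exact Finset.card_pos.2 ⟨e, he⟩
              exact_mod_cast h2.ne'
            rw [← ENNReal.rpow_mul, mul_one_div_cancel hda, ENNReal.rpow_one]
          · apply Finset.prod_congr rfl
            intro e he
            rw [mem_filter] at he
            exact Mix_step_notMem H W he.2 x y
      _ = (∏ e ∈ H.edgeFinset with ¬ a ∈ e, Mix_G H W (insert a s) e x) *
            ∫⁻ y, ∏ e ∈ H.edgeFinset with a ∈ e,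
              (Mix_G H W s e (Function.update x a y) ^ (H.degree a : ℝ)) ^
                (1 / (H.degree a : ℝ)) := by
          rw [lintegral_const_mul]
          apply Finset.measurable_prod _ fun e _ => ?_
          exact (((Mix_G_measurable H W s e).comp (measurable_update x)).pow_const _).pow_const _
      _ ≤ (∏ e ∈ H.edgeFinset with ¬ a ∈ e, Mix_G H W (insert a s) e x) *
            ∏ e ∈ H.edgeFinset with a ∈ e,
              (∫⁻ y, Mix_G H W s e (Function.update x a y) ^ (H.degree a : ℝ)) ^
                (1 / (H.degree a : ℝ)) := by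
          gcongr
          apply holder_le_one
          · intro e _
            exact (((Mix_G_measurable H W s e).comp (measurable_update x)).pow_const _).aemeasurable
          · rw [Finset.sum_const, card_filter_edge, nsmul_eq_mul, mul_one_div]
            exact div_self_le_one _
          · intro e _
            positivity
      _ = ∏ e ∈ H.edgeFinset, Mix_G H W (insert a s) e x := by
          rw [mul_comm, ← Finset.prod_filter_mul_prod_filter_not H.edgeFinset (fun e => a ∈ e)]
          congr 1
          apply Finset.prod_congr rfl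
          intro e he
          rw [mem_filter] at he
          exact Mix_step_mem H W ha hmax he.1 he.2 x

/-- **The mixed norm bound.** -/
theorem homDensity_le_mix :
    homDensity H W ≤ ∏ e ∈ H.edgeFinset,
      mix W (mdeg H e) (ndeg H e) ^ (1 / (mdeg H e : ℝ)) := by
  have hnn : 0 ≤ ∏ e ∈ H.edgeFinset, mix W (mdeg H e) (ndeg H e) ^ (1 / (mdeg H e : ℝ)) :=
    Finset.prod_nonneg fun e _ => Real.rpow_nonneg (mix_nonneg W _ _) _
  rw [← ENNReal.ofReal_le_ofReal_iff hnn, ofReal_homDensity]
  have h := Mix_marg H W univ (fun _ => 0)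
  rw [lmarginal_univ] at h
  refine h.trans (le_of_eq ?_)
  rw [ENNReal.ofReal_prod_of_nonneg fun e _ => Real.rpow_nonneg (mix_nonneg W _ _) _]
  apply Finset.prod_congr rfl
  intro e
  induction e using Sym2.ind with
  | _ i j =>
    intro _
    rw [Mix_G_mk]
    unfold Mix_g
    simp only [Finset.mem_univ, if_true]
    rw [mixC, mdeg_mk, ndeg_mk, ENNReal.ofReal_rpow_of_nonneg (mix_nonneg W _ _) (by positivity)]

end Main

end Pool.Agent.W_bbc525_h89
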