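import Mathlib

/-!
# The correlation inequality for the weights of the edges

For a random variable `R ≥ 1` with moments `m k`, an edge with degrees `a ≥ b` has the weights
`A = 1/(m_a + m_b^{a/b})` at its upper and `B = m_b^{a/b-1}/(m_a + m_b^{a/b})` at its lower
endpoint.  The weights are negatively correlated to `ψ_k = (m_k - 1)/k`.
-/

set_option autoImplicit false

namespace Pool.Agent.W_bbc525_h89

/-- what is used of the sequence `m k = E R^k` of a random variable `R ≥ 1`, `R ≠ 1` -/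
structure MS (m : ℕ → ℝ) : Prop where
  strict : ∀ k l, k < l → m k < m l
  zero : m 0 = 1
  lyap : ∀ k l : ℕ, 0 < k → k ≤ l → m k ^ ((l : ℝ) / k) ≤ m l
  mid : ∀ a b c, 2 * c ≤ a + b → 2 * m c ≤ m a + m b
  psi_strict : ∀ k l : ℕ, 0 < k → k < l → (m k - 1) / k < (m l - 1) / l
  psi_mid : ∀ a b c : ℕ, 0 < a → 0 < b → 0 < c → 2 * c ≤ a + b →
    2 * ((m c - 1) / c) ≤ (m a - 1) / a + (m b - 1) / b

variable {m : ℕ → ℝ}

namespace MS

theorem mono (h : MS m) {k l : ℕ} (hkl : k ≤ l) : m k ≤ m l := by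
  rcases hkl.eq_or_lt with rfl | hlt
  · exact le_rfl
  · exact (h.strict k l hlt).le

theorem ge_one (h : MS m) (k : ℕ) : 1 ≤ m k := by
  rw [← h.zero]
  exact h.mono (Nat.zero_le k)

theorem gt_one (h : MS m) {k : ℕ} (hk : 0 < k) : 1 < m k := by
  rw [← h.zero]
  exact h.strict 0 k hk

theorem pos (h : MS m) (k : ℕ) : 0 < m k := by linarith [h.ge_one k]

theorem psi_mono (h : MS m) {k l : ℕ} (hk : 0 < k) (hkl : k ≤ l) :
    (m k - 1) / k ≤ (m l - 1) / l := by
  rcases hkl.eq_or_lt with rfl | hlt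
  · exact le_rfl
  · exact (h.psi_strict k l hk hlt).le

end MS

/-- the denominator -/
noncomputable def dn (m : ℕ → ℝ) (a b : ℕ) : ℝ := m a + m b ^ ((a : ℝ) / b)

/-- the numerator of the lower weight -/
noncomputable def pw (m : ℕ → ℝ) (a b : ℕ) : ℝ := m b ^ ((a : ℝ) / b - 1)

/-- the weight at the upper endpoint -/
noncomputable def up (m : ℕ → ℝ) (a b : ℕ) : ℝ := 1 / dn m a b

/-- the weight at the lower endpoint -/
noncomputable def lo (m : ℕ → ℝ) (a b : ℕ) : ℝ := pw m a b / dn m a b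

/-- `ψ_k` -/
noncomputable def psi (m : ℕ → ℝ) (k : ℕ) : ℝ := (m k - 1) / k

/-- the correlation of two edges -/
noncomputable def SS (m : ℕ → ℝ) (a b c d : ℕ) : ℝ :=
  (up m a b - up m c d) * (psi m c - psi m a) + (up m a b - lo m c d) * (psi m d - psi m a) +
  (lo m a b - up m c d) * (psi m c - psi m b) + (lo m a b - lo m c d) * (psi m d - psi m b)

theorem SS_symm (m : ℕ → ℝ) (a b c d : ℕ) : SS m a b c d = SS m c d a b := by
  unfold SS
  ring

section

variable {a b c d : ℕ}

theorem dn_pos (h : MS m) (a b : ℕ) : 0 < dn m a b := by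
  have h1 := h.pos a
  have h2 := Real.rpow_pos_of_pos (h.pos b) ((a : ℝ) / b)
  unfold dn
  linarith

theorem pw_pos (h : MS m) (a b : ℕ) : 0 < pw m a b := Real.rpow_pos_of_pos (h.pos b) _

theorem one_le_div {a b : ℕ} (hb : 0 < b) (hab : b ≤ a) : (1 : ℝ) ≤ (a : ℝ) / b := by
  have hb' : (0 : ℝ) < b := by exact_mod_cast hb
  rw [le_div_iff₀ hb', one_mul]
  exact_mod_cast hab

theorem pw_ge_one (h : MS m) (hb : 0 < b) (hab : b ≤ a) : 1 ≤ pw m a b :=
  Real.one_le_rpow (h.ge_one b) (by linarith [one_le_div hb hab])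

theorem pw_gt_one (h : MS m) (hb : 0 < b) (hab : b < a) : 1 < pw m a b := by
  apply Real.one_lt_rpow (h.gt_one hb)
  have hb' : (0 : ℝ) < b := by exact_mod_cast hb
  have h1 : (1 : ℝ) < (a : ℝ) / b := by
    rw [lt_div_iff₀ hb', one_mul]
    exact_mod_cast hab
  linarith

theorem up_pos (h : MS m) (a b : ℕ) : 0 < up m a b := one_div_pos.2 (dn_pos h a b)

theorem up_le_lo (h : MS m) (hb : 0 < b) (hab : b ≤ a) : up m a b ≤ lo m a b :=
  div_le_div_of_nonneg_right (pw_ge_one h hb hab) (dn_pos h a b).le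

theorem up_lt_lo (h : MS m) (hb : 0 < b) (hab : b < a) : up m a b < lo m a b :=
  div_lt_div_of_pos_right (pw_gt_one h hb hab) (dn_pos h a b)

theorem le_up (h : MS m) (hb : 0 < b) (hab : b ≤ a) : 1 / (2 * m a) ≤ up m a b := by
  apply one_div_le_one_div_of_le (dn_pos h a b)
  have := h.lyap b a hb hab
  unfold dn
  linarith

theorem lo_le (h : MS m) (hb : 0 < b) (hab : b ≤ a) : lo m a b ≤ 1 / (2 * m b) := by
  have hb1 := h.pos b
  unfold lo
  rw [div_le_div_iff₀ (dn_pos h a b) (by positivity)]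
  have h1 := h.lyap b a hb hab
  have h2 : pw m a b * m b = m b ^ ((a : ℝ) / b) := by
    unfold pw
    rw [← Real.rpow_add_one hb1.ne']
    congr 1
    ring
  unfold dn
  linarith

theorem dn_mono (h : MS m) (hb : 0 < b) (hac : a ≤ c) (hbd : b ≤ d) :
    dn m a b ≤ dn m c d := by
  have hd : 0 < d := lt_of_lt_of_le hb hbd
  have hb' : (0 : ℝ) < b := by exact_mod_cast hb
  have hd' : (0 : ℝ) < d := by exact_mod_cast hd
  have h1 : m b ^ ((a : ℝ) / b) = (m b ^ ((d : ℝ) / b)) ^ ((a : ℝ) / d) := by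
    rw [← Real.rpow_mul (h.pos b).le]
    congr 1
    field_simp
  have h2 : (m b ^ ((d : ℝ) / b)) ^ ((a : ℝ) / d) ≤ m d ^ ((a : ℝ) / d) :=
    Real.rpow_le_rpow (Real.rpow_nonneg (h.pos b).le _) (h.lyap b d hb hbd) (by positivity)
  have h3 : m d ^ ((a : ℝ) / d) ≤ m d ^ ((c : ℝ) / d) := by
    apply Real.rpow_le_rpow_of_exponent_le (h.ge_one d)
    apply div_le_div_of_nonneg_right _ hd'.le
    exact_mod_cast hac
  unfold dn
  rw [h1]
  linarith [h.mono hac]

theorem up_mono (h : MS m) (hb : 0 < b) (hac : a ≤ c) (hbd : b ≤ d) :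
    up m c d ≤ up m a b :=
  one_div_le_one_div_of_le (dn_pos h a b) (dn_mono h hb hac hbd)

theorem psi_le (h : MS m) (ha : 0 < a) (hab : a ≤ b) : psi m a ≤ psi m b := h.psi_mono ha hab

/-- separated edges -/
theorem SS_disj (h : MS m) (hb : 0 < b) (hd : 0 < d) (hba : b ≤ a) (hdc : d ≤ c)
    (hcb : c ≤ b) : 0 ≤ SS m a b c d := by
  have hc : 0 < c := lt_of_lt_of_le hd hdc
  have h1 := up_le_lo h hb hba
  have h2 := lo_le h hb hba
  have h3 := le_up h hd hdc
  have h4 := up_le_lo h hd hdc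
  have h5 : 1 / (2 * m b) ≤ 1 / (2 * m c) := by
    apply one_div_le_one_div_of_le
    · linarith [h.pos c]
    · linarith [h.mono hcb]
  have g1 := psi_le h hd hdc
  have g2 := psi_le h hc hcb
  have g3 := psi_le h hb hba
  unfold SS
  have e1 := mul_nonneg (by linarith : 0 ≤ up m c d - up m a b)
    (by linarith : 0 ≤ psi m a - psi m c)
  have e2 := mul_nonneg (by linarith : 0 ≤ lo m c d - up m a b)
    (by linarith : 0 ≤ psi m a - psi m d)
  have e3 := mul_nonneg (by linarith : 0 ≤ up m c d - lo m a b)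
    (by linarith : 0 ≤ psi m b - psi m c)
  have e4 := mul_nonneg (by linarith : 0 ≤ lo m c d - lo m a b)
    (by linarith : 0 ≤ psi m b - psi m d)
  linarith

/-- nested edges -/
theorem SS_nested (h : MS m) (hb : 0 < b) (hbd : b ≤ d) (hdc : d ≤ c) (hca : c < a)
    (hmid : 2 * c ≤ a + b) : 0 ≤ SS m a b c d := by
  have hd : 0 < d := lt_of_lt_of_le hb hbd
  have hc : 0 < c := lt_of_lt_of_le hd hdc
  have ha : 0 < a := lt_trans hc hca
  have hba : b ≤ a := (hbd.trans hdc).trans hca.le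
  have hD1 := dn_pos h a b
  have hD2 := dn_pos h c d
  have hP := pw_ge_one h hb hba
  have hQ := pw_ge_one h hd hdc
  have g1 := psi_le h hb hbd
  have g2 := psi_le h hd hdc
  have g3 : 2 * psi m c ≤ psi m a + psi m b := h.psi_mid a b c ha hb hc hmid
  have g4 : 2 * psi m d ≤ psi m a + psi m b := h.psi_mid a b d ha hb hd (by omega)
  have hDD : dn m c d ≤ dn m a b := by
    have h1 := h.lyap d c hd hdc
    have h2 := h.mid a b c hmid
    have h3 : m b ≤ m b ^ ((a : ℝ) / b) := by
      have h4 := Real.rpow_le_rpow_of_exponent_le (h.ge_one b) (one_le_div hb hba)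
      rwa [Real.rpow_one] at h4
    unfold dn
    linarith
  have e1 := mul_nonneg (mul_nonneg hD2.le (by linarith : 0 ≤ pw m a b - 1))
    (by linarith : 0 ≤ psi m c + psi m d - 2 * psi m b)
  have e2 := mul_nonneg (mul_nonneg hD1.le (by linarith : 0 ≤ pw m c d - 1))
    (by linarith : 0 ≤ psi m a + psi m b - 2 * psi m d)
  have e3 := mul_nonneg (by linarith : 0 ≤ dn m a b - dn m c d)
    (by linarith : 0 ≤ psi m a + psi m b - psi m c - psi m d)
  have key : SS m a b c d = (dn m c d * (psi m c + psi m d - 2 * psi m a +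
      pw m a b * (psi m c + psi m d - 2 * psi m b)) + dn m a b * ((psi m a + psi m b -
      2 * psi m c) + pw m c d * (psi m a + psi m b - 2 * psi m d))) /
      (dn m a b * dn m c d) := by
    unfold SS up lo
    field_simp
    ring
  rw [key]
  apply div_nonneg _ (mul_pos hD1 hD2).le
  nlinarith

/-- the common part of the next two proofs -/
theorem SS_aux {A B D α β γ : ℝ} (hAB : A ≤ B) (hAD : A ≤ D) (hβγ : β ≤ γ)
    (hmid : 2 * γ ≤ α + β) : 0 ≤ (A - D) * (γ - α) + (B - D) * (γ - β) := by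
  have e1 := mul_nonneg (by linarith : 0 ≤ D - A) (by linarith : 0 ≤ α + β - 2 * γ)
  have e2 := mul_nonneg (by linarith : 0 ≤ B - A) (by linarith : 0 ≤ γ - β)
  nlinarith

/-- edges with the same upper degree -/
theorem SS_high (h : MS m) (hb : 0 < b) (hbd : b ≤ d) (hda : d ≤ a)
    (hmid : 2 * d ≤ a + b) : 0 ≤ SS m a b a d := by
  have hd : 0 < d := lt_of_lt_of_le hb hbd
  have ha : 0 < a := lt_of_lt_of_le hd hda
  have hba : b ≤ a := hbd.trans hda
  have h1 := up_le_lo h hb hba
  have h2 := up_le_lo h hd hda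
  have h3 := up_mono h hb (le_refl a) hbd
  have g1 := psi_le h hb hbd
  have g2 := psi_le h hd hda
  have g3 : 2 * psi m d ≤ psi m a + psi m b := h.psi_mid a b d ha hb hd hmid
  unfold SS
  rcases le_total (up m a b) (lo m a d) with hc | hc
  · have e1 := SS_aux h1 hc g1 g3
    have e2 := mul_nonneg (by linarith : 0 ≤ lo m a b - up m a d)
      (by linarith : 0 ≤ psi m a - psi m b)
    linarith
  · have e1 := mul_nonneg (by linarith : 0 ≤ lo m a b - lo m a d)
      (by linarith : 0 ≤ psi m d - psi m b)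
    have e2 := mul_le_mul (by linarith : up m a b - lo m a d ≤ lo m a b - up m a d)
      (by linarith : psi m a - psi m d ≤ psi m a - psi m b) (by linarith) (by linarith)
    nlinarith

/-- crossing edges -/
theorem SS_cross (h : MS m) (hb : 0 < b) (hbd : b ≤ d) (hda : d ≤ a) (hac : a ≤ c)
    (hmid : 2 * d ≤ a + b) (hmid2 : 2 * a ≤ c + d) : 0 ≤ SS m a b c d := by
  have hd : 0 < d := lt_of_lt_of_le hb hbd
  have ha : 0 < a := lt_of_lt_of_le hd hda
  have hc : 0 < c := lt_of_lt_of_le ha hac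
  have hba : b ≤ a := hbd.trans hda
  have hdc : d ≤ c := hda.trans hac
  have h1 := up_le_lo h hb hba
  have h2 := up_le_lo h hd hdc
  have h3 := up_mono h hb hac hbd
  have g1 := psi_le h hb hbd
  have g2 := psi_le h hd hda
  have g5 := psi_le h ha hac
  have g3 : 2 * psi m d ≤ psi m a + psi m b := h.psi_mid a b d ha hb hd hmid
  have g4 : 2 * psi m a ≤ psi m c + psi m d := h.psi_mid c d a hc hd ha hmid2
  unfold SS
  have e0 := mul_nonneg (by linarith : 0 ≤ lo m a b - up m c d)
    (by linarith : 0 ≤ psi m c - psi m b)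
  rcases le_total (up m a b) (lo m c d) with hc' | hc'
  · have e1 := SS_aux h1 hc' g1 g3
    have e2 := mul_nonneg (by linarith : 0 ≤ up m a b - up m c d)
      (by linarith : 0 ≤ psi m c - psi m a)
    linarith
  · have e1 := mul_nonneg (by linarith : 0 ≤ lo m a b - lo m c d)
      (by linarith : 0 ≤ psi m d - psi m b)
    have e2 := mul_nonneg (by linarith : 0 ≤ lo m c d - up m c d)
      (by linarith : 0 ≤ psi m c - psi m a)
    have e3 := mul_nonneg (by linarith : 0 ≤ up m a b - lo m c d)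
      (by linarith : 0 ≤ psi m c + psi m d - 2 * psi m a)
    nlinarith

theorem SS_same (m : ℕ → ℝ) (a b : ℕ) :
    SS m a b a b = 2 * ((lo m a b - up m a b) * (psi m a - psi m b)) := by
  unfold SS
  ring

/-- `k` is not in the interval `(b, a)`, or in its lower half -/
def Half (k b a : ℕ) : Prop := b < k → k < a → 2 * k ≤ a + b

/-- **The correlation of two edges is nonnegative.** -/
theorem SS_nonneg (h : MS m) (hb : 0 < b) (hd : 0 < d) (hba : b ≤ a) (hdc : d ≤ c)
    (h1 : Half c b a) (h2 : Half d b a) (h3 : Half a d c) (h4 : Half b d c) :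
    0 ≤ SS m a b c d := by
  rcases le_or_gt c b with hcb | hcb
  · exact SS_disj h hb hd hba hdc hcb
  rcases le_or_gt a d with had | had
  · rw [SS_symm]
    exact SS_disj h hd hb hdc hba had
  rcases lt_trichotomy c a with hca | hca | hca
  · rcases le_or_gt b d with hbd | hbd
    · exact SS_nested h hb hbd hdc hca (h1 hcb hca)
    · rw [SS_symm]
      exact SS_cross h hd hbd.le hcb.le hca.le (h4 hbd hcb) (h1 hcb hca)
  · subst hca
    rcases lt_trichotomy b d with hbd | hbd | hbd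
    · exact SS_high h hb hbd.le hdc (h2 hbd had)
    · subst hbd
      rw [SS_same]
      have e := mul_nonneg (by linarith [up_le_lo h hb hba] : 0 ≤ lo m c b - up m c b)
        (by linarith [psi_le h hb hba] : 0 ≤ psi m c - psi m b)
      linarith
    · rw [SS_symm]
      exact SS_high h hd hbd.le hba (h4 hbd hcb)
  · rcases le_or_gt d b with hdb | hdb
    · rw [SS_symm]
      exact SS_nested h hd hdb hba hca (h3 had hca)
    · exact SS_cross h hb hdb.le had.le hca.le (h2 hdb had) (h3 had hca)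

theorem SS_pos (h : MS m) (hb : 0 < b) (hba : b < a) : 0 < SS m a b a b := by
  rw [SS_same]
  have h1 := up_lt_lo h hb hba
  have h2 : psi m b < psi m a := h.psi_strict b a hb hba
  have := mul_pos (sub_pos.2 h1) (sub_pos.2 h2)
  linarith

theorem up_self (m : ℕ → ℝ) {a : ℕ} (ha : 0 < a) : up m a a = 1 / (2 * m a) := by
  unfold up dn
  rw [div_self (by exact_mod_cast ha.ne'), Real.rpow_one]
  ring_nf

theorem lo_self (m : ℕ → ℝ) {a : ℕ} (ha : 0 < a) : lo m a a = 1 / (2 * m a) := by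
  unfold lo pw dn
  rw [div_self (by exact_mod_cast ha.ne'), Real.rpow_one, sub_self, Real.rpow_zero]
  ring_nf

theorem SS_pos_reg (h : MS m) (ha : 0 < a) (hac : a < c) : 0 < SS m a a c c := by
  have hc : 0 < c := lt_trans ha hac
  have h1 : 1 / (2 * m c) < 1 / (2 * m a) := by
    apply one_div_lt_one_div_of_lt
    · linarith [h.pos a]
    · linarith [h.strict a c hac]
  have h2 : psi m a < psi m c := h.psi_strict a c ha hac
  unfold SS
  rw [up_self m ha, up_self m hc, lo_self m ha, lo_self m hc]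
  have := mul_pos (sub_pos.2 h1) (sub_pos.2 h2)
  linarith

end

theorem sum_aux {ι : Type*} (E : Finset ι) (W G Q : ι → ℝ) :
    ∑ e ∈ E, ∑ e' ∈ E, (W e * G e' + W e' * G e - 2 * Q e - 2 * Q e') =
      2 * ((∑ e ∈ E, W e) * (∑ e ∈ E, G e) - 2 * E.card * ∑ e ∈ E, Q e) := by
  simp only [Finset.sum_sub_distrib, Finset.sum_add_distrib, ← Finset.mul_sum,
    ← Finset.sum_mul, Finset.sum_const, nsmul_eq_mul]
  ring

/-- the sum over all pairs of edges -/
theorem sum_SS {ι : Type*} (E : Finset ι) (m : ℕ → ℝ) (a b : ι → ℕ) :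
    ∑ e ∈ E, ∑ e' ∈ E, SS m (a e) (b e) (a e') (b e') =
      2 * ((∑ e ∈ E, (up m (a e) (b e) + lo m (a e) (b e))) *
        (∑ e ∈ E, (psi m (a e) + psi m (b e))) -
      2 * E.card * ∑ e ∈ E, (up m (a e) (b e) * psi m (a e) + lo m (a e) (b e) * psi m (b e))) := by
  rw [← sum_aux]
  refine Finset.sum_congr rfl fun e _ => Finset.sum_congr rfl fun e' _ => ?_
  unfold SS
  ring

/-- **The correlation inequality.** -/
theorem corr {ι : Type*} (E : Finset ι) (h : MS m) (a b : ι → ℕ)
    (hb : ∀ e ∈ E, 0 < b e) (hba : ∀ e ∈ E, b e ≤ a e)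
    (hH : ∀ e ∈ E, ∀ e' ∈ E, Half (a e') (b e) (a e) ∧ Half (b e') (b e) (a e))
    (hne : ∃ e ∈ E, ∃ e' ∈ E, b e ≠ a e') :
    2 * E.card * ∑ e ∈ E, (up m (a e) (b e) * psi m (a e) + lo m (a e) (b e) * psi m (b e)) <
      (∑ e ∈ E, (up m (a e) (b e) + lo m (a e) (b e))) *
        (∑ e ∈ E, (psi m (a e) + psi m (b e))) := by
  have h0 : ∀ e ∈ E, ∀ e' ∈ E, 0 ≤ SS m (a e) (b e) (a e') (b e') := by
    intro e he e' he'
    exact SS_nonneg h (hb e he) (hb e' he') (hba e he) (hba e' he') (hH e he e' he').1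
      (hH e he e' he').2 (hH e' he' e he).1 (hH e' he' e he).2
  have hex : ∃ e ∈ E, ∃ e' ∈ E, 0 < SS m (a e) (b e) (a e') (b e') := by
    by_cases hreg : ∃ e ∈ E, b e < a e
    · obtain ⟨e, he, hlt⟩ := hreg
      exact ⟨e, he, e, he, SS_pos h (hb e he) hlt⟩
    · push Not at hreg
      have heq : ∀ e ∈ E, b e = a e := fun e he => le_antisymm (hba e he) (hreg e he)
      obtain ⟨e, he, e', he', hne'⟩ := hne
      rw [heq e he] at hne'
      rcases lt_or_gt_of_ne hne' with hlt | hlt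
      · refine ⟨e, he, e', he', ?_⟩
        rw [heq e he, heq e' he']
        exact SS_pos_reg h ((heq e he) ▸ hb e he) hlt
      · refine ⟨e', he', e, he, ?_⟩
        rw [heq e he, heq e' he']
        exact SS_pos_reg h ((heq e' he') ▸ hb e' he') hlt
  obtain ⟨e, he, e', he', hpos⟩ := hex
  have h2 : 0 < ∑ e ∈ E, ∑ e' ∈ E, SS m (a e) (b e) (a e') (b e') := by
    apply Finset.sum_pos' (fun e he => Finset.sum_nonneg fun e' he' => h0 e he e' he')
    exact ⟨e, he, Finset.sum_pos' (fun e' he' => h0 e he e' he') ⟨e', he', hpos⟩⟩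
  rw [sum_SS] at h2
  linarith

end Pool.Agent.W_bbc525_h89
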