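import Pool.Agent.W_bbc525_h89.Atoms

/-!
# The perturbation of a law
-/

set_option autoImplicit false
set_option linter.unusedSectionVars false

namespace Pool.Agent.W_bbc525_h89

open Finset Filter Topology MeasureTheory Pool.Agent.W_MP_bbc525_pr

variable {V : Type*} [Fintype V] [DecidableEq V] {H : SimpleGraph V} [DecidableRel H.Adj]

/-- an intermediate slope -/
theorem exists_slope {n S1 S2 G : ℝ} (hn : 0 < n) (hS1 : 0 < S1) (h : 2 * n * S2 < S1 * G) :
    ∃ t, 0 < t * S1 - S2 ∧ t < G / (2 * n) := by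
  refine ⟨(S2 / S1 + G / (2 * n)) / 2, ?_, ?_⟩
  · have h1 : S2 / S1 < G / (2 * n) := by
      rw [div_lt_div_iff₀ hS1 (by linarith)]
      linarith
    have h2 : S2 = S2 / S1 * S1 := by field_simp
    nlinarith
  · have h1 : S2 / S1 < G / (2 * n) := by
      rw [div_lt_div_iff₀ hS1 (by linarith)]
      linarith
    linarith

theorem step_energy {p y t G n c0 E I : ℝ} (hL : 0 ≤ logit y - logit p) (hy : 0 < y)
    (hn : 0 < n) (hc0 : c0 = y * (logit y - logit p) / (2 * n)) (ht : t < G / (2 * n))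
    (h1 : c0 * G ≤ E - I) (h2 : I < E) : I - E + t * (y * (logit y - logit p)) < 0 := by
  have _ := hn
  rcases hL.eq_or_lt with h0 | h0
  · rw [← h0]
    linarith
  · have h3 : 0 < y * (logit y - logit p) := mul_pos hy h0
    have h4 := mul_lt_mul_of_pos_right ht h3
    have h5 : G / (2 * n) * (y * (logit y - logit p)) = c0 * G := by
      rw [hc0]
      ring
    linarith

theorem step (hE : 0 < H.edgeFinset.card) (hH : HalfCond H) (hD : TwoDeg H) {p q : ℝ}
    (hp : 0 < p) (hq1 : q < 1) (hN : ∀ q', p ≤ q' → q' < q → Ncond H p q')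
    {ι : Type*} [Fintype ι] [DecidableEq ι] {w y : ι → ℝ} (hw : ∀ i, 0 < w i)
    (hw1 : ∑ i, w i = 1) (j : ι) (hj : ∀ i, y j ≤ y i) (hpj : p ≤ y j) (hjq : y j < q)
    (hy1 : ∀ i, y i ≤ 1) (hex : ∃ i, y j < y i) :
    ∃ ε c, 0 < ε ∧ ε < 1 ∧ 0 < c ∧ c < 1 ∧
      fe p (pw' w j ε) (py' y c) < fe p w y ∧
      Psi H (fm w y) < Psi H (fm (pw' w j ε) (py' y c)) := by
  have hyj : 0 < y j := lt_of_lt_of_le hp hpj
  have hyj1 : y j < 1 := hjq.trans hq1
  have hp1 : p < 1 := lt_of_le_of_lt hpj hyj1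
  have hn : (0 : ℝ) < H.edgeFinset.card := by exact_mod_cast hE
  have hwj := hw j
  have hwj1 : w j ≤ 1 := by
    rw [← hw1]
    exact Finset.single_le_sum (fun i _ => (hw i).le) (Finset.mem_univ j)
  -- the moments of the ratios
  set m : ℕ → ℝ := fun k => ∑ i, w i * (y i / y j) ^ k with hmdef
  have hm : MS m := by
    apply ms_of_law w (fun i => y i / y j) hw hw1
    · intro i
      rw [le_div_iff₀ hyj, one_mul]
      exact hj i
    · obtain ⟨i, hi⟩ := hex
      refine ⟨i, ?_⟩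
      rw [lt_div_iff₀ hyj, one_mul]
      exact hi
  have hM : ∀ k, fm w y k = y j ^ k * m k := by
    intro k
    rw [hmdef]
    simp only [fm, Finset.mul_sum]
    refine Finset.sum_congr rfl fun i _ => ?_
    rw [div_pow]
    have : y j ^ k ≠ 0 := (pow_pos hyj k).ne'
    field_simp
  -- the correlation inequality
  set S1 : ℝ := ∑ e ∈ H.edgeFinset, (up m (mdeg H e) (ndeg H e) + lo m (mdeg H e) (ndeg H e))
    with hS1
  set S2 : ℝ := ∑ e ∈ H.edgeFinset, (up m (mdeg H e) (ndeg H e) * psi m (mdeg H e) +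
    lo m (mdeg H e) (ndeg H e) * psi m (ndeg H e)) with hS2
  have hcorr := corr H.edgeFinset hm (mdeg H) (ndeg H) (fun e he => ndeg_pos H he)
    (fun e _ => ndeg_le_mdeg H e) (fun e he e' _ => hH.edges he) hD.edges
  rw [sum_psi hm.zero, ← hS1, ← hS2] at hcorr
  have hS1pos : 0 < S1 := by
    apply Finset.sum_pos
    · intro e he
      have h1 := up_pos hm (mdeg H e) (ndeg H e)
      have h2 := up_le_lo hm (ndeg_pos H he) (ndeg_le_mdeg H e)
      linarith
    · exact Finset.card_pos.1 hE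
  obtain ⟨t, ht1, ht2⟩ := exists_slope hn hS1pos hcorr
  -- the energy
  have hLn : 0 ≤ logit (y j) - logit p := logit_mono hp hpj hyj1
  have hy0 : ∀ i, 0 ≤ y i := fun i => hyj.le.trans (hj i)
  have hNavg := (hN (y j) hpj hjq).avg (fun i => (hw i).le) hw1 hy0 hy1
  have hIE : relEnt p (y j) < fe p w y := by
    have h1 : relEnt p (y j) = ∑ i, w i * relEnt p (y j) := by
      rw [← Finset.sum_mul, hw1, one_mul]
    rw [h1]
    unfold fe
    have hmono := (relEnt_strictMonoOn hp hp1)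
    apply Finset.sum_lt_sum
    · intro i _
      refine mul_le_mul_of_nonneg_left ?_ (hw i).le
      exact hmono.monotoneOn ⟨hpj, hyj1.le⟩ ⟨hpj.trans (hj i), hy1 i⟩ (hj i)
    · obtain ⟨i, hi⟩ := hex
      refine ⟨i, Finset.mem_univ i, mul_lt_mul_of_pos_left ?_ (hw i)⟩
      exact hmono ⟨hpj, hyj1.le⟩ ⟨hpj.trans (hj i), hy1 i⟩ hi
  have hdE := step_energy (p := p) (y := y j) (t := t) hLn hyj hn rfl ht2 hNavg hIE
  -- the curve
  set κ : ℝ := t / w j with hκ
  have hκw : w j * κ = t := by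
    rw [hκ]
    field_simp
  have hc : HasDerivAt (fun ε : ℝ => y j * (1 + κ * ε)) (y j * κ) 0 := by
    have h1 := (((hasDerivAt_id (0 : ℝ)).const_mul κ).const_add 1).const_mul (y j)
    simpa using h1
  have hc0 : y j * (1 + κ * 0) = y j := by ring
  have hMd : ∀ k : ℕ, HasDerivAt (fun ε : ℝ => fm w y k + ε * (y j ^ k - fm w y k) +
      w j * ((y j * (1 + κ * ε)) ^ k - y j ^ k)) (k * y j ^ k * (t - psi m k)) 0 := by
    intro k
    have h1 := ((hasDerivAt_id (0 : ℝ)).mul_const (y j ^ k - fm w y k)).const_add (fm w y k)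
    have h2 := ((hc.pow k).sub_const (y j ^ k)).const_mul (w j)
    have h3 := h1.add h2
    refine h3.congr_deriv ?_
    rcases Nat.eq_zero_or_pos k with hk | hk
    · subst hk
      rw [hM 0, hm.zero]
      simp
    · have hk' : (k : ℝ) ≠ 0 := by exact_mod_cast hk.ne'
      rw [hc0, hM k]
      have h4 : y j ^ (k - 1) * y j = y j ^ k := by
        rw [← pow_succ, Nat.sub_add_cancel hk]
      unfold psi
      have h5 : w j * (↑k * y j ^ (k - 1) * (y j * κ)) = k * (y j ^ (k - 1) * y j) * (w j * κ) := by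
        ring
      rw [h5, h4, hκw]
      field_simp
      ring
  -- the functional
  have hM0 : ∀ k, fm w y k + (0 : ℝ) * (y j ^ k - fm w y k) +
      w j * ((y j * (1 + κ * 0)) ^ k - y j ^ k) = y j ^ k * m k := by
    intro k
    rw [hc0, hM k]
    ring
  have hlp := hasDerivAt_lpsi H.edgeFinset (mdeg H) (ndeg H)
    (fun (ε : ℝ) (k : ℕ) => fm w y k + ε * (y j ^ k - fm w y k) +
      w j * ((y j * (1 + κ * ε)) ^ k - y j ^ k)) (fun k => k * y j ^ k * (t - psi m k))
    (fun e _ => ⟨hMd _, hMd _⟩) (fun e _ => by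
      simp only [hM0]
      exact ⟨mul_pos (pow_pos hyj _) (hm.pos _), mul_pos (pow_pos hyj _) (hm.pos _)⟩)
  simp only [hM0] at hlp
  rw [deriv_eq H.edgeFinset (mdeg H) (ndeg H) hm (fun e he => mdeg_pos H he)
    (fun e he => ndeg_pos H he) hyj, ← hS1, ← hS2] at hlp
  have ev1 := eventually_gt_of_deriv hlp ht1
  -- the energy along the curve
  have hEd : HasDerivAt (fun ε : ℝ => - (fe p w y + ε * (relEnt p (y j) - fe p w y) +
      w j * (relEnt p (y j * (1 + κ * ε)) - relEnt p (y j))))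
      (- (relEnt p (y j) - fe p w y + t * (y j * (logit (y j) - logit p)))) 0 := by
    have h1 := ((hasDerivAt_id (0 : ℝ)).mul_const (relEnt p (y j) - fe p w y)).const_add (fe p w y)
    have h2 : HasDerivAt (fun x => relEnt p x) (logit (y j) - logit p) (y j * (1 + κ * 0)) := by
      rw [hc0]
      exact hasDerivAt_relEnt hp hp1 hyj hyj1
    have h3 := ((h2.comp (0 : ℝ) hc).sub_const (relEnt p (y j))).const_mul (w j)
    have h4 := (h1.add h3).neg
    refine h4.congr_deriv ?_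
    rw [← hκw]
    ring
  have ev2 := eventually_gt_of_deriv hEd (by linarith)
  have ev3 : ∀ᶠ ε in 𝓝[>] (0 : ℝ), ε ∈ Set.Ioo (0 : ℝ) 1 := Ioo_mem_nhdsGT one_pos
  have ev4 : ∀ᶠ ε in 𝓝[>] (0 : ℝ), y j * (1 + κ * ε) ∈ Set.Ioo (0 : ℝ) 1 := by
    have hcont : Filter.Tendsto (fun ε : ℝ => y j * (1 + κ * ε)) (𝓝[>] 0) (𝓝 (y j * (1 + κ * 0))) :=
      (hc.continuousAt.tendsto).mono_left nhdsWithin_le_nhds
    rw [hc0] at hcont
    exact hcont.eventually (Ioo_mem_nhds hyj hyj1)
  obtain ⟨ε, h1, h2, h3, h4⟩ := (ev1.and (ev2.and (ev3.and ev4))).exists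
  refine ⟨ε, y j * (1 + κ * ε), h3.1, h3.2, h4.1, h4.2, ?_, ?_⟩
  · rw [fe_pert]
    have e1 : fe p w y + (0 : ℝ) * (relEnt p (y j) - fe p w y) +
      w j * (relEnt p (y j * (1 + κ * 0)) - relEnt p (y j)) = fe p w y := by
      rw [hc0]
      ring
    rw [e1] at h2
    linarith
  · have hpos0 : ∀ k, 0 < fm w y k := fun k => by
      rw [hM k]
      exact mul_pos (pow_pos hyj k) (hm.pos k)
    have hpos1 : ∀ k, 0 < fm (pw' w j ε) (py' y (y j * (1 + κ * ε))) k := by
      intro k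
      apply fm_pos (pw'_nonneg (fun i => (hw i).le) hwj1 h3.1.le h3.2.le) (j := none)
      · rintro (_ | i)
        · exact h4.1.le
        · exact hy0 i
      · exact hwj
      · exact h4.1
    rw [← Real.log_lt_log_iff (Psi_pos H hpos0) (Psi_pos H hpos1), log_Psi H hpos0,
      log_Psi H hpos1]
    have e2 : fm (pw' w j ε) (py' y (y j * (1 + κ * ε))) = fun k => fm w y k +
        ε * (y j ^ k - fm w y k) + w j * ((y j * (1 + κ * ε)) ^ k - y j ^ k) := by
      funext k
      exact fm_pert w y j ε _ k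
    have e3 : fm w y = fun k => y j ^ k * m k := funext hM
    rw [e2]
    have e4 : lpsi H.edgeFinset (mdeg H) (ndeg H) (fm w y) =
        lpsi H.edgeFinset (mdeg H) (ndeg H) (fun k => y j ^ k * m k) := by rw [e3]
    rw [e4]
    simp only [hM0] at h1
    exact h1

end Pool.Agent.W_bbc525_h89
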